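import Pool.Agent.H40.GZ.JForm

/-!
# Bounding pair maps of genus one have good forms
-/

open scoped commutatorElement

namespace GZ

open TG (Gen Surf Hq cls inter OutG toOut gam3 al be pp bb stdBP BP InJohnsonKernel InTorelli
  FreelyGenerate)

/-! ### The map induced on homology -/

section Psi

variable {g : ℕ} (d : BP g)

/-- inverse of the map induced on homology -/
def Psi : Hq g →ₗ[ℚ] Hq g where
  toFun z := (fun i => TG.om z (d.B i), fun i => -TG.om z (d.A i))
  map_add' z w := by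
    apply Prod.ext
    · funext i
      simp
    · funext i
      simp [add_comm]
  map_smul' c z := by
    apply Prod.ext
    · funext i
      simp
    · funext i
      simp

theorem Phi_Psi (z : Hq g) : d.Phi (Psi d z) = z := by
  conv_rhs => rw [d.complete z]
  rw [d.Phi_apply]
  refine Finset.sum_congr rfl fun i _ => ?_
  change TG.om z (d.B i) • d.A i + -TG.om z (d.A i) • d.B i = _
  rw [neg_smul, sub_eq_add_neg]

theorem Psi_Phi (z : Hq g) : Psi d (d.Phi z) = z := by
  apply Prod.ext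
  · funext i
    exact d.om_Phi_B z i
  · funext i
    change -TG.om (d.Phi z) (d.A i) = z.2 i
    rw [d.om_Phi_A, neg_neg]

theorem om_Phi (x y : Hq g) : inter (d.Phi x) (d.Phi y) = inter x y := by
  change TG.om (d.Phi x) (d.Phi y) = TG.om x y
  rw [d.Phi_apply y, map_sum, TG.om_apply]
  refine Finset.sum_congr rfl fun i _ => ?_
  rw [map_add, map_smul, map_smul, d.om_Phi_A, d.om_Phi_B, smul_eq_mul, smul_eq_mul]
  ring

theorem om_Psi (x y : Hq g) : inter (Psi d x) (Psi d y) = inter x y := by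
  rw [← om_Phi d, Phi_Psi, Phi_Psi]

theorem cls_phi (a : Surf g) : cls (d.φ a) = d.Phi (cls a) := by
  induction a using gen_induction with
  | h1 => rw [map_one, TG.cls_one, map_zero]
  | hm a b ha hb => rw [map_mul, TG.cls_mul, TG.cls_mul, map_add, ha, hb]
  | hi a ha => rw [map_inv, TG.cls_inv, TG.cls_inv, map_neg, ha]
  | hg j =>
    rw [cls_gn, d.Phi_apply]
    rcases j with i | i
    · change d.A i = ∑ t, ((TG.ea i : Hq g).1 t • d.A t + (TG.ea i : Hq g).2 t • d.B t)
      rw [Finset.sum_eq_single i]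
      · simp [TG.ea]
      · intro t _ ht
        simp [TG.ea, ht]
      · intro h; exact absurd (Finset.mem_univ i) h
    · change d.B i = ∑ t, ((TG.eb i : Hq g).1 t • d.A t + (TG.eb i : Hq g).2 t • d.B t)
      rw [Finset.sum_eq_single i]
      · simp [TG.eb]
      · intro t _ ht
        simp [TG.eb, ht]
      · intro h; exact absurd (Finset.mem_univ i) h

end Psi

/-! ### The symplectic map of handles -/

section Sh

variable {m : ℕ} (M : ℚ)

/-- exchange of the first two handles, with a rotation of the first one -/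
def Sh : Hq (m + 2) →ₗ[ℚ] Hq (m + 2) where
  toFun u := (Fin.cons (M * u.2 (Fin.succ 0)) (Fin.cons (u.1 0) fun i => u.1 i.succ.succ),
    Fin.cons (-M⁻¹ * u.1 (Fin.succ 0)) (Fin.cons (u.2 0) fun i => u.2 i.succ.succ))
  map_add' u v := by
    apply Prod.ext
    · funext i
      refine Fin.cases ?_ (fun i => ?_) i
      · change M * (u.2 (Fin.succ 0) + v.2 (Fin.succ 0)) = _ + _
        exact mul_add _ _ _
      · refine Fin.cases rfl (fun i => rfl) i
    · funext i
      refine Fin.cases ?_ (fun i => ?_) i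
      · change -M⁻¹ * (u.1 (Fin.succ 0) + v.1 (Fin.succ 0)) = _ + _
        exact mul_add _ _ _
      · refine Fin.cases rfl (fun i => rfl) i
  map_smul' c u := by
    apply Prod.ext
    · funext i
      refine Fin.cases ?_ (fun i => ?_) i
      · change M * (c * u.2 (Fin.succ 0)) = c * (M * u.2 (Fin.succ 0))
        ring
      · refine Fin.cases rfl (fun i => rfl) i
    · funext i
      refine Fin.cases ?_ (fun i => ?_) i
      · change -M⁻¹ * (c * u.1 (Fin.succ 0)) = c * (-M⁻¹ * u.1 (Fin.succ 0))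
        ring
      · refine Fin.cases rfl (fun i => rfl) i

/-- its inverse -/
def Sh' : Hq (m + 2) →ₗ[ℚ] Hq (m + 2) where
  toFun u := (Fin.cons (u.1 (Fin.succ 0)) (Fin.cons (-M * u.2 0) fun i => u.1 i.succ.succ),
    Fin.cons (u.2 (Fin.succ 0)) (Fin.cons (M⁻¹ * u.1 0) fun i => u.2 i.succ.succ))
  map_add' u v := by
    apply Prod.ext
    · funext i
      refine Fin.cases rfl (fun i => ?_) i
      refine Fin.cases ?_ (fun i => rfl) i
      change -M * (u.2 0 + v.2 0) = _ + _
      exact mul_add _ _ _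
    · funext i
      refine Fin.cases rfl (fun i => ?_) i
      refine Fin.cases ?_ (fun i => rfl) i
      change M⁻¹ * (u.1 0 + v.1 0) = _ + _
      exact mul_add _ _ _
  map_smul' c u := by
    apply Prod.ext
    · funext i
      refine Fin.cases rfl (fun i => ?_) i
      refine Fin.cases ?_ (fun i => rfl) i
      change -M * (c * u.2 0) = c * (-M * u.2 0)
      ring
    · funext i
      refine Fin.cases rfl (fun i => ?_) i
      refine Fin.cases ?_ (fun i => rfl) i
      change M⁻¹ * (c * u.1 0) = c * (M⁻¹ * u.1 0)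
      ring

variable {M}

theorem Sh_Sh' (hM : M ≠ 0) (u : Hq (m + 2)) : Sh M (Sh' M u) = u := by
  apply Prod.ext
  · funext i
    refine Fin.cases ?_ (fun i => ?_) i
    · change M * (M⁻¹ * u.1 0) = u.1 0
      field_simp
    · refine Fin.cases rfl (fun i => rfl) i
  · funext i
    refine Fin.cases ?_ (fun i => ?_) i
    · change -M⁻¹ * (-M * u.2 0) = u.2 0
      field_simp
    · refine Fin.cases rfl (fun i => rfl) i

theorem Sh'_Sh (hM : M ≠ 0) (u : Hq (m + 2)) : Sh' M (Sh M u) = u := by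
  apply Prod.ext
  · funext i
    refine Fin.cases rfl (fun i => ?_) i
    refine Fin.cases ?_ (fun i => rfl) i
    change -M * (-M⁻¹ * u.1 (Fin.succ 0)) = u.1 (Fin.succ 0)
    field_simp
  · funext i
    refine Fin.cases rfl (fun i => ?_) i
    refine Fin.cases ?_ (fun i => rfl) i
    change M⁻¹ * (M * u.2 (Fin.succ 0)) = u.2 (Fin.succ 0)
    field_simp

/-- the part of the intersection form of the other handles -/
def Vf (u v : Hq (m + 2)) : ℚ :=
  ∑ i : Fin m, (u.1 i.succ.succ * v.2 i.succ.succ - u.2 i.succ.succ * v.1 i.succ.succ)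

theorem inter_split (u v : Hq (m + 2)) : inter u v = (u.1 0 * v.2 0 - u.2 0 * v.1 0) +
    ((u.1 (Fin.succ 0) * v.2 (Fin.succ 0) - u.2 (Fin.succ 0) * v.1 (Fin.succ 0)) + Vf u v) := by
  unfold inter Vf
  rw [Fin.sum_univ_succ, Fin.sum_univ_succ]

theorem Sh_inter (hM : M ≠ 0) (u v : Hq (m + 2)) : inter (Sh M u) (Sh M v) = inter u v := by
  rw [inter_split, inter_split u v]
  change (M * u.2 (Fin.succ 0)) * (-M⁻¹ * v.1 (Fin.succ 0)) -
    (-M⁻¹ * u.1 (Fin.succ 0)) * (M * v.2 (Fin.succ 0)) +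
    ((u.1 0 * v.2 0 - u.2 0 * v.1 0) + Vf u v) = _
  field_simp
  ring

theorem Blt_one (u v : Hq (m + 2)) :
    Blt (Fin.succ 0 : Fin (m + 2)) u v = u.1 0 * v.2 0 - u.2 0 * v.1 0 := by
  rw [Blt_apply, Finset.sum_eq_single 0]
  · intro i hi hne
    have h1 := (Finset.mem_filter.1 hi).2
    exfalso
    apply hne
    apply Fin.ext
    change (i : ℕ) = 0
    have h2 : ((Fin.succ 0 : Fin (m + 2)) : ℕ) = 1 := rfl
    omega
  · intro h
    exfalso
    apply h
    rw [Finset.mem_filter]
    exact ⟨Finset.mem_univ _, by simp⟩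

/-- the form of a power of the standard bounding pair map of genus one, modified by an inner
automorphism -/
theorem form_eq (u v w : Hq (m + 2)) :
    (M • xstd (Fin.succ 0 : Fin (m + 2)) + (-M) • wedge (TG.om.flip (TG.ea (Fin.succ 0)))
      TG.om tom_alt : A3 (m + 2)) ![u, v, w] = ((sp m 0).compLinearMap (Sh M)) ![u, v, w] := by
  have h1 : ((sp m 0).compLinearMap (Sh M)) ![u, v, w] = (sp m 0) ![Sh M u, Sh M v, Sh M w] := by
    change (sp m 0) (Sh M ∘ ![u, v, w]) = _
    congr 1
    funext t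
    fin_cases t <;> rfl
  rw [h1]
  change M * (xstd (Fin.succ 0 : Fin (m + 2))) ![u, v, w] +
    (-M) * (wedge (TG.om.flip (TG.ea (Fin.succ 0))) TG.om tom_alt) ![u, v, w] =
    (M * u.2 (Fin.succ 0)) * Vf v w - (M * v.2 (Fin.succ 0)) * Vf u w +
      (M * w.2 (Fin.succ 0)) * Vf u v
  rw [xstd_apply, wedge_apply]
  change _ + (-M) * (inter u (TG.ea (Fin.succ 0)) * inter v w - inter v (TG.ea (Fin.succ 0)) *
    inter u w + inter w (TG.ea (Fin.succ 0)) * inter u v) = _
  rw [inter_ea, inter_ea, inter_ea, Blt_one, Blt_one, Blt_one, inter_split, inter_split u w,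
    inter_split u v]
  ring

end Sh

/-! ### Bounding pair maps of genus one -/

theorem conj_inner {G : Type*} [Group G] (γ : G) : toOut (MulAut.conj γ) = 1 :=
  TG.toOut_eq_one.2 ⟨γ, rfl⟩

theorem bp_form {g : ℕ} (d : BP g) (hk : (d.k : ℕ) = 1) {n : ℤ} (hn : n ≠ 0) {κ : OutG (Surf g)}
    (hκ : InJohnsonKernel κ) : ∃ x : A3 g, IsJohnson (d.map ^ n * κ) x ∧ GoodF x := by
  have hlt := d.lt
  obtain ⟨m, rfl⟩ : ∃ m, g = m + 2 := ⟨g - 2, by omega⟩
  have hm : 0 < m := by omega
  have hk' : d.k = Fin.succ 0 := Fin.ext hk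
  have hM : (n : ℚ) ≠ 0 := Int.cast_ne_zero.2 hn
  obtain ⟨K, rfl, hK⟩ := hκ
  have h1 := johnson_zpow (johnson_std d.k) n
  have h2 := johnson_zpow (johnson_inner (al d.k : Surf (m + 2))) (-n)
  have h3 := johnson_mul h1 h2
  rw [TG.cls_al, Int.cast_neg, hk'] at h3
  have h4 := johnson_congr h3 (form_eq (M := (n : ℚ)))
  have h5 := johnson_conjAut (φ := d.φ) h4 (S := Psi d)
    (fun a u => by rw [cls_phi, ← om_Phi d, Phi_Psi])
    (fun a => by rw [cls_phi, Psi_Phi]) (om_Psi d)
  have h6 := johnson_mul h5 (johnson_ker hK)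
  rw [add_zero] at h6
  refine ⟨_, ⟨_, ?_, h6⟩, ?_⟩
  · rw [map_mul, map_mul, map_mul, map_mul, map_zpow, map_zpow, conj_inner, one_zpow, mul_one]
    congr 1
    unfold BP.map BP.aut
    rw [map_mul, map_mul, map_inv, ← hk', conj_zpow]
  · exact ((good_sp hm).comp (Sh_inter hM) (Sh_Sh' hM) (Sh'_Sh hM)).comp (om_Psi d) (Psi_Phi d)
      (Phi_Psi d)

/-- **bounding pair maps of genus one and generic elements** -/
theorem bp_generic {g : ℕ} (d : BP g) (hk : (d.k : ℕ) = 1) {n : ℤ} (hn : n ≠ 0)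
    {κ : OutG (Surf g)} (hκ : InJohnsonKernel κ) :
    ∃ (N : ℕ) (b : Module.Basis (Fin N) ℚ (A3 g)) (P : MvPolynomial (Fin N) ℚ), P ≠ 0 ∧
      ∀ (h : OutG (Surf g)) (y : A3 g), IsJohnson h y → MvPolynomial.eval (b.repr y) P ≠ 0 →
        InTorelli h ∧ FreelyGenerate (d.map ^ n * κ) h := by
  obtain ⟨x, hx, hg⟩ := bp_form d hk hn hκ
  exact hg.free hx

end GZ
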