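import Pool.Agent.H40.TG.Cls

/-!
# Homology classes with coefficients in a commutative `ℚ`-algebra
-/

open scoped commutatorElement

namespace GZ

open TG

/-- homology with coefficients in `K`, in coordinates of the standard symplectic basis -/
abbrev HK (K : Type*) (g : ℕ) := Gen g → K

variable {K : Type*} {g : ℕ}

section ring

variable [CommRing K]

/-- the algebraic intersection form, as a bilinear map -/
def om : HK K g →ₗ[K] HK K g →ₗ[K] K :=
  LinearMap.mk₂ K
    (fun u v => ∑ i, (u (Sum.inl i) * v (Sum.inr i) - u (Sum.inr i) * v (Sum.inl i)))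
    (fun u u' v => by
      rw [← Finset.sum_add_distrib]
      exact Finset.sum_congr rfl fun i _ => by simp; ring)
    (fun c u v => by
      rw [smul_eq_mul, Finset.mul_sum]
      exact Finset.sum_congr rfl fun i _ => by simp; ring)
    (fun u v v' => by
      rw [← Finset.sum_add_distrib]
      exact Finset.sum_congr rfl fun i _ => by simp; ring)
    (fun c u v => by
      rw [smul_eq_mul, Finset.mul_sum]
      exact Finset.sum_congr rfl fun i _ => by simp; ring)

theorem om_apply (u v : HK K g) :
    om u v = ∑ i, (u (Sum.inl i) * v (Sum.inr i) - u (Sum.inr i) * v (Sum.inl i)) := rfl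

theorem om_alt (u : HK K g) : om u u = 0 := by
  rw [om_apply]
  exact Finset.sum_eq_zero fun i _ => by ring

theorem om_swap (u v : HK K g) : om u v = -om v u := by
  rw [om_apply, om_apply, ← Finset.sum_neg_distrib]
  exact Finset.sum_congr rfl fun i _ => by ring

/-- the standard basis vectors -/
def e (K : Type*) [CommRing K] {g : ℕ} (j : Gen g) : HK K g := Pi.single j 1

/-- the class of `α_i` -/
abbrev ea (i : Fin g) : HK K g := e K (Sum.inl i)

/-- the class of `β_i` -/
abbrev eb (i : Fin g) : HK K g := e K (Sum.inr i)

theorem om_ea (z : HK K g) (i : Fin g) : om z (ea i) = -z (Sum.inr i) := by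
  rw [om_apply, Finset.sum_eq_single i]
  · simp [e]
  · intro j _ hj
    simp [e, hj]
  · intro h; exact absurd (Finset.mem_univ i) h

theorem om_eb (z : HK K g) (i : Fin g) : om z (eb i) = z (Sum.inl i) := by
  rw [om_apply, Finset.sum_eq_single i]
  · simp [e]
  · intro j _ hj
    simp [e, hj]
  · intro h; exact absurd (Finset.mem_univ i) h

theorem om_nondeg {x : HK K g} (h : ∀ y, om x y = 0) : x = 0 := by
  funext j
  rcases j with i | i
  · have := om_eb x i
    rw [h] at this
    exact this.symm
  · have := om_ea x i
    rw [h] at this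
    rw [Pi.zero_apply]
    exact (neg_eq_zero.1 this.symm)

theorem om_pair (ξ η : HK K g) :
    ∑ i, (om ξ (ea i) * om η (eb i) - om ξ (eb i) * om η (ea i)) = om ξ η := by
  rw [om_apply]
  exact Finset.sum_congr rfl fun i _ => by rw [om_ea, om_eb, om_eb, om_ea]; ring

theorem hk_decomp (z : HK K g) : z = ∑ i, (z (Sum.inl i) • ea i + z (Sum.inr i) • eb i) := by
  funext j
  rw [Finset.sum_apply]
  rcases j with j | j
  · rw [Finset.sum_eq_single j]
    · simp [e]
    · intro b _ hb
      simp [e, Ne.symm hb]
    · intro h; exact absurd (Finset.mem_univ j) h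
  · rw [Finset.sum_eq_single j]
    · simp [e]
    · intro b _ hb
      simp [e, Ne.symm hb]
    · intro h; exact absurd (Finset.mem_univ j) h

end ring

section alg

variable [CommRing K] [Algebra ℚ K]

/-- extension of scalars of a rational class -/
def toK (K : Type*) [CommRing K] [Algebra ℚ K] {g : ℕ} (u : Hq g) : HK K g :=
  fun j => algebraMap ℚ K (Sum.elim u.1 u.2 j)

theorem toK_add (u v : Hq g) : toK K (u + v) = toK K u + toK K v := by
  funext j
  rcases j with i | i <;> simp [toK]

theorem toK_smul (c : ℚ) (u : Hq g) : toK K (c • u) = algebraMap ℚ K c • toK K u := by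
  funext j
  rcases j with i | i <;> simp [toK]

theorem toK_zero : toK K (0 : Hq g) = 0 := by
  funext j
  rcases j with i | i <;> simp [toK]

theorem toK_neg (u : Hq g) : toK K (-u) = -toK K u := by
  funext j
  rcases j with i | i <;> simp [toK]

theorem om_toK (u v : Hq g) : om (toK K u) (toK K v) = algebraMap ℚ K (inter u v) := by
  rw [om_apply, inter, map_sum]
  exact Finset.sum_congr rfl fun i _ => by simp [toK]

/-- homology classes of elements of the surface group -/
def clk (K : Type*) [CommRing K] [Algebra ℚ K] {g : ℕ} (x : Surf g) : HK K g := toK K (cls x)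

theorem clk_one : clk K (1 : Surf g) = 0 := by
  unfold clk; rw [cls_one, toK_zero]

theorem clk_mul (x y : Surf g) : clk K (x * y) = clk K x + clk K y := by
  unfold clk; rw [cls_mul, toK_add]

theorem clk_inv (x : Surf g) : clk K x⁻¹ = -clk K x := by
  unfold clk; rw [cls_inv, toK_neg]

theorem clk_al (i : Fin g) : clk K (al i) = ea i := by
  unfold clk
  rw [cls_al]
  funext j
  rcases j with j | j
  · by_cases h : j = i
    · subst h; simp [toK, TG.ea, e]
    · simp [toK, TG.ea, e, h]
  · simp [toK, TG.ea, e]

theorem clk_be (i : Fin g) : clk K (be i) = eb i := by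
  unfold clk
  rw [cls_be]
  funext j
  rcases j with j | j
  · simp [toK, TG.eb, e]
  · by_cases h : j = i
    · subst h; simp [toK, TG.eb, e]
    · simp [toK, TG.eb, e, h]

end alg

end GZ
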