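import Pool.Agent.H40.GZ.Symb

/-!
# Automorphisms which are not inner
-/

open scoped commutatorElement

namespace GZ

open TG (dep dep_mk dep_le eq_of_dep cases_of_dep Surf al be Gen cls surf_hom_ext surf_induction)

variable {K : Type*} [Field K] [Algebra ℚ K] {g n : ℕ}

theorem nv_clk_al (i : Fin g) : (nv (clk K (al i)) : RN K (Surf g) n) = dl (al i) := by
  rw [clk_al]; exact nv_e (Sum.inl i)

theorem nv_clk_be (i : Fin g) : (nv (clk K (be i)) : RN K (Surf g) n) = dl (be i) := by
  rw [clk_be]; exact nv_e (Sum.inr i)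

/-- elements of the group are approximated by their classes -/
theorem dl_sub_nv (x : Surf g) : (dl x : RN K (Surf g) n) - nv (clk K x) ∈
    JJ K (Surf g) n ^ 2 := by
  induction x using surf_induction with
  | h1 => rw [dl_one, clk_one, map_zero, sub_zero]; exact Submodule.zero_mem _
  | ha i => rw [nv_clk_al, sub_self]; exact Submodule.zero_mem _
  | hb i => rw [nv_clk_be, sub_self]; exact Submodule.zero_mem _
  | hm x y hx hy =>
    have h : (dl (x * y) : RN K (Surf g) n) - nv (clk K (x * y)) = (dl x - nv (clk K x)) +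
        (dl y - nv (clk K y)) + dl x * dl y := by
      rw [dl_mul, clk_mul, map_add]; abel
    rw [h]
    exact Submodule.add_mem _ (Submodule.add_mem _ hx hy)
      (JJ_mul (dl_mem_one x) (dl_mem_one y))
  | hi x hx =>
    have h : (dl x⁻¹ : RN K (Surf g) n) - nv (clk K x⁻¹) = -(dl x - nv (clk K x)) -
        dl x * dl x⁻¹ := by
      have h0 : (dl x⁻¹ : RN K (Surf g) n) = -dl x - dl x * dl x⁻¹ := by
        have h1 := dl_mul (K := K) (n := n) x x⁻¹
        rw [mul_inv_cancel, dl_one] at h1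
        have h2 : (dl x⁻¹ : RN K (Surf g) n) = (dl x + dl x⁻¹ + dl x * dl x⁻¹) - dl x -
          dl x * dl x⁻¹ := by abel
        rw [← h1, zero_sub] at h2
        exact h2
      conv_lhs => rw [h0, clk_inv, map_neg]
      abel
    rw [h]
    exact Submodule.sub_mem _ (Submodule.neg_mem _ hx)
      (JJ_mul (dl_mem_one x) (dl_mem_one _))

/-- orthogonal to the letters -/
def Pp (ζ : Fin 2 → HK K g) (y : HK K g) : Prop := ∀ j, om (ζ j) y = 0

/-- nonzero modulo the letters -/
def NZ (ζ : Fin 2 → HK K g) (y : HK K g) : Prop := ∃ h, Pp ζ h ∧ om y h ≠ 0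

omit [Algebra ℚ K] in
theorem Pp.add {ζ : Fin 2 → HK K g} {y y' : HK K g} (h : Pp ζ y) (h' : Pp ζ y') :
    Pp ζ (y + y') := fun j => by rw [map_add, h j, h' j, add_zero]

omit [Algebra ℚ K] in
theorem Pp.smul {ζ : Fin 2 → HK K g} {y : HK K g} (h : Pp ζ y) (c : K) :
    Pp ζ (c • y) := fun j => by rw [map_smul, h j, smul_zero]

omit [Algebra ℚ K] in
/-- a word of letters with nonzero value -/
theorem exists_word {ζ : Fin 2 → HK K g} {T : Fin 2 → Fin 2 → HK K g →ₗ[K] HK K g}
    (hperp : ∀ k i w, Pp ζ w → Pp ζ (T k i w))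
    (hinj : ∀ Y : Fin 2 → HK K g, (∀ k, Pp ζ (Y k)) → (∃ k, NZ ζ (Y k)) →
      ∃ i, NZ ζ (∑ k, T k i (Y k))) :
    ∀ (m : ℕ) (X : List (Fin 2) → HK K g), (∀ w, Pp ζ (X w)) →
      (∃ w, w.length = m ∧ NZ ζ (X w)) → ∃ L : List (Fin 2), L.length = m ∧ NZ ζ (BB T L X) := by
  intro m
  induction m with
  | zero =>
    rintro X _ ⟨w, hw, h⟩
    rw [List.length_eq_zero_iff] at hw
    subst hw
    exact ⟨[], rfl, h⟩
  | succ m ih =>
    rintro X hX ⟨w, hw, h⟩
    cases w with
    | nil => simp at hw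
    | cons k w =>
      obtain ⟨i, hi⟩ := hinj (fun k => X (k :: w)) (fun k => hX _) ⟨k, h⟩
      obtain ⟨L, hL, hL'⟩ := ih (fun w => ∑ k, T k i (X (k :: w))) (fun w => by
        rw [Fin.sum_univ_two]
        exact (hperp _ _ _ (hX _)).add (hperp _ _ _ (hX _))) ⟨w, by simpa using hw, hi⟩
      refine ⟨i :: L, by simp [hL], ?_⟩
      have h1 : BB T (i :: L) X = BB T L (fun w => ∑ k, T k i (X (k :: w))) := by
        rw [BB, LinearMap.comp_apply]
        congr 1
      rw [h1]
      exact hL'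

/-! ### Entries of chain representations -/

/-- list of the letters with indices `p, …, p + m - 1` -/
def lst (ξ : ℕ → HK K g) : ℕ → ℕ → List (HK K g)
  | _, 0 => []
  | p, m + 1 => ξ p :: lst ξ (p + 1) m

omit [Algebra ℚ K] [Field K] in
theorem lst_length (ξ : ℕ → HK K g) : ∀ m p, (lst ξ p m).length = m := by
  intro m
  induction m with
  | zero => intro p; rfl
  | succ m ih => intro p; rw [lst, List.length_cons, ih]

omit [Algebra ℚ K] [Field K] in
theorem lst_getD (ζ : Fin 2 → HK K g) (us : List (Fin 2)) :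
    ∀ (m p : ℕ), p + m = us.length →
      lst (fun p => ζ (us.getD p 0)) p m = (us.drop p).map ζ := by
  intro m
  induction m with
  | zero =>
    intro p hp
    rw [List.drop_eq_nil_of_le (by omega)]
    rfl
  | succ m ih =>
    intro p hp
    rw [lst, ih (p + 1) (by omega), List.drop_eq_getElem_cons (by omega : p < us.length),
      List.map_cons]
    congr 2
    rw [List.getD_eq_getElem _ _ (by omega)]

/-- an entry of the linear extension, as a functional -/
noncomputable def ent (Ψ : Surf g →* Mt K n) (h : ∀ x, Deg 1 (Ψ x - 1)) (p q : Fin (n + 3)) :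
    RN K (Surf g) n →ₗ[K] K where
  toFun y := ext Ψ h y p q
  map_add' a b := by rw [map_add]; rfl
  map_smul' r a := by rw [map_smul]; rfl

omit [Algebra ℚ K] in
theorem ent_apply (Ψ : Surf g →* Mt K n) (h : ∀ x, Deg 1 (Ψ x - 1)) (p q : Fin (n + 3))
    (y : RN K (Surf g) n) : ent Ψ h p q y = ext Ψ h y p q := rfl

/-- linear extension of entries which are additive -/
theorem ext_nv {Ψ : Surf g →* Mt K n} (hd : ∀ x, Deg 1 (Ψ x - 1)) {p q : Fin (n + 3)}
    {W : HK K g} (hW : ∀ x, (Ψ x - 1) p q = om W (clk K x)) (h : HK K g) :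
    ext Ψ hd (nv h) p q = om W h := by
  have h1 : h = ∑ j, h j • e K j := by
    rw [Fintype.sum_sum_type]
    have h2 := hk_decomp h
    rw [Finset.sum_add_distrib] at h2
    exact h2
  rw [← ent_apply]
  conv_rhs => rw [h1]
  rw [nv_apply, map_sum, map_sum]
  refine Finset.sum_congr rfl fun j _ => ?_
  rw [map_smul, map_smul, ent_apply, ext_dl, hW]
  rcases j with i | i
  · rw [gn, Sum.elim_inl, clk_al]
  · rw [gn, Sum.elim_inr, clk_be]

theorem ent_symb_aux {ξ : ℕ → HK K g} {y ε : HK K g} {Ψ : Surf g →* Mt K n}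
    (h : ChainRep n ξ y ε Ψ) {q : Fin (n + 3)} (hq : dep q = n + 1)
    {W : HK K g} (hW : ∀ x, ext Ψ h.deg (nv x) ⟨n, by omega⟩ q = om W x) :
    ∀ (m p : ℕ) (hp : p + m = n) (f : RN K (Surf g) n →ₗ[K] K) (κ : K),
      (∀ z ∈ JJ K (Surf g) n ^ (m + 1), f z = κ * ext Ψ h.deg z ⟨p, by omega⟩ q) →
      ∀ hs : List (HK K g), hs.length = m + 1 →
        f ((hs.map nv).prod) = κ * zp (lst ξ p m ++ [W]) hs := by
  intro m
  induction m with
  | zero =>
    intro p hp f κ hf xs hxs
    obtain ⟨x, rfl⟩ : ∃ x, xs = [x] := List.length_eq_one_iff.1 (by simpa using hxs)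
    have hp' : p = n := by omega
    subst hp'
    simp only [List.map_cons, List.map_nil, List.prod_cons, List.prod_nil, mul_one, lst,
      List.nil_append, zp]
    rw [hf _ (by rw [zero_add]; exact nv_mem1 x), hW]
  | succ m ih =>
    intro p hp f κ hf xs hxs
    cases xs with
    | nil => simp at hxs
    | cons x xs =>
      rw [lst, List.cons_append, List.map_cons, List.prod_cons, zp]
      have h1 := ih (p + 1) (by omega) (f ∘ₗ LinearMap.mulLeft K (nv x)) (κ * om (ξ p) x)
        (fun z hz => ?_) xs (by simpa using hxs)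
      · rw [LinearMap.comp_apply, LinearMap.mulLeft_apply] at h1
        rw [h1, mul_assoc]
      · rw [LinearMap.comp_apply, LinearMap.mulLeft_apply]
        have h1 : nv x * z ∈ JJ K (Surf g) n ^ (m + 1 + 1) := by
          rw [add_comm (m + 1) 1]
          exact JJ_mul (nv_mem1 x) hz
        rw [hf _ h1, map_mul]
        have hdp : dep (⟨p, by omega⟩ : Fin (n + 3)) = p := dep_mk (by omega)
        have hd1 : Deg 1 (ext Ψ h.deg (nv x)) := ext_deg Ψ h.deg (nv_mem1 x)
        rw [hd1.mul_entry (ext_deg Ψ h.deg hz) (j0 := ⟨p + 1, by omega⟩)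
          (by rw [hq, hdp]; omega) (fun j hj => eq_of_dep (by omega) (by rw [hj, hdp]))]
        rw [ext_nv h.deg (fun z => h.chain z p (by omega))]
        ring

theorem ent_symb {ξ : ℕ → HK K g} {y ε : HK K g} {Ψ : Surf g →* Mt K n}
    (h : ChainRep n ξ y ε Ψ) {q : Fin (n + 3)} (hq : dep q = n + 1)
    {W : HK K g} (hW : ∀ x, ext Ψ h.deg (nv x) ⟨n, by omega⟩ q = om W x) :
    Sy (lst ξ 0 n ++ [W]) (ent Ψ h.deg ⟨0, by omega⟩ q) 1 := by
  constructor
  · intro z hz
    rw [List.length_append, lst_length, List.length_singleton] at hz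
    exact ext_deg Ψ h.deg hz _ _ (by rw [hq, dep_mk (by omega)]; omega)
  · intro hs hhs
    rw [List.length_append, lst_length, List.length_singleton] at hhs
    exact ent_symb_aux h hq hW n 0 (by omega) _ _ (fun z _ => by rw [one_mul]; rfl) hs hhs

/-! ### Words in the modified automorphisms -/

/-- algebra automorphisms as rational linear maps -/
noncomputable def toQ : (RN K (Surf g) n ≃ₐ[K] RN K (Surf g) n) →*
    Module.End ℚ (RN K (Surf g) n) where
  toFun E := (E : RN K (Surf g) n →ₐ[K] RN K (Surf g) n).toLinearMap.restrictScalars ℚ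
  map_one' := rfl
  map_mul' _ _ := rfl

theorem toQ_apply (E : RN K (Surf g) n ≃ₐ[K] RN K (Surf g) n) (y : RN K (Surf g) n) :
    toQ E y = E y := rfl

omit [Algebra ℚ K] in
/-- words in the modified automorphisms -/
theorem word_gauge {F : Fin 2 → MulAut (Surf g)}
    {E : Fin 2 → (RN K (Surf g) n ≃ₐ[K] RN K (Surf g) n)}
    (h : ∀ k, ∃ u : (RN K (Surf g) n)ˣ, (u : RN K (Surf g) n) - 1 ∈ JJ K (Surf g) n ∧
      E k = inn u * aut (F k)) (w : FreeGroup (Fin 2)) :
    ∃ u : (RN K (Surf g) n)ˣ, (u : RN K (Surf g) n) - 1 ∈ JJ K (Surf g) n ∧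
      FreeGroup.lift E w = inn u * aut (FreeGroup.lift F w) := by
  have key : ∀ (A : RN K (Surf g) n ≃ₐ[K] RN K (Surf g) n) (u : (RN K (Surf g) n)ˣ),
      A * inn u = inn (Units.map (A : RN K (Surf g) n →* RN K (Surf g) n) u) * A := by
    intro A u
    apply AlgEquiv.ext
    intro y
    change A ((u : RN K (Surf g) n) * y * ((u⁻¹ : (RN K (Surf g) n)ˣ) : RN K (Surf g) n)) =
      A (u : RN K (Surf g) n) * A y * A ((u⁻¹ : (RN K (Surf g) n)ˣ) : RN K (Surf g) n)
    rw [map_mul, map_mul]
  have key2 : ∀ (F : MulAut (Surf g)) (u : (RN K (Surf g) n)ˣ),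
      (u : RN K (Surf g) n) - 1 ∈ JJ K (Surf g) n →
      ((Units.map ((aut F : RN K (Surf g) n ≃ₐ[K] RN K (Surf g) n) :
        RN K (Surf g) n →* RN K (Surf g) n) u : (RN K (Surf g) n)ˣ) : RN K (Surf g) n) - 1 ∈
        JJ K (Surf g) n := by
    intro F u hu
    have h1 := aut_mem F (mem_pow_one.2 hu)
    rw [mem_pow_one, map_sub, map_one] at h1
    exact h1
  induction w using FreeGroup.induction_on with
  | C1 =>
    refine ⟨1, by rw [Units.val_one, sub_self]; exact Submodule.zero_mem _, ?_⟩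
    rw [map_one, map_one, map_one, map_one, mul_one]
  | of k =>
    rw [FreeGroup.lift_apply_of, FreeGroup.lift_apply_of]
    exact h k
  | inv_of k _ =>
    obtain ⟨u, hu, h1⟩ := h k
    rw [map_inv, map_inv, FreeGroup.lift_apply_of, FreeGroup.lift_apply_of, h1, mul_inv_rev,
      ← map_inv, ← map_inv, key]
    exact ⟨_, key2 _ _ (inv_sub_one_mem hu), rfl⟩
  | mul x y hx hy =>
    obtain ⟨u, hu, h1⟩ := hx
    obtain ⟨u', hu', h2⟩ := hy
    rw [map_mul, map_mul, h1, h2, map_mul]
    refine ⟨u * Units.map ((aut (FreeGroup.lift F x) : RN K (Surf g) n ≃ₐ[K] RN K (Surf g) n) :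
        RN K (Surf g) n →* RN K (Surf g) n) u', ?_, ?_⟩
    · rw [Units.val_mul]
      exact mul_sub_one_mem hu (key2 _ _ hu')
    · rw [map_mul, mul_assoc, ← mul_assoc (aut _) (inn u'), key, mul_assoc, mul_assoc]

/-- products of difference operators -/
theorem DQ_prod (E : Fin 2 → (RN K (Surf g) n ≃ₐ[K] RN K (Surf g) n)) (l : List (Fin 2))
    (y : RN K (Surf g) n) :
    (l.map (DQ E)).prod y = (l.map fun i => Df (E i)).prod y := by
  induction l with
  | nil => rfl
  | cons i l ih =>
    rw [List.map_cons, List.prod_cons, List.map_cons, List.prod_cons, Module.End.mul_apply,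
      Module.End.mul_apply, ih, DQ_apply]

end GZ
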