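import Pool.Agent.H40.TG.Defs

/-!
# The Johnson homomorphism of the closed surface

`A3 g` is the space of alternating 3-forms on the rational homology of the surface; by the
intersection form it is the third exterior power of the homology. `IsJohnson f x` says that the
outer automorphism `f` acts trivially on homology and that the form `x` represents its image under
the Johnson homomorphism.
-/

open scoped commutatorElement

namespace GZ

open TG

variable {g : ℕ}

/-- alternating 3-forms on the rational homology -/
abbrev A3 (g : ℕ) := Hq g [⋀^Fin 3]→ₗ[ℚ] ℚ

/-- The form `x` represents the Johnson homomorphism of the automorphism `F` of the surface group: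
for each `a`, the element `F(a) a⁻¹` is a product of commutators `[p, q]` modulo the third term of
the lower central series, and the element `∑ p ∧ q` of the exterior square of the homology, paired
with `u ∧ v` by the intersection form, is `x(u, v, a)`, up to a multiple `c` of the intersection
form (which is the relation `∏ [α_i, β_i] = 1` of the surface group). -/
def Johnson (F : MulAut (Surf g)) (x : A3 g) : Prop :=
  ∀ a : Surf g, ∃ (L : List (Surf g × Surf g)) (c : ℚ),
    F a * a⁻¹ * ((L.map fun p => ⁅p.1, p.2⁆).prod)⁻¹ ∈ gam3 g ∧
    ∀ u v : Hq g, (L.map fun p => inter u (cls p.1) * inter v (cls p.2) -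
      inter u (cls p.2) * inter v (cls p.1)).sum = x ![u, v, cls a] + c * inter u v

/-- `x` represents the Johnson homomorphism of the outer automorphism `f` -/
def IsJohnson (f : OutG (Surf g)) (x : A3 g) : Prop :=
  ∃ F : MulAut (Surf g), toOut F = f ∧ Johnson F x

end GZ
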