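import Mathlib

/-!
# Solutions of polynomial systems near a simple solution

A system of `n` equations in `n` unknowns with parameters, which has a simple solution for one
value of the parameters, has solutions (in some field) for all values of the parameters outside
the zeros of a nonzero polynomial. The proof: the solution space is smooth over the space of
parameters near the simple solution, and smooth morphisms are open.
-/

namespace GZ

open MvPolynomial

section Gen

variable {σ A : Type} [CommRing A]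

/-- the relations: the equations, and the invertibility of `D` -/
noncomputable def rel (E : σ → MvPolynomial σ A) (D : MvPolynomial σ A) (i : σ ⊕ Unit) :
    MvPolynomial (σ ⊕ Unit) A :=
  Sum.elim (fun i => rename Sum.inl (E i)) (fun _ => X (Sum.inr ()) * rename Sum.inl D - 1) i

/-- the Jacobian matrix -/
noncomputable def jac (E : σ → MvPolynomial σ A) : Matrix σ σ (MvPolynomial σ A) :=
  Matrix.of fun i j => pderiv i (E j)

theorem pderiv_inl (i : σ) (p : MvPolynomial σ A) :
    pderiv (Sum.inl i : σ ⊕ Unit) (rename Sum.inl p) = rename Sum.inl (pderiv i p) :=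
  pderiv_rename Sum.inl_injective i p

theorem pderiv_inr [DecidableEq σ] (p : MvPolynomial σ A) :
    pderiv (Sum.inr () : σ ⊕ Unit) (rename Sum.inl p) = 0 := by
  induction p using MvPolynomial.induction_on with
  | C a => simp
  | add p q hp hq => rw [map_add, map_add, hp, hq, add_zero]
  | mul_X p i hp => simp [hp, pderiv_X]

/-- the solution algebra -/
abbrev SolAlg (E : σ → MvPolynomial σ A) (D : MvPolynomial σ A) :=
  MvPolynomial (σ ⊕ Unit) A ⧸ (Ideal.span <| Set.range (rel E D))

theorem isUnit_D (E : σ → MvPolynomial σ A) (D : MvPolynomial σ A) :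
    IsUnit (Ideal.Quotient.mk (Ideal.span <| Set.range (rel E D)) (rename Sum.inl D)) := by
  have h1 : Ideal.Quotient.mk (Ideal.span <| Set.range (rel E D)) (rel E D (Sum.inr ())) = 0 :=
    Ideal.Quotient.eq_zero_iff_mem.2 (Ideal.subset_span ⟨_, rfl⟩)
  simp only [rel, Sum.elim_inr] at h1
  rw [map_sub, map_mul, map_one, sub_eq_zero, mul_comm] at h1
  exact IsUnit.of_mul_eq_one _ h1

variable [Fintype σ] [DecidableEq σ]

/-- the solution algebra is smooth over the parameters -/
theorem smooth_sol (E : σ → MvPolynomial σ A) (R : MvPolynomial σ A) :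
    Algebra.IsStandardSmooth A (SolAlg E ((jac E).det * R)) := by
  set D := (jac E).det * R with hD
  let P : Algebra.PreSubmersivePresentation A (SolAlg E D) (σ ⊕ Unit)
    (σ ⊕ Unit) := Algebra.PreSubmersivePresentation.naive (v := rel E D) (fun i => i)
      (fun _ _ h => h)
  have hmat : P.jacobiMatrix = Matrix.fromBlocks ((jac E).map (rename Sum.inl))
      (Matrix.of fun i _ => X (Sum.inr ()) * rename Sum.inl (pderiv i D)) 0
      (Matrix.of fun _ _ => rename Sum.inl D) := by
    apply Matrix.ext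
    intro i j
    have h1 : P.jacobiMatrix i j = pderiv i (rel E D j) :=
      Algebra.PreSubmersivePresentation.jacobiMatrix_naive _ _ _ _ i j
    rw [h1]
    rcases i with i | i <;> rcases j with j | j
    · simp only [rel, Sum.elim_inl, Matrix.fromBlocks_apply₁₁, Matrix.map_apply, jac,
        Matrix.of_apply]
      rw [pderiv_inl]
    · simp only [rel, Sum.elim_inr, Matrix.fromBlocks_apply₁₂, Matrix.of_apply]
      rw [map_sub, Derivation.leibniz, pderiv_inl, pderiv_X]
      simp
    · simp only [rel, Sum.elim_inl, Matrix.fromBlocks_apply₂₁, Matrix.zero_apply]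
      exact pderiv_inr (E j)
    · simp only [rel, Sum.elim_inr, Matrix.fromBlocks_apply₂₂, Matrix.of_apply]
      rw [map_sub, Derivation.leibniz, pderiv_inr, pderiv_X]
      simp
  have hdet : P.jacobiMatrix.det = rename Sum.inl (jac E).det * rename Sum.inl D := by
    rw [hmat, Matrix.det_fromBlocks_zero₂₁]
    congr 1
    · rw [AlgHom.map_det]; rfl
    · simp
  have hunit := isUnit_D E D
  have hjac : IsUnit P.jacobian := by
    rw [Algebra.PreSubmersivePresentation.jacobian_eq_jacobiMatrix_det, hdet]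
    change IsUnit (Ideal.Quotient.mk (Ideal.span <| Set.range (rel E D))
      (rename Sum.inl (jac E).det * rename Sum.inl D))
    rw [map_mul]
    refine IsUnit.mul ?_ hunit
    rw [hD, map_mul, map_mul] at hunit
    exact isUnit_of_mul_isUnit_left hunit
  exact (Algebra.SubmersivePresentation.mk P hjac).isStandardSmooth

theorem open_range (E : σ → MvPolynomial σ A) (R : MvPolynomial σ A) :
    IsOpen (Set.range (PrimeSpectrum.comap
      (algebraMap A (SolAlg E ((jac E).det * R))))) := by
  have hsm := smooth_sol E R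
  have : Algebra.Smooth A (SolAlg E ((jac E).det * R)) := inferInstance
  rw [← Set.image_univ]
  exact PrimeSpectrum.isOpenMap_comap_of_hasGoingDown_of_finitePresentation _ isOpen_univ

/-- evaluation of the Jacobian matrix at the simple solution -/
theorem jac_det_eval {E : σ → MvPolynomial σ A} {φ : A →+* ℚ} {M : Matrix σ σ ℚ}
    (hE : ∀ i, MvPolynomial.map φ (E i) = ∑ j, C (M i j) * X j) (hM : M.det ≠ 0) :
    eval 0 (MvPolynomial.map φ (jac E).det) ≠ 0 := by
  have h1 : eval 0 (MvPolynomial.map φ (jac E).det) = M.transpose.det := by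
    rw [RingHom.map_det, RingHom.map_det]
    congr 1
    ext i j
    simp only [RingHom.mapMatrix_apply, Matrix.map_apply, jac, Matrix.of_apply,
      Matrix.transpose_apply]
    have h2 : MvPolynomial.map φ (pderiv i (E j)) =
        pderiv i (MvPolynomial.map φ (E j)) := (pderiv_map (i := i)).symm
    rw [h2, hE, map_sum, map_sum, Finset.sum_eq_single i]
    · rw [Derivation.leibniz, pderiv_X_self, pderiv_C]
      simp
    · intro k _ hk
      rw [Derivation.leibniz, pderiv_X_of_ne hk, pderiv_C]
      simp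
    · intro h; exact absurd (Finset.mem_univ i) h
  rw [h1, Matrix.det_transpose]
  exact hM

omit [Fintype σ] [DecidableEq σ] in
/-- a point of the solution algebra -/
theorem range_mem {E : σ → MvPolynomial σ A} {D : MvPolynomial σ A} {φ : A →+* ℚ}
    (hE : ∀ i, eval 0 (MvPolynomial.map φ (E i)) = 0) (hD : eval 0 (MvPolynomial.map φ D) ≠ 0)
    (p : PrimeSpectrum A) (hp : p.asIdeal = RingHom.ker φ) :
    p ∈ Set.range (PrimeSpectrum.comap (algebraMap A (SolAlg E D))) := by
  set d := eval 0 (MvPolynomial.map φ D) with hd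
  let ψ : MvPolynomial (σ ⊕ Unit) A →+* ℚ := eval₂Hom φ (Sum.elim (fun _ => 0) fun _ => d⁻¹)
  have hψr : ∀ q : MvPolynomial σ A, ψ (rename Sum.inl q) = eval 0 (MvPolynomial.map φ q) := by
    intro q
    change eval₂ φ _ (rename Sum.inl q) = _
    rw [eval₂_rename, eval_map]
    rfl
  have hker : ∀ q ∈ Ideal.span (Set.range (rel E D)), ψ q = 0 := by
    intro q hq
    have h1 : Ideal.span (Set.range (rel E D)) ≤ RingHom.ker ψ := by
      rw [Ideal.span_le]
      rintro _ ⟨i | i, rfl⟩
      · change ψ (rename Sum.inl (E i)) = 0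
        rw [hψr, hE]
      · change ψ (X (Sum.inr ()) * rename Sum.inl D - 1) = 0
        rw [map_sub, map_mul, map_one, hψr, ← hd]
        have h2 : ψ (X (Sum.inr ())) = d⁻¹ := eval₂_X _ _ _
        rw [h2, inv_mul_cancel₀ hD, sub_self]
    exact h1 hq
  let χ : SolAlg E D →+* ℚ := Ideal.Quotient.lift _ ψ hker
  refine ⟨⟨RingHom.ker χ, RingHom.ker_isPrime χ⟩, ?_⟩
  apply PrimeSpectrum.ext
  rw [PrimeSpectrum.comap_asIdeal, hp]
  ext a
  rw [Ideal.mem_comap, RingHom.mem_ker, RingHom.mem_ker]
  have h3 : χ (algebraMap A (SolAlg E D) a) = φ a := by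
    change ψ (C a) = φ a
    exact eval₂_C _ _ _
  rw [h3]

omit [Fintype σ] [DecidableEq σ] in
/-- points with values in fields -/
theorem field_point {B : Type} [CommRing B] [Algebra A B] [Algebra ℚ A] (φ : A →ₐ[ℚ] ℚ)
    (q : PrimeSpectrum B) (h : q.asIdeal.comap (algebraMap A B) = RingHom.ker φ) :
    ∃ (L : Type) (_ : Field L) (_ : Algebra ℚ L) (π : B →+* L),
      π.comp (algebraMap A B) = (algebraMap ℚ L).comp (φ : A →+* ℚ) := by
  have hpr := q.isPrime
  let L := FractionRing (B ⧸ q.asIdeal)
  let π : B →+* L := (algebraMap (B ⧸ q.asIdeal) L).comp (Ideal.Quotient.mk q.asIdeal)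
  have hker : ∀ a, π (algebraMap A B a) = 0 ↔ φ a = 0 := by
    intro a
    have h1 : a ∈ q.asIdeal.comap (algebraMap A B) ↔ a ∈ RingHom.ker φ := by rw [h]
    rw [Ideal.mem_comap, RingHom.mem_ker] at h1
    rw [← h1]
    change algebraMap (B ⧸ q.asIdeal) L (Ideal.Quotient.mk q.asIdeal _) = 0 ↔ _
    rw [FaithfulSMul.algebraMap_eq_zero_iff, Ideal.Quotient.eq_zero_iff_mem]
  letI : Algebra ℚ L := ((π.comp (algebraMap A B)).comp (algebraMap ℚ A)).toAlgebra
  refine ⟨L, inferInstance, inferInstance, π, ?_⟩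
  ext a
  have h1 : π (algebraMap A B (a - algebraMap ℚ A (φ a))) = 0 := by
    rw [hker, map_sub, AlgHom.commutes]
    exact sub_self _
  rw [map_sub, map_sub, sub_eq_zero] at h1
  rw [RingHom.comp_apply, h1]
  rfl

/-- solutions in fields from points of the solution algebra -/
theorem solve_point {E : σ → MvPolynomial σ A} {R : MvPolynomial σ A} [Algebra ℚ A]
    (φ : A →ₐ[ℚ] ℚ) {p : PrimeSpectrum A} (hp : p.asIdeal = RingHom.ker φ)
    (h : p ∈ Set.range (PrimeSpectrum.comap (algebraMap A (SolAlg E ((jac E).det * R))))) :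
    ∃ (L : Type) (_ : Field L) (_ : Algebra ℚ L) (s : σ → L),
        (∀ i, eval₂ ((algebraMap ℚ L).comp (φ : A →+* ℚ)) s (E i) = 0) ∧
          eval₂ ((algebraMap ℚ L).comp (φ : A →+* ℚ)) s R ≠ 0 := by
  set D := (jac E).det * R with hD
  obtain ⟨q, hq⟩ := h
  obtain ⟨L, iL, iA, π, hfac⟩ := field_point φ q (by
    rw [← hp, ← hq, PrimeSpectrum.comap_asIdeal])
  have heval : ∀ r : MvPolynomial σ A, eval₂ ((algebraMap ℚ L).comp (φ : A →+* ℚ))
      (fun i => π (Ideal.Quotient.mk _ (X (Sum.inl i)))) r =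
      π (Ideal.Quotient.mk _ (rename Sum.inl r)) := by
    intro r
    rw [← hfac]
    induction r using MvPolynomial.induction_on with
    | C a => rw [eval₂_C, rename_C]; rfl
    | add p q hp hq => rw [eval₂_add, hp, hq, map_add, map_add, map_add]
    | mul_X p i hp => rw [eval₂_mul, hp, eval₂_X, map_mul, map_mul, map_mul, rename_X]
  refine ⟨L, iL, iA, fun i => π (Ideal.Quotient.mk _ (X (Sum.inl i))),
    fun i => ?_, ?_⟩
  · rw [heval]
    have h1 : Ideal.Quotient.mk (Ideal.span <| Set.range (rel E D)) (rel E D (Sum.inl i)) = 0 :=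
      Ideal.Quotient.eq_zero_iff_mem.2 (Ideal.subset_span ⟨_, rfl⟩)
    change π (Ideal.Quotient.mk _ (rel E D (Sum.inl i))) = 0
    rw [h1, map_zero]
  · rw [heval]
    have h1 := (isUnit_D E D).map π
    have h2 : (rename Sum.inl D : MvPolynomial (σ ⊕ Unit) A) =
        rename Sum.inl (jac E).det * rename Sum.inl R := by rw [hD, map_mul]
    rw [h2, map_mul, map_mul] at h1
    exact (isUnit_of_mul_isUnit_right h1).ne_zero

end Gen

section Fin

variable {σ τ : Type} [Fintype σ] [DecidableEq σ]

/-- **solutions for generic parameters** -/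
theorem exists_poly (E : σ → MvPolynomial σ (MvPolynomial τ ℚ))
    (R : MvPolynomial σ (MvPolynomial τ ℚ)) (r0 : τ → ℚ) (M : Matrix σ σ ℚ)
    (hE : ∀ i, MvPolynomial.map (eval r0) (E i) = ∑ j, C (M i j) * X j)
    (hM : M.det ≠ 0) (hR : eval 0 (MvPolynomial.map (eval r0) R) ≠ 0) :
    ∃ P : MvPolynomial τ ℚ, P ≠ 0 ∧ ∀ r : τ → ℚ, eval r P ≠ 0 →
      ∃ (L : Type) (_ : Field L) (_ : Algebra ℚ L) (s : σ → L),
        (∀ i, eval₂ ((algebraMap ℚ L).comp (eval r)) s (E i) = 0) ∧
          eval₂ ((algebraMap ℚ L).comp (eval r)) s R ≠ 0 := by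
  have hopen := open_range E R
  set D := (jac E).det * R with hD
  have hD0 : eval 0 (MvPolynomial.map (eval r0) D) ≠ 0 := by
    rw [hD, map_mul, map_mul]
    exact mul_ne_zero (jac_det_eval hE hM) hR
  let p0 : PrimeSpectrum (MvPolynomial τ ℚ) := ⟨RingHom.ker (eval r0), RingHom.ker_isPrime _⟩
  have hp0 : p0 ∈ Set.range (PrimeSpectrum.comap (algebraMap (MvPolynomial τ ℚ) (SolAlg E D))) :=
    range_mem (φ := eval r0) (fun i => by
      rw [hE, map_sum]
      exact Finset.sum_eq_zero fun j _ => by simp) hD0 p0 rfl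
  obtain ⟨_, ⟨_, ⟨P, rfl⟩, rfl⟩, hP0, hPU⟩ :=
    PrimeSpectrum.isBasis_basic_opens.exists_subset_of_mem_open hp0 hopen
  refine ⟨P, ?_, fun r hr => ?_⟩
  · rintro rfl
    exact hP0 (Submodule.zero_mem _)
  · let p1 : PrimeSpectrum (MvPolynomial τ ℚ) := ⟨RingHom.ker (eval r), RingHom.ker_isPrime _⟩
    have hp1 : p1 ∈ Set.range (PrimeSpectrum.comap
        (algebraMap (MvPolynomial τ ℚ) (SolAlg E D))) := hPU hr
    exact solve_point (aeval r) (p := p1) (by
      ext a
      rw [RingHom.mem_ker, ← coe_aeval_eq_eval]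
      rfl) hp1

end Fin

end GZ
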