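import Pool.Agent.H40.GZ.Spec
import Pool.Agent.H40.GZ.Gen
import Pool.Agent.H40.TG.Main

/-!
# Generic pairs of elements of the Torelli group generate free groups
-/

open scoped commutatorElement

namespace GZ

open MvPolynomial
open TG (Gen Surf Hq cls OutG toOut toOut_eq_one InTorelli FreelyGenerate)

instance finA3 (g : ℕ) : Module.Finite ℚ (A3 g) := by
  let f : A3 g →ₗ[ℚ] MultilinearMap ℚ (fun _ : Fin 3 => Hq g) ℚ :=
    { toFun := fun x => x.toMultilinearMap
      map_add' := fun _ _ => rfl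
      map_smul' := fun _ _ => rfl }
  exact Module.Finite.of_injective f AlternatingMap.coe_multilinearMap_injective

section Generic

variable {m n : ℕ} (b : Module.Basis (Fin n) ℚ (A3 (m + 2) × A3 (m + 2)))

/-- one of the two forms of a pair -/
def pr (p : A3 (m + 2) × A3 (m + 2)) (k : Fin 2) : A3 (m + 2) := if k = 0 then p.1 else p.2

theorem pr_sum (r : Fin n → ℚ) (k : Fin 2) (v : Fin 3 → Hq (m + 2)) :
    (pr (∑ t, r t • b t) k) v = ∑ t, r t * (pr (b t) k) v := by
  have h0 : ∀ (s : Finset (Fin n)), (pr (∑ t ∈ s, r t • b t) k) v =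
      ∑ t ∈ s, r t * (pr (b t) k) v := by
    intro s
    induction s using Finset.induction_on with
    | empty =>
      rw [Finset.sum_empty, Finset.sum_empty, pr]
      split_ifs <;> rfl
    | insert a s ha ih =>
      rw [Finset.sum_insert ha, Finset.sum_insert ha, ← ih]
      unfold pr
      split_ifs <;> rfl
  exact h0 _

/-- coefficients of the generic pair of forms -/
noncomputable def Xg (k : Fin 2) (i j l : Gen (m + 2)) : MvPolynomial (Fin n) ℚ :=
  ∑ t, X t * C ((pr (b t) k) ![bq i, bq j, bq l])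

theorem eval_Xg (p : A3 (m + 2) × A3 (m + 2)) (k : Fin 2) (i j l : Gen (m + 2)) :
    eval (b.repr p) (Xg b k i j l) = (pr p k) ![bq i, bq j, bq l] := by
  unfold Xg
  rw [map_sum]
  conv_rhs => rw [← b.sum_repr p]
  rw [pr_sum]
  refine Finset.sum_congr rfl fun t _ => ?_
  rw [map_mul, eval_X, eval_C]

/-- the generic equations -/
noncomputable def Eg (t : Fin 2 × Gen m) :
    MvPolynomial (Fin 2 × Gen m) (MvPolynomial (Fin n) ℚ) :=
  EE (fun t => X t) (fun k i j l => C (Xg b k i j l)) t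

/-- the generic determinant -/
noncomputable def Rg : MvPolynomial (Fin 2 × Gen m) (MvPolynomial (Fin n) ℚ) :=
  (MM (fun t => X t) (fun k i j l => C (Xg b k i j l))).det

theorem sp_pair (k : Fin 2) : pr (sp m 0, sp m 1) k = sp m k := by
  fin_cases k <;> rfl

theorem map_Eg (t : Fin 2 × Gen m) :
    MvPolynomial.map (eval (b.repr (sp m 0, sp m 1))) (Eg b t) =
      ∑ t', C (Mat0 m t t') * X t' := by
  unfold Eg
  rw [map_EE]
  have h1 : (fun t : Fin 2 × Gen m => MvPolynomial.map (eval (b.repr (sp m 0, sp m 1)))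
      (X t : MvPolynomial (Fin 2 × Gen m) (MvPolynomial (Fin n) ℚ))) = fun t => X t := by
    funext t; rw [map_X]
  have h2 : (fun (k : Fin 2) (i j l : Gen (m + 2)) =>
      MvPolynomial.map (eval (b.repr (sp m 0, sp m 1)))
        (C (Xg b k i j l) : MvPolynomial (Fin 2 × Gen m) (MvPolynomial (Fin n) ℚ))) =
      fun k => XR (MvPolynomial (Fin 2 × Gen m) ℚ) (sp m k) := by
    funext k i j l
    rw [map_C, eval_Xg, sp_pair]
    rfl
  rw [h1, h2]
  obtain ⟨k, j⟩ := t
  rw [Fintype.sum_prod_type, Fin.sum_univ_two]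
  have hom : ∀ i j : Gen m, om (e (MvPolynomial (Fin 2 × Gen m) ℚ) i) (e _ j) =
      C (om (e ℚ i) (e ℚ j)) := by
    intro i j
    rw [hm_om, hm_e, hm_e]
  fin_cases k
  · change EE _ _ (0, j) = _
    rw [EE_sp0, om_leftR]
    have h3 : ∀ x, Mat0 m (0, j) (0, x) = 0 := fun x => by simp [Mat0]
    have h4 : ∀ x, Mat0 m (0, j) (1, x) = om (e ℚ x) (e ℚ j) := fun x => by simp [Mat0]
    change _ = ∑ x, C (Mat0 m (0, j) (0, x)) * X (0, x) + ∑ x, C (Mat0 m (0, j) (1, x)) * X (1, x)
    simp only [h3, h4, map_zero, zero_mul, Finset.sum_const_zero, zero_add]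
    exact Finset.sum_congr rfl fun i _ => by rw [hom, sb]; ring
  · change EE _ _ (1, j) = _
    rw [EE_sp1, om_leftR]
    have h3 : ∀ x, Mat0 m (1, j) (1, x) = 0 := fun x => by simp [Mat0]
    have h4 : ∀ x, Mat0 m (1, j) (0, x) = -om (e ℚ x) (e ℚ j) := fun x => by simp [Mat0]
    change _ = ∑ x, C (Mat0 m (1, j) (0, x)) * X (0, x) + ∑ x, C (Mat0 m (1, j) (1, x)) * X (1, x)
    simp only [h3, h4, map_zero, zero_mul, Finset.sum_const_zero, add_zero, map_neg, neg_mul,
      Finset.sum_neg_distrib, neg_inj]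
    exact Finset.sum_congr rfl fun i _ => by rw [hom, sa]; ring

theorem eval_Rg : eval 0 (MvPolynomial.map (eval (b.repr (sp m 0, sp m 1))) (Rg b)) ≠ 0 := by
  unfold Rg
  rw [map_det, map_det]
  have h2 : (fun (k : Fin 2) (i j l : Gen (m + 2)) => eval (0 : Fin 2 × Gen m → ℚ)
      (MvPolynomial.map (eval (b.repr (sp m 0, sp m 1)))
        (C (Xg b k i j l) : MvPolynomial (Fin 2 × Gen m) (MvPolynomial (Fin n) ℚ)))) =
      fun k => XR ℚ (sp m k) := by
    funext k i j l
    rw [map_C, eval_C, eval_Xg, sp_pair]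
    rfl
  rw [h2]
  exact MM_sp_det _

/-- **generic pairs of forms have nondegenerate planes** -/
theorem exists_plane : ∃ P : MvPolynomial (Fin n) ℚ, P ≠ 0 ∧
    ∀ p : A3 (m + 2) × A3 (m + 2), eval (b.repr p) P ≠ 0 →
      ∃ (L : Type) (_ : Field L) (_ : Algebra ℚ L) (s : Fin 2 × Gen m → L),
        (∀ t, EE s (fun k => XX L (pr p k)) t = 0) ∧ (MM s fun k => XX L (pr p k)).det ≠ 0 := by
  obtain ⟨P, hP, h⟩ := exists_poly (Eg b) (Rg b) (b.repr (sp m 0, sp m 1)) (Mat0 m) (map_Eg b)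
    Mat0_det (eval_Rg b)
  refine ⟨P, hP, fun p hp => ?_⟩
  obtain ⟨L, iL, iA, s, h1, h2⟩ := h (b.repr p) hp
  refine ⟨L, iL, iA, s, ?_, ?_⟩
  · intro t
    have h3 := h1 t
    have h4 : eval₂ ((algebraMap ℚ L).comp (eval (b.repr p))) s (Eg b t) =
        eval₂Hom ((algebraMap ℚ L).comp (eval (b.repr p))) s (Eg b t) := rfl
    rw [h4, Eg, map_EE] at h3
    convert h3 using 2
    · funext t
      exact (eval₂_X _ _ _).symm
    · funext k i j l
      rw [coe_eval₂Hom, eval₂_C, RingHom.comp_apply, eval_Xg]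
      rfl
  · have h4 : eval₂ ((algebraMap ℚ L).comp (eval (b.repr p))) s (Rg b) =
        eval₂Hom ((algebraMap ℚ L).comp (eval (b.repr p))) s (Rg b) := rfl
    rw [h4, Rg, map_det] at h2
    convert h2 using 3
    · funext t
      exact (eval₂_X _ _ _).symm
    · funext k i j l
      rw [coe_eval₂Hom, eval₂_C, RingHom.comp_apply, eval_Xg]
      rfl

end Generic

/-- elements with a Johnson form act trivially on homology -/
theorem johnson_torelli {g : ℕ} {f : OutG (Surf g)} {x : A3 g} (h : IsJohnson f x) :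
    InTorelli f := by
  obtain ⟨F, hF, hJ⟩ := h
  have htriv : F ∈ TG.trivSub g := by
    intro a
    obtain ⟨L, c, h1, _⟩ := hJ a
    have h2 : TG.gam3 g ≤ commutator (Surf g) := by
      unfold TG.gam3
      rw [commutator_def]
      exact Subgroup.commutator_mono le_top le_top
    have h3 : (L.map fun p => ⁅p.1, p.2⁆).prod ∈ commutator (Surf g) := by
      refine list_prod_mem fun y hy => ?_
      rw [List.mem_map] at hy
      obtain ⟨p, _, rfl⟩ := hy
      rw [commutator_def]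
      exact Subgroup.commutator_mem_commutator (Subgroup.mem_top _) (Subgroup.mem_top _)
    have h4 := (commutator (Surf g)).mul_mem (h2 h1) h3
    rwa [inv_mul_cancel_right] at h4
  exact ⟨F, hF, TG.triv_le_torelli htriv⟩

/-- **generic pairs** -/
theorem main (g : ℕ) (hg : 3 ≤ g) :
    ∃ (n : ℕ) (b : Module.Basis (Fin n) ℚ (A3 g × A3 g)) (P : MvPolynomial (Fin n) ℚ), P ≠ 0 ∧
      ∀ (f h : OutG (Surf g)) (x y : A3 g), IsJohnson f x → IsJohnson h y →
        eval (b.repr (x, y)) P ≠ 0 → InTorelli f ∧ InTorelli h ∧ FreelyGenerate f h := by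
  obtain ⟨m, rfl⟩ : ∃ m, g = m + 2 := ⟨g - 2, by omega⟩
  have hm : 0 < m := by omega
  let b := Module.finBasis ℚ (A3 (m + 2) × A3 (m + 2))
  obtain ⟨P, hP, h1⟩ := exists_plane b
  refine ⟨_, b, P, hP, fun f h x y hx hy hxy => ⟨johnson_torelli hx, johnson_torelli hy, ?_⟩⟩
  obtain ⟨L, iL, iA, s, hE, hM⟩ := h1 (x, y) hxy
  obtain ⟨F₁, rfl, hJ₁⟩ := hx
  obtain ⟨F₂, rfl, hJ₂⟩ := hy
  have hS := gsys (K := L) (s := s) (X := fun k => XX L (pr (x, y) k)) (fun k => XX_alt _) hE hM hm
    (F := ![F₁, F₂]) (x := pr (x, y)) (fun _ => rfl) (by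
      rw [Fin.forall_fin_two]
      exact ⟨hJ₁, hJ₂⟩)
  have hlift : FreeGroup.lift ![toOut F₁, toOut F₂] =
      toOut.comp (FreeGroup.lift ![F₁, F₂]) := by
    apply FreeGroup.ext_hom
    rw [Fin.forall_fin_two]
    constructor
    · rw [FreeGroup.lift_apply_of, MonoidHom.comp_apply, FreeGroup.lift_apply_of]
      rfl
    · rw [FreeGroup.lift_apply_of, MonoidHom.comp_apply, FreeGroup.lift_apply_of]
      rfl
  unfold FreelyGenerate
  rw [injective_iff_map_eq_one]
  intro w hw
  by_contra hne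
  rw [hlift, MonoidHom.comp_apply, toOut_eq_one] at hw
  obtain ⟨ζ, hζ⟩ := hw
  exact hS.not_inner hne ζ hζ.symm

end GZ
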