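import Pool.Agent.H40.GZ.Ndp
import Pool.Agent.H40.GZ.Main

/-!
# Families of pairs of forms and good forms
-/

open scoped commutatorElement

namespace GZ

open MvPolynomial
open TG (Gen Surf Hq cls inter OutG toOut toOut_eq_one InTorelli FreelyGenerate)

/-! ### Families -/

section Family

variable {m : ℕ} {τ : Type} (Y : Fin 2 → Gen (m + 2) → Gen (m + 2) → Gen (m + 2) → MvPolynomial τ ℚ)
  (r0 : τ → ℚ)

/-- the equations of a family -/
noncomputable def Ef (t : Fin 2 × Gen m) : MvPolynomial (Fin 2 × Gen m) (MvPolynomial τ ℚ) :=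
  EE (fun t => X t) (fun k i j l => C (Y k i j l)) t

/-- the determinant of a family -/
noncomputable def Rf : MvPolynomial (Fin 2 × Gen m) (MvPolynomial τ ℚ) :=
  (MM (fun t => X t) (fun k i j l => C (Y k i j l))).det

variable {r0} (h0 : ∀ k i j l, eval r0 (Y k i j l) = (sp m k) ![bq i, bq j, bq l])

include h0

theorem map_Ef (t : Fin 2 × Gen m) :
    MvPolynomial.map (eval r0) (Ef Y t) = ∑ t', C (Mat0 m t t') * X t' := by
  unfold Ef
  rw [map_EE]
  have h1 : (fun t : Fin 2 × Gen m => MvPolynomial.map (eval r0)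
      (X t : MvPolynomial (Fin 2 × Gen m) (MvPolynomial τ ℚ))) = fun t => X t := by
    funext t; rw [map_X]
  have h2 : (fun (k : Fin 2) (i j l : Gen (m + 2)) => MvPolynomial.map (eval r0)
        (C (Y k i j l) : MvPolynomial (Fin 2 × Gen m) (MvPolynomial τ ℚ))) =
      fun k => XR (MvPolynomial (Fin 2 × Gen m) ℚ) (sp m k) := by
    funext k i j l
    rw [map_C, h0]
    rfl
  rw [h1, h2]
  obtain ⟨k, j⟩ := t
  rw [Fintype.sum_prod_type, Fin.sum_univ_two]
  have hom : ∀ i j : Gen m, om (e (MvPolynomial (Fin 2 × Gen m) ℚ) i) (e _ j) =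
      C (om (e ℚ i) (e ℚ j)) := by
    intro i j
    rw [hm_om, hm_e, hm_e]
  fin_cases k
  · change EE _ _ (0, j) = _
    rw [EE_sp0, om_leftR]
    have h3 : ∀ x, Mat0 m (0, j) (0, x) = 0 := fun x => by simp [Mat0]
    have h4 : ∀ x, Mat0 m (0, j) (1, x) = om (e ℚ x) (e ℚ j) := fun x => by simp [Mat0]
    change _ = ∑ x, C (Mat0 m (0, j) (0, x)) * X (0, x) + ∑ x, C (Mat0 m (0, j) (1, x)) * X (1, x)
    simp only [h3, h4, map_zero, zero_mul, Finset.sum_const_zero, zero_add]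
    exact Finset.sum_congr rfl fun i _ => by rw [hom, sb]; ring
  · change EE _ _ (1, j) = _
    rw [EE_sp1, om_leftR]
    have h3 : ∀ x, Mat0 m (1, j) (1, x) = 0 := fun x => by simp [Mat0]
    have h4 : ∀ x, Mat0 m (1, j) (0, x) = -om (e ℚ x) (e ℚ j) := fun x => by simp [Mat0]
    change _ = ∑ x, C (Mat0 m (1, j) (0, x)) * X (0, x) + ∑ x, C (Mat0 m (1, j) (1, x)) * X (1, x)
    simp only [h3, h4, map_zero, zero_mul, Finset.sum_const_zero, add_zero, map_neg, neg_mul,
      Finset.sum_neg_distrib, neg_inj]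
    exact Finset.sum_congr rfl fun i _ => by rw [hom, sa]; ring

theorem eval_Rf : eval 0 (MvPolynomial.map (eval r0) (Rf Y)) ≠ 0 := by
  unfold Rf
  rw [map_det, map_det]
  have h2 : (fun (k : Fin 2) (i j l : Gen (m + 2)) => eval (0 : Fin 2 × Gen m → ℚ)
      (MvPolynomial.map (eval r0)
        (C (Y k i j l) : MvPolynomial (Fin 2 × Gen m) (MvPolynomial τ ℚ)))) =
      fun k => XR ℚ (sp m k) := by
    funext k i j l
    rw [map_C, eval_C, h0]
    rfl
  rw [h2]
  exact MM_sp_det _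

/-- **generic members of a family have nondegenerate planes** -/
theorem exists_plane_fam : ∃ P : MvPolynomial τ ℚ, P ≠ 0 ∧ ∀ r : τ → ℚ, eval r P ≠ 0 →
    ∃ (L : Type) (_ : Field L) (_ : Algebra ℚ L) (s : Fin 2 × Gen m → L),
      (∀ t, EE s (fun k i j l => algebraMap ℚ L (eval r (Y k i j l))) t = 0) ∧
        (MM s fun k i j l => algebraMap ℚ L (eval r (Y k i j l))).det ≠ 0 := by
  obtain ⟨P, hP, h⟩ := exists_poly (Ef Y) (Rf Y) r0 (Mat0 m) (map_Ef Y h0) Mat0_det (eval_Rf Y h0)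
  refine ⟨P, hP, fun r hr => ?_⟩
  obtain ⟨L, iL, iA, s, h1, h2⟩ := h r hr
  refine ⟨L, iL, iA, s, ?_, ?_⟩
  · intro t
    have h3 := h1 t
    have h4 : eval₂ ((algebraMap ℚ L).comp (eval r)) s (Ef Y t) =
        eval₂Hom ((algebraMap ℚ L).comp (eval r)) s (Ef Y t) := rfl
    rw [h4, Ef, map_EE] at h3
    convert h3 using 2
    · funext t
      exact (eval₂_X _ _ _).symm
    · funext k i j l
      rw [coe_eval₂Hom, eval₂_C, RingHom.comp_apply]
  · have h4 : eval₂ ((algebraMap ℚ L).comp (eval r)) s (Rf Y) =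
        eval₂Hom ((algebraMap ℚ L).comp (eval r)) s (Rf Y) := rfl
    rw [h4, Rf, map_det] at h2
    convert h2 using 3
    · funext t
      exact (eval₂_X _ _ _).symm
    · funext k i j l
      rw [coe_eval₂Hom, eval₂_C, RingHom.comp_apply]

end Family

/-! ### Planes in coordinates -/

section Coo

variable {K : Type*} [Field K] [Algebra ℚ K] {m : ℕ} {s : Fin 2 × Gen m → K}

/-- planes in the affine chart are nondegenerate planes -/
theorem ndp_of (x : Fin 2 → A3 (m + 2)) (hE : ∀ t, EE s (fun k => XX K (x k)) t = 0)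
    (hM : (MM s fun k => XX K (x k)).det ≠ 0) (hm : 0 < m) :
    NDP x (zz s) (cc s fun k => XX K (x k)) (TT s fun k => XX K (x k)) where
  orth := om_zz s
  dual := by
    refine ⟨fun j => if j = 0 then f0 K m else f1 K m, ?_⟩
    intro i j
    fin_cases i <;> fin_cases j
    · change om (zz s 0) (f0 K m) = 1
      rw [zz_zero]; exact om_xi_f0 _
    · change om (zz s 0) (f1 K m) = 0
      rw [zz_zero]; exact om_xi_f1 _
    · change om (zz s 1) (f0 K m) = 0
      rw [zz_one]; exact om_eta_f0 _ _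
    · change om (zz s 1) (f1 K m) = 1
      rw [zz_one]; exact om_eta_f1 _ _
  form := om_TT s _
  Tζ := TT_zz (fun _ => XX_alt _) hE
  perp := fun k i _ hw => TT_perp (fun _ => XX_alt _) hE k i hw
  inj := TT_inj (fun _ => XX_alt _) hE hM
  start := start_plane hm

end Coo

/-! ### Good forms -/

/-- the pair of `x` and a generic form has a nondegenerate plane -/
def GoodF {g : ℕ} (x : A3 g) : Prop :=
  ∃ (n : ℕ) (b : Module.Basis (Fin n) ℚ (A3 g)) (P : MvPolynomial (Fin n) ℚ), P ≠ 0 ∧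
    ∀ y, eval (b.repr y) P ≠ 0 → ∃ (L : Type) (_ : Field L) (_ : Algebra ℚ L)
      (ζ c : Fin 2 → HK L g) (T : Fin 2 → Fin 2 → HK L g →ₗ[L] HK L g), NDP ![x, y] ζ c T

theorem sum_apply3 {g n : ℕ} (b : Fin n → A3 g) (r : Fin n → ℚ) (v : Fin 3 → Hq g) :
    (∑ t, r t • b t) v = ∑ t, r t * b t v := by
  have h0 : ∀ (s : Finset (Fin n)), (∑ t ∈ s, r t • b t) v = ∑ t ∈ s, r t * b t v := by
    intro s
    induction s using Finset.induction_on with
    | empty => rfl
    | insert a s ha ih =>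
      rw [Finset.sum_insert ha, Finset.sum_insert ha, ← ih]
      rfl
  exact h0 _

/-- **the special form is good** -/
theorem good_sp {m : ℕ} (hm : 0 < m) : GoodF (sp m 0) := by
  let b := Module.finBasis ℚ (A3 (m + 2))
  let Y : Fin 2 → Gen (m + 2) → Gen (m + 2) → Gen (m + 2) → MvPolynomial (Fin _) ℚ :=
    fun k i j l => if k = 0 then C ((sp m 0) ![bq i, bq j, bq l])
      else ∑ t, X t * C (b t ![bq i, bq j, bq l])
  have hY : ∀ (y : A3 (m + 2)) k i j l, eval (b.repr y) (Y k i j l) =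
      (![sp m 0, y] k) ![bq i, bq j, bq l] := by
    intro y k i j l
    fin_cases k
    · change eval (b.repr y) (C ((sp m 0) ![bq i, bq j, bq l])) = _
      rw [eval_C]; rfl
    · change eval (b.repr y) (∑ t, X t * C (b t ![bq i, bq j, bq l])) = y ![bq i, bq j, bq l]
      rw [map_sum]
      conv_rhs => rw [← b.sum_repr y]
      rw [sum_apply3]
      refine Finset.sum_congr rfl fun t _ => ?_
      rw [map_mul, eval_X, eval_C]
  obtain ⟨P, hP, h⟩ := exists_plane_fam Y (r0 := b.repr (sp m 1)) (by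
    intro k i j l
    rw [hY]
    fin_cases k <;> rfl)
  refine ⟨_, b, P, hP, fun y hy => ?_⟩
  obtain ⟨L, iL, iA, s, h1, h2⟩ := h (b.repr y) hy
  have h3 : (fun k i j l => algebraMap ℚ L (eval (b.repr y) (Y k i j l))) =
      fun k => XX L (![sp m 0, y] k) := by
    funext k i j l
    rw [hY]
    rfl
  simp only [h3] at h1 h2
  exact ⟨L, iL, iA, _, _, _, ndp_of ![sp m 0, y] h1 h2 hm⟩

/-- good forms are transported by symplectic maps -/
theorem GoodF.comp {g : ℕ} {x : A3 g} (h : GoodF x) {S S' : Hq g →ₗ[ℚ] Hq g}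
    (hS : ∀ u v, inter (S u) (S v) = inter u v) (h1 : ∀ u, S (S' u) = u)
    (h2 : ∀ u, S' (S u) = u) : GoodF (x.compLinearMap S) := by
  obtain ⟨n, b, P, hP, h⟩ := h
  let E : Hq g ≃ₗ[ℚ] Hq g := LinearEquiv.ofLinearMap S' S (LinearMap.ext h2) (LinearMap.ext h1)
  let Φ : A3 g ≃ₗ[ℚ] A3 g := AlternatingMap.domLCongr ℚ ℚ (Fin 3) ℚ E
  have hΦ : ∀ y : A3 g, Φ y = y.compLinearMap S := fun y => rfl
  have hΦ' : ∀ y : A3 g, Φ.symm y = y.compLinearMap S' := fun y => rfl
  refine ⟨n, b.map Φ, P, hP, fun y hy => ?_⟩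
  have h3 : (b.map Φ).repr y = b.repr (Φ.symm y) := rfl
  rw [h3] at hy
  obtain ⟨L, iL, iA, ζ, c, T, hN⟩ := h (Φ.symm y) hy
  have h4 := hN.transport hS h1 h2
  have h5 : (fun k => (![x, Φ.symm y] k).compLinearMap S) = ![x.compLinearMap S, y] := by
    funext k
    fin_cases k
    · rfl
    · change (Φ.symm y).compLinearMap S = y
      rw [← hΦ, LinearEquiv.apply_symm_apply]
  rw [h5] at h4
  exact ⟨L, iL, iA, _, _, _, h4⟩

/-- **pairs with a good form** -/
theorem GoodF.free {g : ℕ} {x : A3 g} (h : GoodF x) {f : OutG (Surf g)} (hf : IsJohnson f x) :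
    ∃ (n : ℕ) (b : Module.Basis (Fin n) ℚ (A3 g)) (P : MvPolynomial (Fin n) ℚ), P ≠ 0 ∧
      ∀ (h : OutG (Surf g)) (y : A3 g), IsJohnson h y → eval (b.repr y) P ≠ 0 →
        InTorelli h ∧ FreelyGenerate f h := by
  obtain ⟨n, b, P, hP, h1⟩ := h
  refine ⟨n, b, P, hP, fun h y hy hxy => ⟨johnson_torelli hy, ?_⟩⟩
  obtain ⟨L, iL, iA, ζ, c, T, hN⟩ := h1 y hxy
  obtain ⟨F₁, rfl, hJ₁⟩ := hf
  obtain ⟨F₂, rfl, hJ₂⟩ := hy
  have hS := hN.gsys (F := ![F₁, F₂]) (by
      rw [Fin.forall_fin_two]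
      exact ⟨hJ₁, hJ₂⟩)
  have hlift : FreeGroup.lift ![toOut F₁, toOut F₂] =
      toOut.comp (FreeGroup.lift ![F₁, F₂]) := by
    apply FreeGroup.ext_hom
    rw [Fin.forall_fin_two]
    constructor
    · rw [FreeGroup.lift_apply_of, MonoidHom.comp_apply, FreeGroup.lift_apply_of]
      rfl
    · rw [FreeGroup.lift_apply_of, MonoidHom.comp_apply, FreeGroup.lift_apply_of]
      rfl
  unfold FreelyGenerate
  rw [injective_iff_map_eq_one]
  intro w hw
  by_contra hne
  rw [hlift, MonoidHom.comp_apply, toOut_eq_one] at hw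
  obtain ⟨ζ, hζ⟩ := hw
  exact hS.not_inner hne ζ hζ.symm

end GZ
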