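import Pool.Agent.H40.GZ.Spec
import Pool.Agent.H40.GZ.Fam
import Pool.Agent.H40.TG.BPsym

/-!
# Johnson forms of bounding pair maps
-/

open scoped commutatorElement

namespace GZ

open TG (Gen Surf Hq cls inter OutG toOut gam3 al be pp bb stdBP bpAl bpBe cls_mul cls_inv BP)

variable {g : ℕ}

/-! ### Products of commutators -/

/-- pairing of a list of commutators -/
def lp (L : List (Surf g × Surf g)) (u v : Hq g) : ℚ :=
  (L.map fun p => inter u (cls p.1) * inter v (cls p.2) -
    inter u (cls p.2) * inter v (cls p.1)).sum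

/-- product of a list of commutators -/
def lprod (L : List (Surf g × Surf g)) : Surf g := (L.map fun p => ⁅p.1, p.2⁆).prod

/-- `c` is a product of commutators with pairing `B` modulo the third term -/
def JP (c : Surf g) (B : Hq g → Hq g → ℚ) : Prop :=
  ∃ L : List (Surf g × Surf g), c * (lprod L)⁻¹ ∈ gam3 g ∧ ∀ u v, lp L u v = B u v

instance gam3_normal : (gam3 g).Normal := by
  unfold gam3
  infer_instance

theorem JP.congr {c : Surf g} {B B' : Hq g → Hq g → ℚ} (h : JP c B) (hB : ∀ u v, B u v = B' u v) :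
    JP c B' := by
  obtain ⟨L, h1, h2⟩ := h
  exact ⟨L, h1, fun u v => (h2 u v).trans (hB u v)⟩

theorem JP.gam {c : Surf g} (h : c ∈ gam3 g) : JP c fun _ _ => 0 :=
  ⟨[], by simpa [lprod] using h, fun u v => by simp [lp]⟩

theorem JP.one : JP (1 : Surf g) fun _ _ => 0 := JP.gam (one_mem _)

theorem JP.mul {c c' : Surf g} {B B' : Hq g → Hq g → ℚ} (h : JP c B) (h' : JP c' B') :
    JP (c * c') fun u v => B u v + B' u v := by
  obtain ⟨L, h1, h2⟩ := h
  obtain ⟨L', h1', h2'⟩ := h'
  refine ⟨L ++ L', ?_, fun u v => ?_⟩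
  · have e1 : lprod (L ++ L') = lprod L * lprod L' := by
      unfold lprod
      rw [List.map_append, List.prod_append]
    have e2 : c * c' * (lprod (L ++ L'))⁻¹ =
        (c * (c' * (lprod L')⁻¹) * c⁻¹) * (c * (lprod L)⁻¹) := by
      rw [e1]; group
    rw [e2]
    exact mul_mem (gam3_normal.conj_mem _ h1' c) h1
  · change _ = B u v + B' u v
    rw [← h2, ← h2']
    unfold lp
    rw [List.map_append, List.sum_append]

theorem lprod_inv (L : List (Surf g × Surf g)) : ∃ L' : List (Surf g × Surf g),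
    lprod L' = (lprod L)⁻¹ ∧ ∀ u v, lp L' u v = -lp L u v := by
  induction L with
  | nil => exact ⟨[], by simp [lprod], fun u v => by simp [lp]⟩
  | cons p L ih =>
    obtain ⟨L', h1, h2⟩ := ih
    refine ⟨L' ++ [(p.2, p.1)], ?_, fun u v => ?_⟩
    · have e1 : lprod (L' ++ [(p.2, p.1)]) = lprod L' * ⁅p.2, p.1⁆ := by
        unfold lprod
        rw [List.map_append, List.prod_append]
        simp
      have e2 : lprod (p :: L) = ⁅p.1, p.2⁆ * lprod L := rfl
      rw [e1, e2, h1, mul_inv_rev, commutatorElement_inv]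
    · have e1 : lp (L' ++ [(p.2, p.1)]) u v = lp L' u v +
          (inter u (cls p.2) * inter v (cls p.1) - inter u (cls p.1) * inter v (cls p.2)) := by
        unfold lp
        rw [List.map_append, List.sum_append]
        simp
      have e2 : lp (p :: L) u v = (inter u (cls p.1) * inter v (cls p.2) -
          inter u (cls p.2) * inter v (cls p.1)) + lp L u v := rfl
      rw [e1, e2, h2]
      ring

theorem JP.inv {c : Surf g} {B : Hq g → Hq g → ℚ} (h : JP c B) :
    JP c⁻¹ fun u v => -B u v := by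
  obtain ⟨L, h1, h2⟩ := h
  obtain ⟨L', h3, h4⟩ := lprod_inv L
  refine ⟨L', ?_, fun u v => by rw [h4, h2]⟩
  have e1 : c⁻¹ * (lprod L')⁻¹ = c⁻¹ * (c * (lprod L)⁻¹)⁻¹ * c⁻¹⁻¹ := by
    rw [h3]; group
  rw [e1]
  exact gam3_normal.conj_mem _ (inv_mem h1) _

theorem gam3_le_comm : gam3 g ≤ ⁅(⊤ : Subgroup (Surf g)), (⊤ : Subgroup (Surf g))⁆ := by
  unfold gam3
  exact Subgroup.commutator_mono le_top le_top

theorem JP.mem {c : Surf g} {B : Hq g → Hq g → ℚ} (h : JP c B) :
    c ∈ ⁅(⊤ : Subgroup (Surf g)), (⊤ : Subgroup (Surf g))⁆ := by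
  obtain ⟨L, h1, _⟩ := h
  have h3 : lprod L ∈ ⁅(⊤ : Subgroup (Surf g)), (⊤ : Subgroup (Surf g))⁆ := by
    refine list_prod_mem fun y hy => ?_
    rw [List.mem_map] at hy
    obtain ⟨p, _, rfl⟩ := hy
    exact Subgroup.commutator_mem_commutator (Subgroup.mem_top _) (Subgroup.mem_top _)
  have h4 := mul_mem (gam3_le_comm h1) h3
  rwa [inv_mul_cancel_right] at h4

theorem JP.cls_zero {c : Surf g} {B : Hq g → Hq g → ℚ} (h : JP c B) : cls c = 0 :=
  TG.cls_of_comm (by rw [commutator_def]; exact h.mem)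

theorem JP.conj {c : Surf g} {B : Hq g → Hq g → ℚ} (h : JP c B) (d : Surf g) :
    JP (d * c * d⁻¹) B := by
  have h1 : ⁅d, c⁆ ∈ gam3 g := by
    have h2 : ⁅c, d⁆ ∈ gam3 g := Subgroup.commutator_mem_commutator h.mem (Subgroup.mem_top _)
    rw [← commutatorElement_inv]
    exact inv_mem h2
  have h2 := (JP.gam h1).mul h
  have h3 : ⁅d, c⁆ * c = d * c * d⁻¹ := by rw [commutatorElement_def]; group
  rw [h3] at h2
  exact h2.congr fun u v => zero_add _

theorem JP.comm (p q : Surf g) : JP ⁅p, q⁆ fun u v =>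
    inter u (cls p) * inter v (cls q) - inter u (cls q) * inter v (cls p) :=
  ⟨[(p, q)], by
    rw [show lprod [(p, q)] = ⁅p, q⁆ by simp [lprod], mul_inv_cancel]
    exact one_mem _, fun u v => by simp [lp]⟩

/-! ### The Johnson condition -/

theorem johnson_iff {F : MulAut (Surf g)} {x : A3 g} : Johnson F x ↔
    ∀ a : Surf g, ∃ c : ℚ, JP (F a * a⁻¹) fun u v => x ![u, v, cls a] + c * inter u v := by
  constructor
  · intro h a
    obtain ⟨L, c, h1, h2⟩ := h a
    exact ⟨c, L, h1, h2⟩
  · intro h a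
    obtain ⟨c, L, h1, h2⟩ := h a
    exact ⟨L, c, h1, h2⟩

theorem gen_induction {P : Surf g → Prop} (h1 : P 1) (hm : ∀ a b, P a → P b → P (a * b))
    (hi : ∀ a, P a → P a⁻¹) (hg : ∀ j, P (gn j)) (a : Surf g) : P a := by
  let S : Subgroup (PresentedGroup ({TG.relator g} : Set (FreeGroup (Gen g)))) :=
    { carrier := {a | P a}
      mul_mem' := fun {a b} ha hb => hm a b ha hb
      one_mem' := h1
      inv_mem' := fun {a} ha => hi a ha }
  have hS : ⊤ ≤ S := by
    have h2 := PresentedGroup.closure_range_of ({TG.relator g} : Set (FreeGroup (Gen g)))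
    have h3 : Subgroup.closure (Set.range (PresentedGroup.of
        (rels := ({TG.relator g} : Set (FreeGroup (Gen g)))))) ≤ S := by
      rw [Subgroup.closure_le]
      rintro _ ⟨j, rfl⟩
      rcases j with j | j
      · exact hg (Sum.inl j)
      · exact hg (Sum.inr j)
    rw [h2] at h3
    exact h3
  exact hS (Subgroup.mem_top a)

theorem johnson_of_gen {F : MulAut (Surf g)} {x : A3 g}
    (h : ∀ j : Gen g, ∃ c : ℚ, JP (F (gn j) * (gn j)⁻¹) fun u v =>
      x ![u, v, bq j] + c * inter u v) : Johnson F x := by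
  rw [johnson_iff]
  intro a
  induction a using gen_induction with
  | h1 =>
    refine ⟨0, ?_⟩
    rw [map_one, inv_one, mul_one]
    refine JP.one.congr fun u v => ?_
    rw [TG.cls_one, zero_mul, add_zero]
    exact (x.map_coord_zero (m := ![u, v, 0]) 2 rfl).symm
  | hm a b ha hb =>
    obtain ⟨c, hc⟩ := ha
    obtain ⟨c', hc'⟩ := hb
    refine ⟨c' + c, ?_⟩
    have e1 : F (a * b) * (a * b)⁻¹ = (F a * (F b * b⁻¹) * (F a)⁻¹) * (F a * a⁻¹) := by
      rw [map_mul]; group
    rw [e1]
    refine ((hc'.conj (F a)).mul hc).congr fun u v => ?_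
    rw [cls_mul, x_add2]
    ring
  | hi a ha =>
    obtain ⟨c, hc⟩ := ha
    refine ⟨-c, ?_⟩
    have e1 : F a⁻¹ * a⁻¹⁻¹ = (F a)⁻¹ * (F a * a⁻¹)⁻¹ * (F a)⁻¹⁻¹ := by
      rw [map_inv]; group
    rw [e1]
    refine (hc.inv.conj (F a)⁻¹).congr fun u v => ?_
    have e2 : cls a⁻¹ = (-1 : ℚ) • cls a := by rw [cls_inv, neg_one_smul]
    rw [e2, x_smul2]
    ring
  | hg j =>
    rw [cls_gn]
    exact h j

theorem johnson_cls {F : MulAut (Surf g)} {x : A3 g} (h : Johnson F x) (a : Surf g) :
    cls (F a) = cls a := by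
  obtain ⟨c, hc⟩ := johnson_iff.1 h a
  have h1 := hc.cls_zero
  rw [cls_mul, cls_inv] at h1
  exact eq_of_sub_eq_zero (by rw [sub_eq_add_neg]; exact h1)

theorem johnson_mul {F F' : MulAut (Surf g)} {x x' : A3 g} (h : Johnson F x)
    (h' : Johnson F' x') : Johnson (F * F') (x + x') := by
  rw [johnson_iff]
  intro a
  obtain ⟨c, hc⟩ := johnson_iff.1 h (F' a)
  obtain ⟨c', hc'⟩ := johnson_iff.1 h' a
  rw [johnson_cls h'] at hc
  refine ⟨c + c', ?_⟩
  have e1 : (F * F') a * a⁻¹ = (F (F' a) * (F' a)⁻¹) * (F' a * a⁻¹) := by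
    rw [MulAut.mul_apply]; group
  rw [e1]
  refine (hc.mul hc').congr fun u v => ?_
  rw [AlternatingMap.add_apply]
  ring

theorem johnson_inv {F : MulAut (Surf g)} {x : A3 g} (h : Johnson F x) : Johnson F⁻¹ (-x) := by
  rw [johnson_iff]
  intro a
  obtain ⟨c, hc⟩ := johnson_iff.1 h (F⁻¹ a)
  have h1 := johnson_cls h (F⁻¹ a)
  rw [MulAut.apply_inv_self] at h1 hc
  rw [← h1] at hc
  refine ⟨-c, ?_⟩
  have e1 : F⁻¹ a * a⁻¹ = (a * (F⁻¹ a)⁻¹)⁻¹ := by group
  rw [e1]
  refine hc.inv.congr fun u v => ?_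
  rw [AlternatingMap.neg_apply]
  ring

theorem johnson_one : Johnson (1 : MulAut (Surf g)) 0 := by
  rw [johnson_iff]
  intro a
  refine ⟨0, ?_⟩
  rw [MulAut.one_apply, mul_inv_cancel]
  exact JP.one.congr fun u v => by simp

theorem johnson_pow {F : MulAut (Surf g)} {x : A3 g} (h : Johnson F x) (n : ℕ) :
    Johnson (F ^ n) ((n : ℚ) • x) := by
  induction n with
  | zero =>
    rw [pow_zero, Nat.cast_zero, zero_smul]
    exact johnson_one
  | succ n ih =>
    rw [pow_succ, Nat.cast_succ, add_smul, one_smul]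
    exact johnson_mul ih h

theorem johnson_zpow {F : MulAut (Surf g)} {x : A3 g} (h : Johnson F x) (n : ℤ) :
    Johnson (F ^ n) ((n : ℚ) • x) := by
  obtain ⟨n, rfl | rfl⟩ := n.eq_nat_or_neg
  · rw [zpow_natCast]
    exact_mod_cast johnson_pow h n
  · rw [zpow_neg, zpow_natCast]
    have := johnson_inv (johnson_pow h n)
    rw [Int.cast_neg, Int.cast_natCast, neg_smul]
    exact this

theorem johnson_ker {F : MulAut (Surf g)} (h : ∀ a, F a * a⁻¹ ∈ gam3 g) : Johnson F 0 := by
  rw [johnson_iff]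
  intro a
  exact ⟨0, (JP.gam (h a)).congr fun u v => by simp⟩

theorem johnson_congr {F : MulAut (Surf g)} {x x' : A3 g} (h : Johnson F x)
    (hx : ∀ u v w, x ![u, v, w] = x' ![u, v, w]) : Johnson F x' := by
  rw [johnson_iff] at h ⊢
  intro a
  obtain ⟨c, hc⟩ := h a
  exact ⟨c, hc.congr fun u v => by rw [hx]⟩

/-! ### Inner automorphisms -/

theorem tom_alt (u : Hq g) : TG.om u u = 0 := TG.om_symp.alt u

theorem johnson_inner (γ : Surf g) :
    Johnson (MulAut.conj γ) (wedge (TG.om.flip (cls γ)) TG.om tom_alt) := by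
  rw [johnson_iff]
  intro a
  refine ⟨-inter (cls a) (cls γ), ?_⟩
  have e1 : MulAut.conj γ a * a⁻¹ = ⁅γ, a⁆ := by
    rw [MulAut.conj_apply, commutatorElement_def]
  rw [e1]
  refine (JP.comm γ a).congr fun u v => ?_
  rw [wedge_apply]
  change _ = inter u (cls γ) * inter v (cls a) - inter v (cls γ) * inter u (cls a) +
    inter (cls a) (cls γ) * inter u v + _
  ring

/-! ### Conjugation -/

theorem johnson_conjAut {F φ : MulAut (Surf g)} {x : A3 g} (h : Johnson F x)
    {S : Hq g →ₗ[ℚ] Hq g} (hS : ∀ a u, inter (S u) (cls a) = inter u (cls (φ a)))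
    (hS2 : ∀ a, S (cls (φ a)) = cls a) (hS3 : ∀ u v, inter (S u) (S v) = inter u v) :
    Johnson (φ * F * φ⁻¹) (x.compLinearMap S) := by
  rw [johnson_iff]
  intro a
  obtain ⟨c, L, h1, h2⟩ := johnson_iff.1 h (φ⁻¹ a)
  refine ⟨c, L.map fun p => (φ p.1, φ p.2), ?_, fun u v => ?_⟩
  · have e1 : lprod (L.map fun p => (φ p.1, φ p.2)) = φ (lprod L) := by
      unfold lprod
      rw [map_list_prod, List.map_map, List.map_map]
      congr 1
      refine List.map_congr_left fun p _ => ?_
      simp only [Function.comp_apply, map_commutatorElement]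
    have e2 : (φ * F * φ⁻¹) a * a⁻¹ * (lprod (L.map fun p => (φ p.1, φ p.2)))⁻¹ =
        φ (F (φ⁻¹ a) * (φ⁻¹ a)⁻¹ * (lprod L)⁻¹) := by
      rw [e1, map_mul, map_mul, map_inv, map_inv, MulAut.apply_inv_self]
      rfl
    rw [e2]
    have h3 : (gam3 g).map φ.toMonoidHom ≤ gam3 g := by
      unfold gam3
      rw [Subgroup.map_commutator, Subgroup.map_commutator]
      exact Subgroup.commutator_mono (Subgroup.commutator_mono le_top le_top) le_top
    exact h3 ⟨_, h1, rfl⟩
  · have e1 : lp (L.map fun p => (φ p.1, φ p.2)) u v = lp L (S u) (S v) := by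
      unfold lp
      rw [List.map_map]
      congr 1
      refine List.map_congr_left fun p _ => ?_
      simp only [Function.comp_apply, hS]
    rw [e1, h2]
    change x ![S u, S v, cls (φ⁻¹ a)] + c * inter (S u) (S v) =
      x (S ∘ ![u, v, cls a]) + c * inter u v
    have e2 : cls (φ⁻¹ a) = S (cls a) := by
      rw [← hS2 (φ⁻¹ a), MulAut.apply_inv_self]
    rw [e2, hS3]
    congr 1
    congr 1
    funext t
    fin_cases t <;> rfl

/-! ### The standard bounding pair maps -/

/-- the intersection form of the first handles -/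
def Blt (k : Fin g) : Hq g →ₗ[ℚ] Hq g →ₗ[ℚ] ℚ :=
  LinearMap.mk₂ ℚ (fun u v => ∑ i : Fin g with i.val < (k : ℕ), (u.1 i * v.2 i - u.2 i * v.1 i))
    (fun u u' v => by
      rw [← Finset.sum_add_distrib]
      exact Finset.sum_congr rfl fun i _ => by simp; ring)
    (fun c u v => by
      rw [smul_eq_mul, Finset.mul_sum]
      exact Finset.sum_congr rfl fun i _ => by simp; ring)
    (fun u v v' => by
      rw [← Finset.sum_add_distrib]
      exact Finset.sum_congr rfl fun i _ => by simp; ring)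
    (fun c u v => by
      rw [smul_eq_mul, Finset.mul_sum]
      exact Finset.sum_congr rfl fun i _ => by simp; ring)

theorem Blt_apply (k : Fin g) (u v : Hq g) :
    Blt k u v = ∑ i : Fin g with i.val < (k : ℕ), (u.1 i * v.2 i - u.2 i * v.1 i) := rfl

theorem Blt_alt (k : Fin g) (u : Hq g) : Blt k u u = 0 := by
  rw [Blt_apply]
  exact Finset.sum_eq_zero fun i _ => by ring

theorem Blt_ea (k i : Fin g) (u : Hq g) : Blt k u (TG.ea i) = if i < k then -u.2 i else 0 := by
  rw [Blt_apply]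
  split_ifs with h
  · rw [Finset.sum_eq_single i]
    · simp [TG.ea]
    · intro j _ hj
      simp [TG.ea, hj]
    · intro h1
      exact (h1 (Finset.mem_filter.2 ⟨Finset.mem_univ i, h⟩)).elim
  · refine Finset.sum_eq_zero fun j hj => ?_
    have hne : j ≠ i := by
      rintro rfl
      exact h (Finset.mem_filter.1 hj).2
    simp [TG.ea, hne]

theorem Blt_eb (k i : Fin g) (u : Hq g) : Blt k u (TG.eb i) = if i < k then u.1 i else 0 := by
  rw [Blt_apply]
  split_ifs with h
  · rw [Finset.sum_eq_single i]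
    · simp [TG.eb]
    · intro j _ hj
      simp [TG.eb, hj]
    · intro h1
      exact (h1 (Finset.mem_filter.2 ⟨Finset.mem_univ i, h⟩)).elim
  · refine Finset.sum_eq_zero fun j hj => ?_
    have hne : j ≠ i := by
      rintro rfl
      exact h (Finset.mem_filter.1 hj).2
    simp [TG.eb, hne]

theorem inter_ea (u : Hq g) (i : Fin g) : inter u (TG.ea i) = -u.2 i := TG.om_ea u i

theorem inter_eb (u : Hq g) (i : Fin g) : inter u (TG.eb i) = u.1 i := TG.om_eb u i

theorem JP_list (L : List (Surf g × Surf g)) : JP (lprod L) (lp L) :=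
  ⟨L, by simp, fun _ _ => rfl⟩

theorem JP_pp (k : Fin g) : JP (pp k) fun u v => Blt k u v := by
  have h := JP_list ((List.ofFn fun i : Fin g => ((al i : Surf g), (be i : Surf g))).take k)
  have e1 : lprod ((List.ofFn fun i : Fin g => ((al i : Surf g), (be i : Surf g))).take k) =
      pp k := by
    unfold lprod pp TG.cpart
    rw [List.map_take, List.map_ofFn]
    rfl
  rw [e1] at h
  refine h.congr fun u v => ?_
  unfold lp
  rw [List.map_take, List.map_ofFn, List.sum_take_ofFn, Blt_apply]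
  refine Finset.sum_congr rfl fun i _ => ?_
  simp only [Function.comp_apply]
  rw [TG.cls_al, TG.cls_be, inter_ea, inter_eb, inter_eb, inter_ea]
  ring

/-- the Johnson form of the standard bounding pair map -/
noncomputable def xstd (k : Fin g) : A3 g := wedge (TG.om.flip (TG.ea k)) (Blt k) (Blt_alt k)

theorem xstd_apply (k : Fin g) (u v w : Hq g) : xstd k ![u, v, w] =
    -u.2 k * Blt k v w - -v.2 k * Blt k u w + -w.2 k * Blt k u v := by
  unfold xstd
  rw [wedge_apply]
  change inter u (TG.ea k) * _ - inter v (TG.ea k) * _ + inter w (TG.ea k) * _ = _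
  rw [inter_ea, inter_ea, inter_ea]

theorem cls_bb' (k : Fin g) : cls (bb k) = TG.ea k := by
  unfold bb
  rw [cls_mul, TG.cls_of_comm (TG.pp_comm k), zero_add, TG.cls_al]

theorem johnson_std (k : Fin g) : Johnson (stdBP k) (xstd k) := by
  apply johnson_of_gen
  rintro (i | i)
  · refine ⟨0, ?_⟩
    change JP (stdBP k (al i) * (al i)⁻¹) fun u v => xstd k ![u, v, TG.ea i] + 0 * inter u v
    rw [TG.stdBP_al]
    unfold bpAl
    split_ifs with h1 h2
    · have e1 : bb k * al i * (bb k)⁻¹ * (al i)⁻¹ = ⁅bb k, al i⁆ := by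
        rw [commutatorElement_def]
      rw [e1]
      refine (JP.comm (bb k) (al i)).congr fun u v => ?_
      rw [xstd_apply, Blt_ea, Blt_ea, if_pos h1, if_pos h1, cls_bb', TG.cls_al, inter_ea, inter_ea,
        inter_ea, inter_ea]
      have e2 : (TG.ea i : Hq g).2 k = 0 := rfl
      rw [e2]
      ring
    · subst h2
      have h3 : pp i * al i * (pp i)⁻¹ * (al i)⁻¹ ∈ gam3 g := by
        have e1 : pp i * al i * (pp i)⁻¹ * (al i)⁻¹ = ⁅pp i, al i⁆ := by
          rw [commutatorElement_def]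
        rw [e1]
        exact Subgroup.commutator_mem_commutator (JP_pp i).mem (Subgroup.mem_top _)
      refine (JP.gam h3).congr fun u v => ?_
      rw [xstd_apply, Blt_ea, Blt_ea, if_neg (lt_irrefl _), if_neg (lt_irrefl _)]
      have e2 : (TG.ea i : Hq g).2 i = 0 := rfl
      rw [e2]
      ring
    · rw [mul_inv_cancel]
      refine JP.one.congr fun u v => ?_
      rw [xstd_apply, Blt_ea, Blt_ea, if_neg h1, if_neg h1]
      have e2 : (TG.ea i : Hq g).2 k = 0 := rfl
      rw [e2]
      ring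
  · refine ⟨0, ?_⟩
    change JP (stdBP k (be i) * (be i)⁻¹) fun u v => xstd k ![u, v, TG.eb i] + 0 * inter u v
    rw [TG.stdBP_be]
    unfold bpBe
    split_ifs with h1 h2
    · have e1 : bb k * be i * (bb k)⁻¹ * (be i)⁻¹ = ⁅bb k, be i⁆ := by
        rw [commutatorElement_def]
      rw [e1]
      refine (JP.comm (bb k) (be i)).congr fun u v => ?_
      rw [xstd_apply, Blt_eb, Blt_eb, if_pos h1, if_pos h1, cls_bb', TG.cls_be, inter_ea, inter_eb,
        inter_ea, inter_eb]
      have e2 : (TG.eb i : Hq g).2 k = 0 := by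
        change (Pi.single i (1 : ℚ) : Fin g → ℚ) k = 0
        exact Pi.single_eq_of_ne (ne_of_gt h1) _
      rw [e2]
      ring
    · subst h2
      have e1 : be i * (pp i)⁻¹ * (be i)⁻¹ = be i * (pp i)⁻¹ * (be i)⁻¹ := rfl
      refine ((JP_pp i).inv.conj (be i)).congr fun u v => ?_
      rw [xstd_apply, Blt_eb, Blt_eb, if_neg (lt_irrefl _), if_neg (lt_irrefl _)]
      have e2 : (TG.eb i : Hq g).2 i = 1 := by
        change (Pi.single i (1 : ℚ) : Fin g → ℚ) i = 1
        exact Pi.single_eq_same _ _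
      rw [e2]
      ring
    · rw [mul_inv_cancel]
      refine JP.one.congr fun u v => ?_
      rw [xstd_apply, Blt_eb, Blt_eb, if_neg h1, if_neg h1]
      have e2 : (TG.eb i : Hq g).2 k = 0 := by
        change (Pi.single i (1 : ℚ) : Fin g → ℚ) k = 0
        exact Pi.single_eq_of_ne (Ne.symm h2) _
      rw [e2]
      ring

end GZ
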