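import Pool.Agent.H40.GZ.Spec
import Pool.Agent.H40.GZ.Gen
import Pool.Agent.H40.TG.Main

/-!
# Nondegenerate planes of pairs of forms, independently of coordinates
-/

namespace GZ

open TG (Gen Surf Hq inter cls)

/-! ### Expansion of alternating forms -/

section Exp

variable {g : ℕ}

theorem x_add0 (x : A3 g) (u u' v w : Hq g) : x ![u + u', v, w] = x ![u, v, w] + x ![u', v, w] := by
  have h := x.map_update_add ![u, v, w] 0 u u'
  have h1 : ∀ t, Function.update ![u, v, w] 0 t = ![t, v, w] := fun t => by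
    funext i; fin_cases i <;> rfl
  rwa [h1, h1, h1] at h

theorem x_smul0 (x : A3 g) (c : ℚ) (u v w : Hq g) : x ![c • u, v, w] = c * x ![u, v, w] := by
  have h := x.map_update_smul ![u, v, w] 0 c u
  have h1 : ∀ t, Function.update ![u, v, w] 0 t = ![t, v, w] := fun t => by
    funext i; fin_cases i <;> rfl
  rwa [h1, h1] at h

theorem x_add1 (x : A3 g) (u v v' w : Hq g) : x ![u, v + v', w] = x ![u, v, w] + x ![u, v', w] := by
  have h := x.map_update_add ![u, v, w] 1 v v'
  have h1 : ∀ t, Function.update ![u, v, w] 1 t = ![u, t, w] := fun t => by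
    funext i; fin_cases i <;> rfl
  rwa [h1, h1, h1] at h

theorem x_smul1 (x : A3 g) (c : ℚ) (u v w : Hq g) : x ![u, c • v, w] = c * x ![u, v, w] := by
  have h := x.map_update_smul ![u, v, w] 1 c v
  have h1 : ∀ t, Function.update ![u, v, w] 1 t = ![u, t, w] := fun t => by
    funext i; fin_cases i <;> rfl
  rwa [h1, h1] at h

theorem x_add2 (x : A3 g) (u v w w' : Hq g) : x ![u, v, w + w'] = x ![u, v, w] + x ![u, v, w'] := by
  have h := x.map_update_add ![u, v, w] 2 w w'
  have h1 : ∀ t, Function.update ![u, v, w] 2 t = ![u, v, t] := fun t => by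
    funext i; fin_cases i <;> rfl
  rwa [h1, h1, h1] at h

theorem x_smul2 (x : A3 g) (c : ℚ) (u v w : Hq g) : x ![u, v, c • w] = c * x ![u, v, w] := by
  have h := x.map_update_smul ![u, v, w] 2 c w
  have h1 : ∀ t, Function.update ![u, v, w] 2 t = ![u, v, t] := fun t => by
    funext i; fin_cases i <;> rfl
  rwa [h1, h1] at h

/-- coordinates of a rational class -/
def co (u : Hq g) (j : Gen g) : ℚ := Sum.elim u.1 u.2 j

theorem hq_sum (u : Hq g) : u = ∑ j, co u j • bq j := by
  rw [Fintype.sum_sum_type]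
  have h := TG.hq_decomp u
  rw [Finset.sum_add_distrib] at h
  exact h

theorem lin_hq (f : Hq g →ₗ[ℚ] ℚ) (u : Hq g) : f u = ∑ j, co u j * f (bq j) := by
  conv_lhs => rw [hq_sum u]
  rw [map_sum]
  exact Finset.sum_congr rfl fun j _ => by rw [map_smul, smul_eq_mul]

theorem x_expand (x : A3 g) (u v w : Hq g) :
    x ![u, v, w] = ∑ i, ∑ j, ∑ k, x ![bq i, bq j, bq k] * co u i * co v j * co w k := by
  have h0 := lin_hq { toFun := fun u => x ![u, v, w], map_add' := fun u u' => x_add0 x u u' v w,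
                      map_smul' := fun c u => x_smul0 x c u v w } u
  simp only [LinearMap.coe_mk, AddHom.coe_mk] at h0
  rw [h0]
  refine Finset.sum_congr rfl fun i _ => ?_
  have h1 := lin_hq { toFun := fun v => x ![bq i, v, w],
                      map_add' := fun v v' => x_add1 x (bq i) v v' w,
                      map_smul' := fun c v => x_smul1 x c (bq i) v w } v
  simp only [LinearMap.coe_mk, AddHom.coe_mk] at h1
  rw [h1, Finset.mul_sum]
  refine Finset.sum_congr rfl fun j _ => ?_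
  have h2 := lin_hq { toFun := fun w => x ![bq i, bq j, w],
                      map_add' := fun w w' => x_add2 x (bq i) (bq j) w w',
                      map_smul' := fun c w => x_smul2 x c (bq i) (bq j) w } w
  simp only [LinearMap.coe_mk, AddHom.coe_mk] at h2
  rw [h2, Finset.mul_sum, Finset.mul_sum]
  exact Finset.sum_congr rfl fun k _ => by ring

variable {K : Type*} [Field K] [Algebra ℚ K]

theorem ev_toK (x : A3 g) (u v w : Hq g) :
    ev (XX K x) (toK K u) (toK K v) (toK K w) = algebraMap ℚ K (x ![u, v, w]) := by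
  rw [x_expand, map_sum]
  unfold ev
  refine Finset.sum_congr rfl fun i _ => ?_
  rw [map_sum]
  refine Finset.sum_congr rfl fun j _ => ?_
  rw [map_sum]
  refine Finset.sum_congr rfl fun k _ => ?_
  rw [map_mul, map_mul, map_mul]
  rfl

omit [Algebra ℚ K] in
theorem ev_smul1 (X : Gen g → Gen g → Gen g → K) (c : K) (u v w : HK K g) :
    ev X (c • u) v w = c * ev X u v w := by
  unfold ev
  simp only [Finset.mul_sum, Pi.smul_apply, smul_eq_mul]
  exact Finset.sum_congr rfl fun i _ => Finset.sum_congr rfl fun j _ =>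
    Finset.sum_congr rfl fun k _ => by ring

omit [Algebra ℚ K] in
theorem ev_expand (X : Gen g → Gen g → Gen g → K) (L : HK K g →ₗ[K] HK K g) (u v w : HK K g) :
    ev X (L u) (L v) (L w) =
      ∑ i, ∑ j, ∑ k, ev X (L (e K i)) (L (e K j)) (L (e K k)) * u i * v j * w k := by
  have h0 := lin_expand (R := K)
    { toFun := fun u => ev X (L u) (L v) (L w)
      map_add' := fun u u' => by rw [map_add, ev_add1]
      map_smul' := fun c u => by rw [map_smul, ev_smul1]; rfl } u
  simp only [LinearMap.coe_mk, AddHom.coe_mk] at h0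
  rw [h0]
  refine Finset.sum_congr rfl fun i _ => ?_
  have h1 := lin_expand (R := K)
    { toFun := fun v => ev X (L (e K i)) (L v) (L w)
      map_add' := fun u u' => by rw [map_add, ev_add2]
      map_smul' := fun c u => by rw [map_smul, ev_smul2]; rfl } v
  simp only [LinearMap.coe_mk, AddHom.coe_mk] at h1
  rw [h1, Finset.mul_sum]
  refine Finset.sum_congr rfl fun j _ => ?_
  have h2 := lin_expand (R := K)
    { toFun := fun w => ev X (L (e K i)) (L (e K j)) (L w)
      map_add' := fun u u' => by rw [map_add, ev_add3]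
      map_smul' := fun c u => by rw [map_smul, ev_smul3]; rfl } w
  simp only [LinearMap.coe_mk, AddHom.coe_mk] at h2
  rw [h2, Finset.mul_sum, Finset.mul_sum]
  exact Finset.sum_congr rfl fun k _ => by ring

end Exp

/-! ### Extension of symplectic maps -/

section SK

variable {g : ℕ} (K : Type*) [Field K] [Algebra ℚ K] (S : Hq g →ₗ[ℚ] Hq g)

/-- extension of scalars of a linear map -/
def SK : HK K g →ₗ[K] HK K g where
  toFun v := ∑ j, v j • toK K (S (bq j))
  map_add' v w := by
    rw [← Finset.sum_add_distrib]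
    exact Finset.sum_congr rfl fun j _ => by rw [Pi.add_apply, add_smul]
  map_smul' c v := by
    rw [RingHom.id_apply, Finset.smul_sum]
    exact Finset.sum_congr rfl fun j _ => by rw [Pi.smul_apply, smul_eq_mul, mul_smul]

theorem SK_e (j : Gen g) : SK K S (e K j) = toK K (S (bq j)) := by
  change ∑ i, (e K j) i • toK K (S (bq i)) = _
  rw [Finset.sum_eq_single j]
  · simp [e]
  · intro i _ hi
    simp [e, Pi.single_eq_of_ne hi]
  · intro h; exact absurd (Finset.mem_univ j) h

theorem toK_sum {ι : Type*} (s : Finset ι) (f : ι → Hq g) :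
    toK K (∑ i ∈ s, f i) = ∑ i ∈ s, toK K (f i) := by
  classical
  induction s using Finset.induction_on with
  | empty => rw [Finset.sum_empty, Finset.sum_empty, toK_zero]
  | insert a s ha ih => rw [Finset.sum_insert ha, Finset.sum_insert ha, toK_add, ih]

theorem SK_toK (u : Hq g) : SK K S (toK K u) = toK K (S u) := by
  conv_rhs => rw [hq_sum u]
  rw [map_sum, toK_sum]
  change ∑ j, (toK K u) j • toK K (S (bq j)) = _
  exact Finset.sum_congr rfl fun j _ => by rw [map_smul, toK_smul]; rfl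

variable {K S}

theorem SK_om (hS : ∀ u v, inter (S u) (S v) = inter u v) (u v : HK K g) :
    om (SK K S u) (SK K S v) = om u v := by
  rw [om_both u v, hk_sum u, hk_sum v]
  simp only [map_sum, LinearMap.sum_apply, map_smul, LinearMap.smul_apply, smul_eq_mul]
  rw [Finset.sum_comm]
  refine Finset.sum_congr rfl fun i _ => ?_
  rw [Finset.mul_sum]
  refine Finset.sum_congr rfl fun j _ => ?_
  rw [SK_e, SK_e, om_toK, hS, ← om_toK, toK_bq, toK_bq, ← hk_sum, ← hk_sum]
  ring

theorem SK_ev (x : A3 g) (u v w : HK K g) :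
    ev (XX K (x.compLinearMap S)) u v w = ev (XX K x) (SK K S u) (SK K S v) (SK K S w) := by
  rw [ev_expand (XX K x) (SK K S)]
  have h := ev_expand (XX K (x.compLinearMap S)) LinearMap.id u v w
  simp only [LinearMap.id_apply] at h
  rw [h]
  refine Finset.sum_congr rfl fun i _ => Finset.sum_congr rfl fun j _ =>
    Finset.sum_congr rfl fun k _ => ?_
  rw [SK_e, SK_e, SK_e, ev_toK, ← toK_bq i, ← toK_bq j, ← toK_bq k, ev_toK]
  congr 4
  change x (S ∘ ![bq i, bq j, bq k]) = _
  congr 1
  funext t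
  fin_cases t <;> rfl

theorem SK_inv {S' : Hq g →ₗ[ℚ] Hq g} (h : ∀ u, S (S' u) = u) (u : HK K g) :
    SK K S (SK K S' u) = u := by
  conv_lhs => rw [hk_sum u]
  conv_rhs => rw [hk_sum u]
  rw [map_sum, map_sum]
  refine Finset.sum_congr rfl fun j _ => ?_
  rw [map_smul, map_smul, SK_e, SK_toK, h, toK_bq]

end SK

/-! ### Nondegenerate planes -/

section Ndp

variable {K : Type*} [Field K] [Algebra ℚ K] {g : ℕ}

/-- a nondegenerate isotropic plane `ζ` of a pair of forms `x`, with gauges `c` and block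
operators `T` -/
structure NDP (x : Fin 2 → A3 g) (ζ c : Fin 2 → HK K g)
    (T : Fin 2 → Fin 2 → HK K g →ₗ[K] HK K g) : Prop where
  orth : ∀ i j, om (ζ i) (ζ j) = 0
  dual : ∃ z : Fin 2 → HK K g, ∀ i j, om (ζ i) (z j) = if i = j then 1 else 0
  form : ∀ k i w h, om (T k i w) h = ev (XX K (x k)) (ζ i) w h + om (ζ i) (c k) * om w h -
    om w (c k) * om (ζ i) h
  Tζ : ∀ k i j, T k i (ζ j) = 0
  perp : ∀ k i w, Pp ζ w → Pp ζ (T k i w)
  inj : ∀ Y : Fin 2 → HK K g, (∀ k, Pp ζ (Y k)) → (∃ k, NZ ζ (Y k)) → ∃ i, NZ ζ (∑ k, T k i (Y k))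
  start : ∃ y, Pp ζ y ∧ NZ ζ y

/-- planes give systems of letters and operators -/
theorem NDP.gsys {x : Fin 2 → A3 g} {ζ c : Fin 2 → HK K g}
    {T : Fin 2 → Fin 2 → HK K g →ₗ[K] HK K g} (h : NDP x ζ c T) {F : Fin 2 → MulAut (Surf g)}
    (hJ : ∀ k, Johnson (F k) (x k)) : GSys F ζ T where
  orth := h.orth
  dual := h.dual
  Tζ := h.Tζ
  perp := h.perp
  inj := h.inj
  start := h.start
  ex := by
    intro n
    choose u hu1 hu2 hu3 using fun k => gauge_E (hJ k) (c k) n
    refine ⟨fun k => inn (u k) * aut (F k), fun k => ⟨u k, hu1 k, rfl⟩, hu2, fun k i w => ?_⟩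
    apply hu3
    intro h'
    exact h.form k i w h'

/-- transport by a symplectic map -/
theorem NDP.transport {x : Fin 2 → A3 g} {ζ c : Fin 2 → HK K g}
    {T : Fin 2 → Fin 2 → HK K g →ₗ[K] HK K g} (h : NDP x ζ c T) {S S' : Hq g →ₗ[ℚ] Hq g}
    (hS : ∀ u v, inter (S u) (S v) = inter u v) (h1 : ∀ u, S (S' u) = u)
    (h2 : ∀ u, S' (S u) = u) :
    NDP (fun k => (x k).compLinearMap S) (fun i => SK K S' (ζ i)) (fun k => SK K S' (c k))
      (fun k i => SK K S' ∘ₗ T k i ∘ₗ SK K S) := by
  have hS' : ∀ u v, inter (S' u) (S' v) = inter u v := fun u v => by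
    rw [← hS, h1, h1]
  have e1 : ∀ u : HK K g, SK K S (SK K S' u) = u := SK_inv h1
  have e2 : ∀ u : HK K g, SK K S' (SK K S u) = u := SK_inv h2
  have hl : ∀ u v : HK K g, om (SK K S' u) v = om u (SK K S v) := fun u v => by
    rw [← SK_om hS, e1]
  have hr : ∀ u v : HK K g, om u (SK K S' v) = om (SK K S u) v := fun u v => by
    rw [← SK_om hS, e1]
  have hp : ∀ w, Pp (fun i => SK K S' (ζ i)) w ↔ Pp ζ (SK K S w) := by
    intro w
    unfold Pp
    simp only [hl]
  have hn : ∀ w, NZ (fun i => SK K S' (ζ i)) w ↔ NZ ζ (SK K S w) := by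
    intro w
    constructor
    · rintro ⟨v, hv, hne⟩
      exact ⟨SK K S v, (hp v).1 hv, by rwa [SK_om hS]⟩
    · rintro ⟨v, hv, hne⟩
      refine ⟨SK K S' v, (hp _).2 (by rwa [e1]), ?_⟩
      rwa [← SK_om hS, e1]
  refine ⟨?_, ?_, ?_, ?_, ?_, ?_, ?_⟩
  · intro i j
    rw [hl, e1]; exact h.orth i j
  · obtain ⟨z, hz⟩ := h.dual
    exact ⟨fun j => SK K S' (z j), fun i j => by rw [hl, e1]; exact hz i j⟩
  · intro k i w v
    rw [LinearMap.comp_apply, LinearMap.comp_apply, hl, h.form, SK_ev, e1, SK_om hS, hr, hr, hl,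
      e1]
  · intro k i j
    rw [LinearMap.comp_apply, LinearMap.comp_apply, e1, h.Tζ, map_zero]
  · intro k i w hw
    rw [hp, LinearMap.comp_apply, LinearMap.comp_apply, e1]
    exact h.perp k i _ ((hp w).1 hw)
  · intro Y hY hN
    obtain ⟨k, hk⟩ := hN
    obtain ⟨i, hi⟩ := h.inj (fun k => SK K S (Y k)) (fun k => (hp _).1 (hY k)) ⟨k, (hn _).1 hk⟩
    refine ⟨i, (hn _).2 ?_⟩
    rw [map_sum]
    simp only [LinearMap.comp_apply, e1]
    exact hi
  · obtain ⟨y, hy, hy'⟩ := h.start
    exact ⟨SK K S' y, (hp _).2 (by rwa [e1]), (hn _).2 (by rwa [e1])⟩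

end Ndp

end GZ
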