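import Pool.Agent.H40.GZ.Core

/-!
# Nontrivial words are not inner
-/

open scoped commutatorElement

namespace GZ

open TG (dep dep_mk dep_le eq_of_dep cases_of_dep Surf al be Gen cls surf_hom_ext surf_induction)

variable {K : Type*} [Field K] [Algebra ℚ K] {g : ℕ}

/-- letters and operators of a pair of automorphisms -/
structure GSys (F : Fin 2 → MulAut (Surf g)) (ζ : Fin 2 → HK K g)
    (T : Fin 2 → Fin 2 → HK K g →ₗ[K] HK K g) : Prop where
  orth : ∀ i j, om (ζ i) (ζ j) = 0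
  dual : ∃ z : Fin 2 → HK K g, ∀ i j, om (ζ i) (z j) = if i = j then 1 else 0
  Tζ : ∀ k i j, T k i (ζ j) = 0
  perp : ∀ k i w, Pp ζ w → Pp ζ (T k i w)
  inj : ∀ Y : Fin 2 → HK K g, (∀ k, Pp ζ (Y k)) → (∃ k, NZ ζ (Y k)) → ∃ i, NZ ζ (∑ k, T k i (Y k))
  start : ∃ y, Pp ζ y ∧ NZ ζ y
  ex : ∀ n : ℕ, ∃ E : Fin 2 → (RN K (Surf g) n ≃ₐ[K] RN K (Surf g) n),
    (∀ k, ∃ u : (RN K (Surf g) n)ˣ, (u : RN K (Surf g) n) - 1 ∈ JJ K (Surf g) n ∧
      E k = inn u * aut (F k)) ∧ (∀ k, TrivR (E k)) ∧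
    ∀ k i w, TauR (E k) (ζ i) w (T k i w)

omit [Algebra ℚ K] in
theorem BB_zero {T : Fin 2 → Fin 2 → HK K g →ₗ[K] HK K g} {ζ : Fin 2 → HK K g}
    (hT : ∀ k i j, T k i (ζ j) = 0) (j : Fin 2) (L : List (Fin 2)) (hL : L ≠ [])
    (c : List (Fin 2) → K) : BB T L (fun w => c w • ζ j) = 0 := by
  cases L with
  | nil => exact absurd rfl hL
  | cons i L =>
    rw [BB, LinearMap.comp_apply]
    have h : (LinearMap.pi fun w => ∑ k, T k i ∘ₗ LinearMap.proj (R := K)
        (φ := fun _ : List (Fin 2) => HK K g) (k :: w)) (fun w => c w • ζ j) = 0 := by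
      funext w
      rw [LinearMap.pi_apply, LinearMap.sum_apply]
      refine Finset.sum_eq_zero fun k _ => ?_
      rw [LinearMap.comp_apply, LinearMap.proj_apply, map_smul, hT, smul_zero]
    rw [h, map_zero]

theorem GSys.not_inner {F : Fin 2 → MulAut (Surf g)} {ζ : Fin 2 → HK K g}
    {T : Fin 2 → Fin 2 → HK K g →ₗ[K] HK K g} (h : GSys F ζ T) {w : FreeGroup (Fin 2)}
    (hw : w ≠ 1) (x0 : Surf g) : FreeGroup.lift F w ≠ MulAut.conj x0 := by
  intro hinn
  obtain ⟨w0, hw0, hc, hmin⟩ := TG.Mag.exists_min hw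
  set n := w0.length with hn
  have hn1 : 1 ≤ n := by
    rw [hn]
    exact List.length_pos_iff.2 hw0
  obtain ⟨y, hyp, hyn⟩ := h.start
  obtain ⟨z, hz⟩ := h.dual
  set c := TG.Mag.coef w with hcdef
  have hcK : algebraMap ℚ K (c w0) ≠ 0 := fun h0 =>
    hc ((algebraMap ℚ K).injective (by rw [h0, map_zero]))
  obtain ⟨L, hL, hLn⟩ := exists_word h.perp h.inj n (fun w => algebraMap ℚ K (c w) • y)
    (fun w => hyp.smul _) ⟨w0, hn.symm, by
      obtain ⟨v, hv, hv'⟩ := hyn
      exact ⟨v, hv, by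
        rw [map_smul, LinearMap.smul_apply, smul_eq_mul]; exact mul_ne_zero hcK hv'⟩⟩
  set us := L.reverse with hus
  have huslen : us.length = n := by simp [hus, hL]
  have husr : us.reverse = L := by simp [hus]
  set wd : ℕ → Fin 2 := fun p => us.getD p 0 with hwd
  set e : Fin 2 := if wd 0 = 0 then 1 else 0 with he
  have hew : wd 0 ≠ e := by
    rw [he]
    split_ifs with h0
    · rw [h0]; decide
    · exact h0
  have hone : ∀ i : Fin 2, (if i = 0 then (1 : K) else 0) + (if i = 1 then 1 else 0) = 1 := by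
    intro i
    fin_cases i <;> simp
  obtain ⟨Ψ, hΨ⟩ := exists_chainRep (n := n) (ξ := fun p => ζ (wd p)) (y := y) (ε := ζ e)
    (z0 := z 0 + z 1) (fun p _ => h.orth _ _) (fun p _ => hyp _) (fun p _ => h.orth _ _)
    (fun p _ => by rw [map_add, hz, hz]; exact hone _)
  obtain ⟨E, hgauge, htriv, htau⟩ := h.ex n
  have htau0 : ∀ k i j, TauR (E k) (ζ i) (ζ j) 0 := by
    intro k i j
    have := htau k i (ζ j)
    rwa [h.Tζ] at this
  have hlst : lst (fun p => ζ (wd p)) 0 n = us.map ζ := by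
    have := lst_getD ζ us n 0 (by omega)
    rw [List.drop_zero] at this
    exact this
  have hd0 : dep (⟨0, by omega⟩ : Fin (n + 3)) = 0 := dep_mk (by omega)
  -- the Magnus expansion
  set S := TG.Mag.S (DQ E) n c with hS
  have hSmem : ∀ x, S x ∈ JJ K (Surf g) n ^ (n + 1) := by
    intro x
    obtain ⟨m, hm⟩ : ∃ m, n = m + 1 := ⟨n - 1, by omega⟩
    have := TG.Mag.S_mem (DQ E) (K := (JJ K (Surf g) n ^ (n + 1)).restrictScalars ℚ) (n := m)
      (fun l hl x => by
        rw [Submodule.restrictScalars_mem, DQ_prod]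
        have h1 := Df_prod_mem' htriv l (by rintro rfl; simp at hl) x
        rw [hl] at h1
        have h2 : 1 + (m + 1) = n + 1 := by omega
        rwa [h2] at h1) n [] c (by simp [hm]) x
    simpa using this
  set Φ := FreeGroup.lift E w with hΦ
  have hev : ∀ x, Φ x - x = S x := by
    intro x
    have h1 := TG.Mag.eval (DQ E) (toQ.comp (FreeGroup.lift E)) (fun i => by
      rw [MonoidHom.comp_apply, FreeGroup.lift_apply_of]
      apply LinearMap.ext
      intro y
      rw [toQ_apply, LinearMap.add_apply, DQ_apply, Df_apply, Module.End.one_apply]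
      abel) (K := ⊥) (fun g x hx => by
        rw [Submodule.mem_bot] at hx ⊢
        rw [hx, map_zero]) (n := n) (fun l hl x => by
        rw [Submodule.mem_bot, DQ_prod]
        have h1 := Df_prod_mem' htriv l (by rintro rfl; simp at hl) x
        rw [hl] at h1
        exact JJ_zero (by omega) h1) w x
    rw [MonoidHom.comp_apply, toQ_apply, Submodule.mem_bot, sub_eq_zero] at h1
    have h2 : TG.Mag.ev (DQ E) n c = 1 + S := by
      obtain ⟨m, hm⟩ : ∃ m, n = m + 1 := ⟨n - 1, by omega⟩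
      unfold TG.Mag.ev
      rw [Finset.sum_range_succ]
      congr 1
      have hr : Finset.range n = Finset.range (m + 1) := by rw [hm]
      rw [hr, Finset.sum_range_succ']
      have h3 : TG.Mag.S (DQ E) 0 c = 1 := by
        simp only [TG.Mag.S, hcdef, TG.Mag.coef_nil, one_smul]
      rw [h3, Finset.sum_eq_zero, zero_add]
      intro k hk
      apply TG.Mag.S_zero
      intro w' hw'
      apply hmin
      · rintro rfl; simp at hw'
      · rw [hw']
        have := Finset.mem_range.1 hk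
        omega
    rw [h2, LinearMap.add_apply, Module.End.one_apply] at h1
    rw [hΦ, h1, add_sub_cancel_left]
  -- the difference matrix
  set M : HK K g → Mt K n := fun h => ext Ψ hΨ.deg (nv h) with hM
  have hMdeg : ∀ h, Deg 1 (M h) := fun h => ext_deg Ψ hΨ.deg (nv_mem1 h)
  set Δ : HK K g → Mt K n := fun h => ext Ψ hΨ.deg (S (nv h)) with hΔ
  have hΔdeg : ∀ x, Deg (n + 1) (Δ x) := fun x => ext_deg Ψ hΨ.deg (hSmem _)
  have hMchain : ∀ x (p : ℕ) (hp : p < n), M x ⟨p, by omega⟩ ⟨p + 1, by omega⟩ =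
      om (ζ (wd p)) x := fun x p hp => ext_nv hΨ.deg (fun z => hΨ.chain z p hp) x
  have hMY : ∀ x, M x ⟨n, by omega⟩ ⟨n + 1, by omega⟩ = om y x :=
    fun x => ext_nv hΨ.deg hΨ.fY x
  have hMe : ∀ x, M x ⟨n, by omega⟩ ⟨n + 2, by omega⟩ = om (ζ e) x :=
    fun x => ext_nv hΨ.deg hΨ.fe x
  have hΔY : ∀ x, Δ x ⟨0, by omega⟩ ⟨n + 1, by omega⟩ =
      om (BB T L (fun w => algebraMap ℚ K (c w) • y)) x := by
    intro x
    have h1 := ent_symb hΨ (dep_mk le_rfl : dep (⟨n + 1, by omega⟩ : Fin (n + 3)) = n + 1) hMY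
    rw [hlst] at h1
    have h2 := S_symb htriv htau0 htau us y h1 c x
    rw [huslen, husr] at h2
    exact h2
  have hΔe : ∀ x, Δ x ⟨0, by omega⟩ ⟨n + 2, by omega⟩ = 0 := by
    intro x
    have h1 := ent_symb hΨ (by simp [dep] : dep (⟨n + 2, by omega⟩ : Fin (n + 3)) = n + 1) hMe
    rw [hlst] at h1
    have h2 := S_symb htriv htau0 htau us (ζ e) h1 c x
    rw [huslen, husr, BB_zero h.Tζ e L (by rintro rfl; simp at hL; omega)
      (fun w => algebraMap ℚ K (c w)), map_zero, LinearMap.zero_apply] at h2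
    exact h2
  -- the commutation relation
  obtain ⟨u, hu, hΦu⟩ := word_gauge hgauge w
  rw [hinn, aut_conj, ← map_mul] at hΦu
  set W := u * rhoU x0 with hW
  have hWm : (W : RN K (Surf g) n) - 1 ∈ JJ K (Surf g) n := by
    rw [hW, Units.val_mul]
    exact mul_sub_one_mem hu (dl_mem x0)
  set Z := ext Ψ hΨ.deg ((W : RN K (Surf g) n) - 1) with hZ
  have hZ1 : Deg 1 Z := ext_deg Ψ hΨ.deg (mem_pow_one.2 hWm)
  have hcomm : ∀ x, Z * M x - M x * Z = Δ x := by
    intro x
    have h1 : Φ (nv x) * (W : RN K (Surf g) n) = (W : RN K (Surf g) n) * (nv x : RN K (Surf g) n) := by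
      rw [hΦ, hΦu, inn_apply, mul_assoc, Units.inv_mul, mul_one]
    have h2 : Φ (nv x) = nv x + S (nv x) := by rw [← hev]; abel
    rw [h2] at h1
    have h3 : ((W : RN K (Surf g) n) - 1) * nv x - nv x * ((W : RN K (Surf g) n) - 1) =
        S (nv x) + S (nv x) * ((W : RN K (Surf g) n) - 1) := by
      generalize (W : RN K (Surf g) n) = ω at h1 ⊢
      generalize S (nv x) = σ at h1 ⊢
      have h4 : (ω - 1) * nv x - nv x * (ω - 1) = ω * nv x - nv x * ω := by noncomm_ring
      rw [h4, ← h1]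
      noncomm_ring
    have h5 : S (nv x) * ((W : RN K (Surf g) n) - 1) = 0 :=
      JJ_zero (by omega) (JJ_mul (hSmem (nv x)) (mem_pow_one.2 hWm))
    rw [h5, add_zero] at h3
    have h6 := congrArg (ext Ψ hΨ.deg) h3
    rw [map_sub, map_mul, map_mul] at h6
    exact h6
  -- entries of the commutation relation
  have hent : ∀ d, 1 ≤ d → Deg d Z → ∀ x (p : ℕ) (hp : p + d ≤ n) (q : Fin (n + 3)),
      dep q = p + d + 1 →
      Z ⟨p, by omega⟩ ⟨p + d, by omega⟩ * M x ⟨p + d, by omega⟩ q -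
        om (ζ (wd p)) x * Z ⟨p + 1, by omega⟩ q = Δ x ⟨p, by omega⟩ q := by
    intro d hd hZd x p hp q hq
    have hdp : dep (⟨p, by omega⟩ : Fin (n + 3)) = p := dep_mk (by omega)
    have e0 : (Z * M x - M x * Z) ⟨p, by omega⟩ q =
        (Z * M x) ⟨p, by omega⟩ q - (M x * Z) ⟨p, by omega⟩ q := rfl
    have e1 := hZd.mul_entry (hMdeg x) (p := ⟨p, by omega⟩) (q := q)
      (j0 := ⟨p + d, by omega⟩) (by rw [hdp, hq])
      (fun j hj => eq_of_dep (by omega) (by rw [hj, hdp]))
    have e2 := (hMdeg x).mul_entry hZd (p := ⟨p, by omega⟩) (q := q)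
      (j0 := ⟨p + 1, by omega⟩) (by rw [hdp, hq]; omega)
      (fun j hj => eq_of_dep (by omega) (by rw [hj, hdp]))
    rw [hMchain x p (by omega)] at e2
    rw [← hcomm x, e0, e1, e2]
  obtain ⟨x1, hx1, hx1Y⟩ := hyn
  -- descending
  have hdesc : ∀ d, 1 ≤ d → d < n → Deg d Z → Deg (d + 1) Z := by
    intro d hd hdn hZd
    have hz0 : ∀ x (p : ℕ) (hp : p + d ≤ n) (q : Fin (n + 3)), dep q = p + d + 1 →
        Z ⟨p, by omega⟩ ⟨p + d, by omega⟩ * M x ⟨p + d, by omega⟩ q =
          om (ζ (wd p)) x * Z ⟨p + 1, by omega⟩ q := by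
      intro x p hp q hq
      have h1 := hent d hd hZd x p hp q hq
      rw [hΔdeg x ⟨p, by omega⟩ q (by rw [hq, dep_mk (by omega)]; omega)] at h1
      exact sub_eq_zero.1 h1
    obtain ⟨p0, hp0⟩ : ∃ p0, p0 + d = n := ⟨n - d, by omega⟩
    have hA : ∀ m p (hp : p + d + m = n), Z ⟨p, by omega⟩ ⟨p + d, by omega⟩ = 0 := by
      intro m
      induction m with
      | zero =>
        intro p hp
        have h1 := hz0 x1 p (by omega) ⟨n + 1, by omega⟩ (by rw [dep_mk le_rfl]; omega)
        rw [hx1, zero_mul] at h1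
        have h2 : (⟨p + d, by omega⟩ : Fin (n + 3)) = ⟨n, by omega⟩ := by
          apply Fin.ext; simp; omega
        rw [h2] at h1 ⊢
        rw [hMY] at h1
        rcases mul_eq_zero.1 h1 with h3 | h3
        · exact h3
        · exact absurd h3 hx1Y
      | succ m ih =>
        intro p hp
        have h1 := hz0 (z (wd (p + d))) p (by omega) ⟨p + d + 1, by omega⟩
          (by rw [dep_mk (by omega)])
        have h2 : (⟨p + d + 1, by omega⟩ : Fin (n + 3)) = ⟨p + 1 + d, by omega⟩ := by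
          apply Fin.ext; simp; omega
        have h3 := ih (p + 1) (by omega)
        rw [hMchain _ (p + d) (by omega), hz, if_pos rfl, mul_one, h2, h3, mul_zero] at h1
        exact h1
    have hZn : Z ⟨p0, by omega⟩ ⟨p0 + d, by omega⟩ = 0 := hA 0 p0 (by omega)
    have hB : ∀ q : Fin (n + 3), dep q = n + 1 → Z ⟨p0 + 1, by omega⟩ q = 0 := by
      intro q hq
      have h1 := hz0 (z (wd p0)) p0 (by omega) q (by rw [hq]; omega)
      rw [hZn, zero_mul, hz, if_pos rfl, one_mul] at h1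
      exact h1.symm
    intro i j hij
    by_cases h1 : dep j < dep i + d
    · exact hZd i j h1
    · have h2 : dep j = dep i + d := by omega
      have h3 := dep_le j
      by_cases h4 : dep j = n + 1
      · have h5 : i = ⟨p0 + 1, by omega⟩ := eq_of_dep (by omega) (by omega)
        rw [h5]
        exact hB j h4
      · have h5 : i = ⟨dep i, by omega⟩ := eq_of_dep (by omega) rfl
        have h6 : j = ⟨dep i + d, by omega⟩ := eq_of_dep (by omega) h2
        have h7 := hA (n - (dep i + d)) (dep i) (by omega)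
        exact (congrArg₂ Z h5 h6).trans h7
  have hall : ∀ d, 1 ≤ d → d ≤ n → Deg d Z := by
    intro d hd
    induction d, hd using Nat.le_induction with
    | base => intro _; exact hZ1
    | succ d hd ih => intro hdn; exact hdesc d hd (by omega) (ih (by omega))
  have hZn := hall n hn1 le_rfl
  -- the last step
  have h1 := hent n hn1 hZn (z e) 0 (by omega) ⟨n + 2, by omega⟩ (by simp [dep])
  rw [hΔe] at h1
  have h01 : (⟨0 + n, by omega⟩ : Fin (n + 3)) = ⟨n, by omega⟩ := by
    apply Fin.ext; simp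
  rw [h01, hMe, hz, if_pos rfl, mul_one, hz, if_neg hew, zero_mul, sub_zero] at h1
  obtain ⟨x2, hx2, hx2T⟩ := hLn
  have h2 := hent n hn1 hZn x2 0 (by omega) ⟨n + 1, by omega⟩
    (by rw [dep_mk le_rfl]; omega)
  rw [h01, h1, zero_mul, hx2, zero_mul, sub_zero, hΔY] at h2
  exact hx2T h2.symm

end GZ
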