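import Pool.Agent.H40.GZ.Tau

/-!
# Isotropic planes

An affine chart of the space of isotropic planes, the equations of the planes annihilated by a pair
of forms, and the block operator. All formulas are polynomial and hold over all commutative rings.
-/

namespace GZ

open TG (Gen)

/-! ### Forms given by coefficients -/

section Ev

variable {R : Type*} [CommRing R] {g : ℕ} (X : Gen g → Gen g → Gen g → R)

theorem ev_add1 (u u' v w : HK R g) : ev X (u + u') v w = ev X u v w + ev X u' v w := by
  unfold ev
  simp only [← Finset.sum_add_distrib, Pi.add_apply]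
  exact Finset.sum_congr rfl fun i _ => Finset.sum_congr rfl fun j _ =>
    Finset.sum_congr rfl fun k _ => by ring

theorem ev_add2 (u v v' w : HK R g) : ev X u (v + v') w = ev X u v w + ev X u v' w := by
  unfold ev
  simp only [← Finset.sum_add_distrib, Pi.add_apply]
  exact Finset.sum_congr rfl fun i _ => Finset.sum_congr rfl fun j _ =>
    Finset.sum_congr rfl fun k _ => by ring

theorem ev_add3 (u v w w' : HK R g) : ev X u v (w + w') = ev X u v w + ev X u v w' := by
  unfold ev
  simp only [← Finset.sum_add_distrib, Pi.add_apply]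
  exact Finset.sum_congr rfl fun i _ => Finset.sum_congr rfl fun j _ =>
    Finset.sum_congr rfl fun k _ => by ring

theorem ev_smul2 (c : R) (u v w : HK R g) : ev X u (c • v) w = c * ev X u v w := by
  unfold ev
  simp only [Finset.mul_sum, Pi.smul_apply, smul_eq_mul]
  exact Finset.sum_congr rfl fun i _ => Finset.sum_congr rfl fun j _ =>
    Finset.sum_congr rfl fun k _ => by ring

theorem ev_smul3 (c : R) (u v w : HK R g) : ev X u v (c • w) = c * ev X u v w := by
  unfold ev
  simp only [Finset.mul_sum, Pi.smul_apply, smul_eq_mul]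
  exact Finset.sum_congr rfl fun i _ => Finset.sum_congr rfl fun j _ =>
    Finset.sum_congr rfl fun k _ => by ring

/-- evaluation in the last variable, as a linear map -/
def evl (u v : HK R g) : HK R g →ₗ[R] R where
  toFun := ev X u v
  map_add' := ev_add3 X u v
  map_smul' := fun c w => ev_smul3 X c u v w

theorem evl_apply (u v w : HK R g) : evl X u v w = ev X u v w := rfl

/-- antisymmetry of the coefficients -/
def AltX : Prop := (∀ i j k, X i j k = -X j i k) ∧ ∀ i j k, X i j k = -X i k j

variable {X}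

theorem AltX.swap12 (h : AltX X) (u v w : HK R g) : ev X u v w = -ev X v u w := by
  unfold ev
  rw [Finset.sum_comm]
  simp only [← Finset.sum_neg_distrib]
  refine Finset.sum_congr rfl fun j _ => Finset.sum_congr rfl fun i _ =>
    Finset.sum_congr rfl fun k _ => ?_
  rw [h.1 i j k]; ring

theorem AltX.swap23 (h : AltX X) (u v w : HK R g) : ev X u v w = -ev X u w v := by
  unfold ev
  simp only [← Finset.sum_neg_distrib]
  refine Finset.sum_congr rfl fun i _ => ?_
  rw [Finset.sum_comm]
  refine Finset.sum_congr rfl fun k _ => Finset.sum_congr rfl fun j _ => ?_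
  rw [h.2 i j k]; ring

end Ev

theorem eq_zero_of_neg {K : Type*} [Field K] [Algebra ℚ K] {a : K} (h : a = -a) : a = 0 := by
  have h1 : (2 : K) * a = 0 := by linear_combination h
  have h2 : (2 : K) ≠ 0 := by
    have h3 : algebraMap ℚ K 2 ≠ 0 := fun h0 => by
      have := (algebraMap ℚ K).injective (h0.trans (map_zero _).symm)
      norm_num at this
    rwa [map_ofNat] at h3
  rcases mul_eq_zero.1 h1 with h3 | h3
  · exact absurd h3 h2
  · exact h3

theorem AltX.zero12 {K : Type*} [Field K] [Algebra ℚ K] {g : ℕ}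
    {X : Gen g → Gen g → Gen g → K} (h : AltX X) (u w : HK K g) : ev X u u w = 0 :=
  eq_zero_of_neg (h.swap12 u u w)

theorem AltX.zero23 {K : Type*} [Field K] [Algebra ℚ K] {g : ℕ}
    {X : Gen g → Gen g → Gen g → K} (h : AltX X) (u w : HK K g) : ev X u w w = 0 :=
  eq_zero_of_neg (h.swap23 u w w)

theorem AltX.zero13 {K : Type*} [Field K] [Algebra ℚ K] {g : ℕ}
    {X : Gen g → Gen g → Gen g → K} (h : AltX X) (u w : HK K g) : ev X u w u = 0 := by
  rw [h.swap12, h.zero23, neg_zero]

theorem XX_alt {K : Type*} [Field K] [Algebra ℚ K] {g : ℕ} (x : A3 g) : AltX (XX K x) := by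
  constructor
  · intro i j k
    unfold XX
    rw [← map_neg]
    congr 1
    have h := x.map_swap ![bq i, bq j, bq k] (i := 0) (j := 1) (by decide)
    have h1 : (![bq i, bq j, bq k] ∘ Equiv.swap (0 : Fin 3) 1) = ![bq j, bq i, bq k] := by
      funext t
      fin_cases t <;> rfl
    rw [h1] at h
    rw [h, neg_neg]
  · intro i j k
    unfold XX
    rw [← map_neg]
    congr 1
    have h := x.map_swap ![bq i, bq j, bq k] (i := 1) (j := 2) (by decide)
    have h1 : (![bq i, bq j, bq k] ∘ Equiv.swap (1 : Fin 3) 2) = ![bq i, bq k, bq j] := by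
      funext t
      fin_cases t <;> rfl
    rw [h1] at h
    rw [h, neg_neg]

/-! ### Coordinates -/

section Coord

variable {R : Type*} [CommRing R] {m : ℕ}

/-- vectors with given coordinates -/
def mk4 (p q r s : R) (a : HK R m) : HK R (m + 2) :=
  Sum.elim (Fin.cons p (Fin.cons q fun i => a (Sum.inl i)))
    (Fin.cons r (Fin.cons s fun i => a (Sum.inr i)))

theorem mk4_add (p q r s p' q' r' s' : R) (a a' : HK R m) :
    mk4 p q r s a + mk4 p' q' r' s' a' = mk4 (p + p') (q + q') (r + r') (s + s') (a + a') := by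
  funext j
  rcases j with j | j
  · refine Fin.cases rfl (fun j => ?_) j
    refine Fin.cases rfl (fun j => rfl) j
  · refine Fin.cases rfl (fun j => ?_) j
    refine Fin.cases rfl (fun j => rfl) j

theorem mk4_smul (c p q r s : R) (a : HK R m) :
    c • mk4 p q r s a = mk4 (c * p) (c * q) (c * r) (c * s) (c • a) := by
  funext j
  rcases j with j | j
  · refine Fin.cases rfl (fun j => ?_) j
    refine Fin.cases rfl (fun j => rfl) j
  · refine Fin.cases rfl (fun j => ?_) j
    refine Fin.cases rfl (fun j => rfl) j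

theorem om_mk4 (p q r s p' q' r' s' : R) (a a' : HK R m) :
    om (mk4 p q r s a) (mk4 p' q' r' s' a') = p * r' - r * p' + (q * s' - s * q') + om a a' := by
  rw [om_apply, Fin.sum_univ_succ, Fin.sum_univ_succ, om_apply]
  simp only [mk4, Sum.elim_inl, Sum.elim_inr, Fin.cons_zero, Fin.cons_succ]
  ring

theorem exists_mk4 (z : HK R (m + 2)) : ∃ p q r s a, z = mk4 p q r s a := by
  refine ⟨z (Sum.inl 0), z (Sum.inl (Fin.succ 0)), z (Sum.inr 0), z (Sum.inr (Fin.succ 0)),
    Sum.elim (fun i => z (Sum.inl i.succ.succ)) (fun i => z (Sum.inr i.succ.succ)), ?_⟩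
  funext j
  rcases j with j | j
  · refine Fin.cases rfl (fun j => ?_) j
    refine Fin.cases rfl (fun j => rfl) j
  · refine Fin.cases rfl (fun j => ?_) j
    refine Fin.cases rfl (fun j => rfl) j

variable (a b : HK R m)

/-- first vector of the plane -/
def xi : HK R (m + 2) := mk4 1 0 0 0 a

/-- second vector of the plane -/
def eta : HK R (m + 2) := mk4 0 1 (-om a b) 0 b

/-- vectors orthogonal to the plane -/
def vv (j : Gen m) : HK R (m + 2) := mk4 0 0 (om (e R j) a) (om (e R j) b) (e R j)

variable (R m) in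
/-- first dual vector -/
def f0 : HK R (m + 2) := mk4 0 0 1 0 0

variable (R m) in
/-- second dual vector -/
def f1 : HK R (m + 2) := mk4 0 0 0 1 0

theorem om_xi_xi : om (xi a) (xi a) = 0 := om_alt _

theorem om_xi_eta : om (xi a) (eta a b) = 0 := by
  rw [xi, eta, om_mk4]; ring

theorem om_xi_vv (j : Gen m) : om (xi a) (vv a b j) = 0 := by
  rw [xi, vv, om_mk4, om_swap a (e R j)]; ring

theorem om_eta_vv (j : Gen m) : om (eta a b) (vv a b j) = 0 := by
  rw [eta, vv, om_mk4, om_swap b (e R j)]; ring

theorem om_xi_f0 : om (xi a) (f0 R m) = 1 := by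
  rw [xi, f0, om_mk4, map_zero]; ring

theorem om_xi_f1 : om (xi a) (f1 R m) = 0 := by
  rw [xi, f1, om_mk4, map_zero]; ring

theorem om_eta_f0 : om (eta a b) (f0 R m) = 0 := by
  rw [eta, f0, om_mk4, map_zero]; ring

theorem om_eta_f1 : om (eta a b) (f1 R m) = 1 := by
  rw [eta, f1, om_mk4, map_zero]; ring

theorem om_vv_vv (i j : Gen m) : om (vv a b i) (vv a b j) = om (e R i) (e R j) := by
  rw [vv, vv, om_mk4]; ring

theorem sum_mk4 (t : Gen m → R) (r s : Gen m → R) (A : Gen m → HK R m) :
    ∑ j, t j • mk4 0 0 (r j) (s j) (A j) =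
      mk4 0 0 (∑ j, t j * r j) (∑ j, t j * s j) (∑ j, t j • A j) := by
  funext l
  rw [Finset.sum_apply]
  rcases l with l | l
  · refine Fin.cases ?_ (fun l => ?_) l
    · simp [mk4]
    · refine Fin.cases ?_ (fun l => ?_) l
      · simp [mk4]
      · simp [mk4]
  · refine Fin.cases ?_ (fun l => ?_) l
    · simp [mk4]
    · refine Fin.cases ?_ (fun l => ?_) l
      · simp [mk4]
      · simp [mk4]

theorem hk_sumR (h : HK R m) : h = ∑ j, h j • e R j := by
  rw [Fintype.sum_sum_type]
  have h2 := hk_decomp h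
  rw [Finset.sum_add_distrib] at h2
  exact h2

theorem om_leftR (v y : HK R m) : om v y = ∑ i, v i * om (e R i) y := by
  conv_lhs => rw [hk_sumR v]
  rw [map_sum, LinearMap.sum_apply]
  exact Finset.sum_congr rfl fun i _ => by rw [map_smul, LinearMap.smul_apply, smul_eq_mul]

theorem sum_vv (t : HK R m) : ∑ j, t j • vv a b j = mk4 0 0 (om t a) (om t b) t := by
  unfold vv
  rw [sum_mk4, ← om_leftR, ← om_leftR, ← hk_sumR]

/-- **decomposition of vectors** -/
theorem decomp (h : HK R (m + 2)) : ∃ (p q : R) (t : Gen m → R),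
    h = p • xi a + q • eta a b + ∑ j, t j • vv a b j + om (xi a) h • f0 R m +
      om (eta a b) h • f1 R m := by
  obtain ⟨p, q, r, s, c, rfl⟩ := exists_mk4 h
  refine ⟨p, q, c - p • a - q • b, ?_⟩
  rw [sum_vv, xi, eta, f0, f1, om_mk4, om_mk4, mk4_smul, mk4_smul, mk4_smul, mk4_smul, mk4_add,
    mk4_add, mk4_add, mk4_add]
  congr 1
  · ring
  · ring
  · simp only [map_sub, map_smul, LinearMap.sub_apply, LinearMap.smul_apply, smul_eq_mul, om_alt]
    rw [om_swap c a, om_swap b a]
    ring
  · simp only [map_sub, map_smul, LinearMap.sub_apply, LinearMap.smul_apply, smul_eq_mul, om_alt]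
    rw [om_swap c b]
    ring
  · simp only [smul_zero, add_zero]
    abel

end Coord

/-! ### The equations and the block operator -/

section Poly

variable {R : Type*} [CommRing R] {m : ℕ} (s : Fin 2 × Gen m → R)
  (X : Fin 2 → Gen (m + 2) → Gen (m + 2) → Gen (m + 2) → R)

/-- first parameter vector -/
def sa : HK R m := fun j => s (0, j)

/-- second parameter vector -/
def sb : HK R m := fun j => s (1, j)

/-- the vectors of the plane -/
def zz (i : Fin 2) : HK R (m + 2) := if i = 0 then xi (sa s) else eta (sa s) (sb s)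

/-- the vectors orthogonal to the plane -/
def ww (j : Gen m) : HK R (m + 2) := vv (sa s) (sb s) j

/-- the equations -/
def EE (t : Fin 2 × Gen m) : R := ev (X t.1) (zz s 0) (zz s 1) (ww s t.2)

/-- the correction -/
def cc (k : Fin 2) : HK R (m + 2) :=
  (-ev (X k) (zz s 0) (zz s 1) (f1 R m)) • f0 R m + ev (X k) (zz s 0) (zz s 1) (f0 R m) • f1 R m

/-- the block matrix -/
def MM : Matrix (Fin 2 × Gen m) (Fin 2 × Gen m) R :=
  Matrix.of fun t t' => ev (X t'.1) (zz s t.1) (ww s t'.2) (ww s t.2) +
    om (zz s t.1) (cc s X t'.1) * om (ww s t'.2) (ww s t.2)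

end Poly

end GZ
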