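import Pool.Agent.H40.GZ.Plane

/-!
# Isotropic planes over fields
-/

namespace GZ

open TG (Gen Surf)

/-! ### Change of rings -/

section Map

variable {R S : Type*} [CommRing R] [CommRing S] (φ : R →+* S) {g m : ℕ}

/-- image of a vector -/
def hm (v : HK R g) : HK S g := fun j => φ (v j)

theorem hm_om (u v : HK R g) : φ (om u v) = om (hm φ u) (hm φ v) := by
  rw [om_apply, om_apply, map_sum]
  exact Finset.sum_congr rfl fun i _ => by simp [hm]

theorem hm_ev (X : Gen g → Gen g → Gen g → R) (u v w : HK R g) :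
    φ (ev X u v w) = ev (fun i j k => φ (X i j k)) (hm φ u) (hm φ v) (hm φ w) := by
  unfold ev
  simp only [map_sum, map_mul]
  rfl

theorem hm_mk4 (p q r s : R) (a : HK R m) :
    hm φ (mk4 p q r s a) = mk4 (φ p) (φ q) (φ r) (φ s) (hm φ a) := by
  funext j
  rcases j with j | j
  · refine Fin.cases rfl (fun j => ?_) j
    refine Fin.cases rfl (fun j => rfl) j
  · refine Fin.cases rfl (fun j => ?_) j
    refine Fin.cases rfl (fun j => rfl) j

theorem hm_e (j : Gen g) : hm φ (e R j) = e S j := by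
  funext i
  by_cases h : i = j
  · subst h; simp [hm, e]
  · simp [hm, e, h]

theorem hm_zero : hm φ (0 : HK R g) = 0 := by
  funext i
  simp [hm]

theorem hm_add (u v : HK R g) : hm φ (u + v) = hm φ u + hm φ v := by
  funext i
  simp [hm]

theorem hm_smul (c : R) (u : HK R g) : hm φ (c • u) = φ c • hm φ u := by
  funext i
  simp [hm]

variable (s : Fin 2 × Gen m → R) (X : Fin 2 → Gen (m + 2) → Gen (m + 2) → Gen (m + 2) → R)

theorem hm_zz (i : Fin 2) : hm φ (zz s i) = zz (fun t => φ (s t)) i := by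
  unfold zz
  split_ifs
  · rw [xi, hm_mk4, map_one, map_zero]; rfl
  · rw [eta, hm_mk4, map_one, map_zero, map_neg, hm_om]; rfl

theorem hm_ww (j : Gen m) : hm φ (ww s j) = ww (fun t => φ (s t)) j := by
  unfold ww
  rw [vv, hm_mk4, map_zero, hm_om, hm_om, hm_e]; rfl

theorem hm_f0 : hm φ (f0 R m) = f0 S m := by
  rw [f0, hm_mk4, map_one, map_zero, hm_zero]; rfl

theorem hm_f1 : hm φ (f1 R m) = f1 S m := by
  rw [f1, hm_mk4, map_one, map_zero, hm_zero]; rfl

theorem map_EE (t : Fin 2 × Gen m) :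
    φ (EE s X t) = EE (fun t => φ (s t)) (fun k i j l => φ (X k i j l)) t := by
  unfold EE
  rw [hm_ev, hm_zz, hm_zz, hm_ww]

theorem hm_cc (k : Fin 2) :
    hm φ (cc s X k) = cc (fun t => φ (s t)) (fun k i j l => φ (X k i j l)) k := by
  unfold cc
  rw [hm_add, hm_smul, hm_smul, map_neg, hm_ev, hm_ev, hm_zz, hm_zz, hm_f0, hm_f1]

theorem map_MM : (MM s X).map φ = MM (fun t => φ (s t)) (fun k i j l => φ (X k i j l)) := by
  ext t t'
  simp only [MM, Matrix.map_apply, Matrix.of_apply]
  rw [map_add, map_mul, hm_ev, hm_om, hm_om, hm_zz, hm_ww, hm_ww, hm_cc]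

theorem map_det : φ (MM s X).det =
    (MM (fun t => φ (s t)) (fun k i j l => φ (X k i j l))).det := by
  rw [RingHom.map_det]
  congr 1
  exact map_MM φ s X

end Map

/-! ### Planes over fields -/

section Fld

variable {K : Type*} [Field K] {m g : ℕ}

/-- the vector of a functional -/
def vec (φ : HK K g →ₗ[K] K) : HK K g := Sum.elim (fun i => φ (eb i)) (fun i => -φ (ea i))

theorem om_vec (φ : HK K g →ₗ[K] K) (h : HK K g) : om (vec φ) h = φ h := by
  conv_rhs => rw [hk_decomp h]
  rw [om_apply, map_sum]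
  refine Finset.sum_congr rfl fun i _ => ?_
  rw [map_add, map_smul, map_smul]
  simp only [vec, Sum.elim_inl, Sum.elim_inr, smul_eq_mul]
  ring

theorem om_right_nondeg {x y : HK K g} (h : ∀ z, om x z = om y z) : x = y := by
  have h1 : x - y = 0 := om_nondeg fun z => by
    rw [map_sub, LinearMap.sub_apply, h, sub_self]
  exact sub_eq_zero.1 h1

variable (s : Fin 2 × Gen m → K) (X : Fin 2 → Gen (m + 2) → Gen (m + 2) → Gen (m + 2) → K)

/-- the block operators -/
def TT (k i : Fin 2) : HK K (m + 2) →ₗ[K] HK K (m + 2) where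
  toFun w := vec (evl (X k) (zz s i) w) + om (zz s i) (cc s X k) • w - om w (cc s X k) • zz s i
  map_add' w w' := by
    apply om_right_nondeg
    intro h
    simp only [map_add, map_sub, map_smul, LinearMap.add_apply, LinearMap.sub_apply,
      LinearMap.smul_apply, om_vec, evl_apply, ev_add2, smul_eq_mul]
    ring
  map_smul' c w := by
    apply om_right_nondeg
    intro h
    simp only [map_add, map_sub, map_smul, LinearMap.add_apply, LinearMap.sub_apply,
      LinearMap.smul_apply, om_vec, evl_apply, ev_smul2, smul_eq_mul, RingHom.id_apply]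
    ring

theorem om_TT (k i : Fin 2) (w h : HK K (m + 2)) : om (TT s X k i w) h =
    ev (X k) (zz s i) w h + om (zz s i) (cc s X k) * om w h - om w (cc s X k) * om (zz s i) h := by
  change om (vec (evl (X k) (zz s i) w) + om (zz s i) (cc s X k) • w -
    om w (cc s X k) • zz s i) h = _
  simp only [map_add, map_sub, map_smul, LinearMap.add_apply, LinearMap.sub_apply,
      LinearMap.smul_apply, om_vec, evl_apply, smul_eq_mul]

theorem zz_zero : zz s 0 = xi (sa s) := by rw [zz, if_pos rfl]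

theorem zz_one : zz s 1 = eta (sa s) (sb s) := by rw [zz, if_neg (by decide)]

theorem om_zz (i j : Fin 2) : om (zz s i) (zz s j) = 0 := by
  fin_cases i <;> fin_cases j
  · exact om_alt _
  · change om (zz s 0) (zz s 1) = 0
    rw [zz_zero, zz_one]; exact om_xi_eta _ _
  · change om (zz s 1) (zz s 0) = 0
    rw [om_swap, zz_zero, zz_one, om_xi_eta, neg_zero]
  · exact om_alt _

theorem om_zz_ww (i : Fin 2) (j : Gen m) : om (zz s i) (ww s j) = 0 := by
  fin_cases i
  · change om (zz s 0) (ww s j) = 0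
    rw [zz_zero]; exact om_xi_vv _ _ _
  · change om (zz s 1) (ww s j) = 0
    rw [zz_one]; exact om_eta_vv _ _ _

theorem om_zz_cc0 (k : Fin 2) : om (zz s 0) (cc s X k) =
    -ev (X k) (zz s 0) (zz s 1) (f1 K m) := by
  rw [cc, map_add, map_smul, map_smul, zz_zero, om_xi_f0, om_xi_f1]
  simp

theorem om_zz_cc1 (k : Fin 2) : om (zz s 1) (cc s X k) =
    ev (X k) (zz s 0) (zz s 1) (f0 K m) := by
  rw [cc, map_add, map_smul, map_smul, zz_one, om_eta_f0, om_eta_f1]
  simp

theorem decomp' (h : HK K (m + 2)) : ∃ (p q : K) (t : Gen m → K),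
    h = p • zz s 0 + q • zz s 1 + ∑ j, t j • ww s j + om (zz s 0) h • f0 K m +
      om (zz s 1) h • f1 K m := by
  rw [zz_zero, zz_one]
  exact decomp _ _ h

variable [Algebra ℚ K] {s X} (hX : ∀ k, AltX (X k)) (hE : ∀ t, EE s X t = 0)

include hX hE

theorem ev_plane (k : Fin 2) (h : HK K (m + 2)) : ev (X k) (zz s 0) (zz s 1) h =
    ev (X k) (zz s 0) (zz s 1) (f0 K m) * om (zz s 0) h +
      ev (X k) (zz s 0) (zz s 1) (f1 K m) * om (zz s 1) h := by
  obtain ⟨p, q, t, ht⟩ := decomp' s h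
  have h1 : evl (X k) (zz s 0) (zz s 1) h = evl (X k) (zz s 0) (zz s 1) (p • zz s 0 + q • zz s 1 +
      ∑ j, t j • ww s j + om (zz s 0) h • f0 K m + om (zz s 1) h • f1 K m) := by rw [← ht]
  rw [map_add, map_add, map_add, map_add, map_smul, map_smul, map_smul, map_smul, map_sum] at h1
  simp only [evl_apply, smul_eq_mul] at h1
  rw [h1, (hX k).zero13, (hX k).zero23, Finset.sum_eq_zero]
  · ring
  · intro j _
    rw [ev_smul3]
    have := hE (k, j)
    unfold EE at this
    rw [this, mul_zero]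

theorem TT_zz (k i j : Fin 2) : TT s X k i (zz s j) = 0 := by
  apply om_nondeg
  intro h
  rw [om_TT]
  have h0 := ev_plane hX hE k h
  fin_cases i <;> fin_cases j
  · change ev (X k) (zz s 0) (zz s 0) h + _ - _ = 0
    rw [(hX k).zero12]
    change 0 + om (zz s 0) (cc s X k) * om (zz s 0) h - om (zz s 0) (cc s X k) * om (zz s 0) h = 0
    ring
  · change ev (X k) (zz s 0) (zz s 1) h + om (zz s 0) (cc s X k) * om (zz s 1) h -
      om (zz s 1) (cc s X k) * om (zz s 0) h = 0
    rw [h0, om_zz_cc0, om_zz_cc1]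
    ring
  · change ev (X k) (zz s 1) (zz s 0) h + om (zz s 1) (cc s X k) * om (zz s 0) h -
      om (zz s 0) (cc s X k) * om (zz s 1) h = 0
    rw [(hX k).swap12, h0, om_zz_cc0, om_zz_cc1]
    ring
  · change ev (X k) (zz s 1) (zz s 1) h + _ - _ = 0
    rw [(hX k).zero12]
    change 0 + om (zz s 1) (cc s X k) * om (zz s 1) h - om (zz s 1) (cc s X k) * om (zz s 1) h = 0
    ring

theorem ev_perp (k i j : Fin 2) {w : HK K (m + 2)} (hw : Pp (zz s) w) :
    ev (X k) (zz s i) (zz s j) w = 0 := by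
  have h0 := ev_plane hX hE k w
  rw [hw, hw, mul_zero, mul_zero, add_zero] at h0
  fin_cases i <;> fin_cases j
  · exact (hX k).zero12 _ _
  · exact h0
  · change ev (X k) (zz s 1) (zz s 0) w = 0
    rw [(hX k).swap12, h0, neg_zero]
  · exact (hX k).zero12 _ _

theorem TT_perp (k i : Fin 2) {w : HK K (m + 2)} (hw : Pp (zz s) w) :
    Pp (zz s) (TT s X k i w) := by
  intro j
  rw [om_swap, om_TT, (hX k).swap23, ev_perp hX hE k i j hw, om_swap w (zz s j), hw j, om_zz]
  ring

theorem TT_inj (hM : (MM s X).det ≠ 0) (Y : Fin 2 → HK K (m + 2)) (hY : ∀ k, Pp (zz s) (Y k))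
    (hN : ∃ k, NZ (zz s) (Y k)) : ∃ i, NZ (zz s) (∑ k, TT s X k i (Y k)) := by
  by_contra hc
  push Not at hc
  have hc' : ∀ i j, om (∑ k, TT s X k i (Y k)) (ww s j) = 0 := by
    intro i j
    by_contra hne
    exact hc i ⟨ww s j, fun l => om_zz_ww s l j, hne⟩
  choose p q t ht using fun k => decomp' s (Y k)
  have hY' : ∀ k, Y k = p k • zz s 0 + q k • zz s 1 + ∑ j, t k j • ww s j := by
    intro k
    have h1 := ht k
    rw [hY k, hY k, zero_smul, zero_smul, add_zero, add_zero] at h1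
    exact h1
  have h1 : (MM s X).mulVec (fun t' => t t'.1 t'.2) = 0 := by
    funext t0
    obtain ⟨i, l⟩ := t0
    rw [Pi.zero_apply, ← hc' i l, map_sum, LinearMap.sum_apply]
    unfold Matrix.mulVec dotProduct
    rw [Fintype.sum_prod_type]
    refine Finset.sum_congr rfl fun k _ => ?_
    have hT : TT s X k i (Y k) = ∑ j, t k j • TT s X k i (ww s j) := by
      rw [hY' k]
      simp only [map_add, map_smul, map_sum, TT_zz hX hE, smul_zero, zero_add]
    rw [hT, map_sum, LinearMap.sum_apply]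
    refine Finset.sum_congr rfl fun j _ => ?_
    rw [map_smul, LinearMap.smul_apply, smul_eq_mul, om_TT, om_zz_ww, mul_zero, sub_zero]
    change (ev (X k) (zz s i) (ww s j) (ww s l) +
      om (zz s i) (cc s X k) * om (ww s j) (ww s l)) * t k j = _
    ring
  have h2 : (fun t' : Fin 2 × Gen m => t t'.1 t'.2) = 0 := by
    by_contra hne
    exact hM (Matrix.exists_mulVec_eq_zero_iff.1 ⟨_, hne, h1⟩)
  obtain ⟨k, h, hh, hne⟩ := hN
  apply hne
  have h3 : ∀ j, t k j = 0 := fun j => congrFun h2 (k, j)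
  rw [hY' k]
  simp only [h3, zero_smul, Finset.sum_const_zero, add_zero, map_add, map_smul,
    LinearMap.add_apply, LinearMap.smul_apply]
  rw [hh, hh, smul_zero, smul_zero, add_zero]

omit hX hE [Algebra ℚ K] in
theorem start_plane (hm : 0 < m) : ∃ y, Pp (zz s) y ∧ NZ (zz s) y := by
  refine ⟨ww s (Sum.inl ⟨0, hm⟩), fun i => om_zz_ww s i _, ww s (Sum.inr ⟨0, hm⟩),
    fun i => om_zz_ww s i _, ?_⟩
  unfold ww
  rw [om_vv_vv]
  change om (ea ⟨0, hm⟩ : HK K m) (eb ⟨0, hm⟩) ≠ 0
  rw [om_eb]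
  simp [e]


/-- **the system of a plane** -/
theorem gsys (hM : (MM s X).det ≠ 0) (hm : 0 < m) {F : Fin 2 → MulAut (Surf (m + 2))}
    {x : Fin 2 → A3 (m + 2)} (hx : ∀ k, X k = XX K (x k)) (hJ : ∀ k, Johnson (F k) (x k)) :
    GSys F (zz s) (TT s X) where
  orth := om_zz s
  dual := by
    refine ⟨fun j => if j = 0 then f0 K m else f1 K m, ?_⟩
    intro i j
    fin_cases i <;> fin_cases j
    · change om (zz s 0) (f0 K m) = 1
      rw [zz_zero]; exact om_xi_f0 _
    · change om (zz s 0) (f1 K m) = 0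
      rw [zz_zero]; exact om_xi_f1 _
    · change om (zz s 1) (f0 K m) = 0
      rw [zz_one]; exact om_eta_f0 _ _
    · change om (zz s 1) (f1 K m) = 1
      rw [zz_one]; exact om_eta_f1 _ _
  Tζ := TT_zz hX hE
  perp := fun k i _ hw => TT_perp hX hE k i hw
  inj := TT_inj hX hE hM
  start := start_plane hm
  ex := by
    intro n
    choose u hu1 hu2 hu3 using fun k => gauge_E (hJ k) (cc s X k) n
    refine ⟨fun k => inn (u k) * aut (F k), fun k => ⟨u k, hu1 k, rfl⟩, hu2, fun k i w => ?_⟩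
    apply hu3
    intro h
    rw [om_TT, hx k]

end Fld

end GZ
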