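import Pool.Agent.H40.GZ.KRep

/-!
# The truncated group algebra

`RN K G N` is the group algebra of `G` over `K` modulo the `N`-th power of the augmentation ideal.
-/

open scoped commutatorElement

namespace GZ

section Alg

variable (K : Type*) [Field K] (G : Type*) [Group G]

/-- `x - 1` in the group algebra -/
noncomputable def dA (x : G) : MonoidAlgebra K G := MonoidAlgebra.of K G x - 1

/-- the augmentation ideal, as a subspace -/
noncomputable def IA : Submodule K (MonoidAlgebra K G) := Submodule.span K (Set.range (dA K G))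

variable {K G}

theorem of_eqA (x : G) : MonoidAlgebra.of K G x = 1 + dA K G x := by
  unfold dA; abel

theorem dA_mul (x y : G) : dA K G (x * y) = dA K G x + dA K G y + dA K G x * dA K G y := by
  unfold dA
  rw [map_mul]
  noncomm_ring

theorem dA_mem (x : G) : dA K G x ∈ IA K G := Submodule.subset_span ⟨x, rfl⟩

theorem IA_sq_le : IA K G ^ 2 ≤ IA K G := by
  rw [pow_two, IA, Submodule.span_mul_span, Submodule.span_le]
  rintro _ ⟨_, ⟨x, rfl⟩, _, ⟨y, rfl⟩, rfl⟩
  have h : dA K G x * dA K G y = dA K G (x * y) - dA K G x - dA K G y := by rw [dA_mul]; abel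
  change dA K G x * dA K G y ∈ Submodule.span K (Set.range (dA K G))
  rw [h]
  exact Submodule.sub_mem _ (Submodule.sub_mem _ (dA_mem _) (dA_mem _)) (dA_mem _)

theorem IA_anti {m n : ℕ} (hm : 1 ≤ m) (hmn : m ≤ n) : IA K G ^ n ≤ IA K G ^ m := by
  induction n, hmn using Nat.le_induction with
  | base => exact le_rfl
  | succ n hn ih =>
    refine le_trans ?_ ih
    obtain ⟨k, rfl⟩ : ∃ k, n = k + 1 := ⟨n - 1, by omega⟩
    rw [add_assoc, pow_add, pow_succ (IA K G) k]
    exact mul_le_mul_right IA_sq_le _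

theorem IA_mul_mem {m n : ℕ} {y z : MonoidAlgebra K G} (hy : y ∈ IA K G ^ m)
    (hz : z ∈ IA K G ^ n) : y * z ∈ IA K G ^ (m + n) := by
  rw [pow_add]; exact Submodule.mul_mem_mul hy hz

theorem IA_pow_mul (N : ℕ) (a : MonoidAlgebra K G) {y : MonoidAlgebra K G}
    (hy : y ∈ IA K G ^ (N + 1)) : a * y ∈ IA K G ^ (N + 1) ∧ y * a ∈ IA K G ^ (N + 1) := by
  induction a using MonoidAlgebra.induction_on with
  | of x =>
    rw [of_eqA]
    constructor
    · rw [add_mul, one_mul]
      refine Submodule.add_mem _ hy (IA_anti (by omega) (Nat.le_succ (N + 1)) ?_)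
      have := IA_mul_mem (m := 1) (by rw [pow_one]; exact dA_mem x) hy
      rwa [add_comm 1 (N + 1)] at this
    · rw [mul_add, mul_one]
      refine Submodule.add_mem _ hy (IA_anti (by omega) (Nat.le_succ (N + 1)) ?_)
      exact IA_mul_mem (n := 1) hy (by rw [pow_one]; exact dA_mem x)
  | add a b ha hb =>
    rw [add_mul, mul_add]
    exact ⟨Submodule.add_mem _ ha.1 hb.1, Submodule.add_mem _ ha.2 hb.2⟩
  | smul r a ha =>
    rw [smul_mul_assoc, mul_smul_comm]
    exact ⟨Submodule.smul_mem _ _ ha.1, Submodule.smul_mem _ _ ha.2⟩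

/-- the endomorphism of the group algebra -/
noncomputable def hatA (F : MulAut G) : MonoidAlgebra K G →ₐ[K] MonoidAlgebra K G :=
  MonoidAlgebra.lift K (MonoidAlgebra K G) G ((MonoidAlgebra.of K G).comp F.toMonoidHom)

theorem hatA_of (F : MulAut G) (x : G) :
    hatA F (MonoidAlgebra.of K G x) = MonoidAlgebra.of K G (F x) := by
  unfold hatA
  rw [MonoidAlgebra.lift_of]
  rfl

theorem hatA_dA (F : MulAut G) (x : G) : hatA F (dA K G x) = dA K G (F x) := by
  unfold dA
  rw [map_sub, hatA_of, map_one]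

/-- algebra maps which respect the augmentation ideals respect the powers -/
theorem pow_mem_of_le {B : Type*} [Ring B] [Algebra K B] {f : MonoidAlgebra K G →ₐ[K] B}
    {J : Submodule K B} (h : ∀ x, f (dA K G x) ∈ J) {m : ℕ} {y : MonoidAlgebra K G}
    (hy : y ∈ IA K G ^ m) : f y ∈ J ^ m := by
  have h1 : (IA K G).map f.toLinearMap ≤ J := by
    rw [IA, Submodule.map_span, Submodule.span_le]
    rintro _ ⟨_, ⟨x, rfl⟩, rfl⟩
    exact h x
  have h2 : (IA K G ^ m).map f.toLinearMap ≤ J ^ m := by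
    rw [Submodule.map_pow]
    exact pow_le_pow_left' h1 m
  exact h2 ⟨y, hy, rfl⟩

variable (K G)

/-- the power of the augmentation ideal, as an ideal -/
noncomputable def idl (n : ℕ) : Ideal (MonoidAlgebra K G) where
  carrier := ((IA K G ^ (n + 2) : Submodule K (MonoidAlgebra K G)) : Set (MonoidAlgebra K G))
  add_mem' := fun ha hb => (IA K G ^ (n + 2)).add_mem ha hb
  zero_mem' := (IA K G ^ (n + 2)).zero_mem
  smul_mem' := fun a _ hy => (IA_pow_mul (n + 1) a hy).1

variable {K G}

theorem mem_idl {n : ℕ} {y : MonoidAlgebra K G} : y ∈ idl K G n ↔ y ∈ IA K G ^ (n + 2) := Iff.rfl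

instance idl_two (n : ℕ) : (idl K G n).IsTwoSided :=
  ⟨fun b ha => (IA_pow_mul (n + 1) b ha).2⟩

variable (K G)

/-- the group algebra modulo the power `n + 2` of the augmentation ideal -/
def RN (n : ℕ) : Type _ := MonoidAlgebra K G ⧸ idl K G n

noncomputable instance instRingRN (n : ℕ) : Ring (RN K G n) :=
  inferInstanceAs (Ring (MonoidAlgebra K G ⧸ idl K G n))

noncomputable instance instAlgebraRN (n : ℕ) : Algebra K (RN K G n) :=
  inferInstanceAs (Algebra K (MonoidAlgebra K G ⧸ idl K G n))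

/-- the projection -/
noncomputable def prj (n : ℕ) : MonoidAlgebra K G →ₐ[K] RN K G n :=
  Ideal.Quotient.mkₐ K (idl K G n)

variable {K G} {n : ℕ}

theorem prj_surj : Function.Surjective (prj K G n) := Ideal.Quotient.mkₐ_surjective K _

theorem prj_eq_zero {y : MonoidAlgebra K G} (hy : y ∈ IA K G ^ (n + 2)) : prj K G n y = 0 :=
  Ideal.Quotient.eq_zero_iff_mem.2 hy

/-- maps out of the truncated group algebra -/
noncomputable def liftR {B : Type*} [Ring B] [Algebra K B] (f : MonoidAlgebra K G →ₐ[K] B)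
    (h : ∀ y ∈ IA K G ^ (n + 2), f y = 0) : RN K G n →ₐ[K] B :=
  Ideal.Quotient.liftₐ (idl K G n) f h

theorem liftR_prj {B : Type*} [Ring B] [Algebra K B] (f : MonoidAlgebra K G →ₐ[K] B)
    (h : ∀ y ∈ IA K G ^ (n + 2), f y = 0) (y : MonoidAlgebra K G) :
    liftR f h (prj K G n y) = f y := rfl

/-- the image of a group element -/
noncomputable def rho : G →* RN K G n :=
  ((prj K G n : MonoidAlgebra K G →ₐ[K] RN K G n) : MonoidAlgebra K G →* RN K G n).comp
    (MonoidAlgebra.of K G)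

theorem rho_apply (x : G) : (rho x : RN K G n) = prj K G n (MonoidAlgebra.of K G x) := rfl

/-- `x - 1` -/
noncomputable def dl (x : G) : RN K G n := rho x - 1

theorem dl_eq (x : G) : (dl x : RN K G n) = prj K G n (dA K G x) := by
  unfold dl dA
  rw [map_sub, map_one, rho_apply]

theorem rho_eq (x : G) : (rho x : RN K G n) = 1 + dl x := by unfold dl; abel

theorem dl_mul (x y : G) : (dl (x * y) : RN K G n) = dl x + dl y + dl x * dl y := by
  unfold dl
  rw [map_mul]
  noncomm_ring

theorem dl_one : (dl (1 : G) : RN K G n) = 0 := by unfold dl; rw [map_one, sub_self]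

variable (K G n) in
/-- the augmentation ideal -/
noncomputable def JJ : Submodule K (RN K G n) := Submodule.span K (Set.range dl)

theorem dl_mem (x : G) : (dl x : RN K G n) ∈ JJ K G n := Submodule.subset_span ⟨x, rfl⟩

theorem dl_mem_one (x : G) : (dl x : RN K G n) ∈ JJ K G n ^ 1 := by rw [pow_one]; exact dl_mem x

theorem JJ_eq : JJ K G n = (IA K G).map (prj K G n).toLinearMap := by
  rw [IA, Submodule.map_span, JJ]
  congr 1
  ext y
  constructor
  · rintro ⟨x, rfl⟩
    exact ⟨_, ⟨x, rfl⟩, (dl_eq x).symm⟩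
  · rintro ⟨_, ⟨x, rfl⟩, rfl⟩
    exact ⟨x, dl_eq x⟩

theorem JJ_pow_eq (m : ℕ) : JJ K G n ^ m = (IA K G ^ m).map (prj K G n).toLinearMap := by
  rw [JJ_eq, Submodule.map_pow]

theorem JJ_top : JJ K G n ^ (n + 2) = ⊥ := by
  rw [JJ_pow_eq, eq_bot_iff]
  rintro _ ⟨y, hy, rfl⟩
  exact prj_eq_zero hy

theorem JJ_anti {m k : ℕ} (hm : 1 ≤ m) (hmk : m ≤ k) : JJ K G n ^ k ≤ JJ K G n ^ m := by
  rw [JJ_pow_eq, JJ_pow_eq]
  exact Submodule.map_mono (IA_anti hm hmk)

theorem JJ_zero {m : ℕ} (hm : n + 2 ≤ m) {y : RN K G n} (hy : y ∈ JJ K G n ^ m) : y = 0 := by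
  have h := JJ_anti (by omega) hm hy
  rwa [JJ_top, Submodule.mem_bot] at h

theorem JJ_mul {m k : ℕ} {y z : RN K G n} (hy : y ∈ JJ K G n ^ m) (hz : z ∈ JJ K G n ^ k) :
    y * z ∈ JJ K G n ^ (m + k) := by
  rw [pow_add]; exact Submodule.mul_mem_mul hy hz

/-- every element is a scalar plus an element of the augmentation ideal -/
theorem exists_decomp (y : RN K G n) : ∃ (r : K) (z : RN K G n), z ∈ JJ K G n ∧ y = r • 1 + z := by
  obtain ⟨y, rfl⟩ := prj_surj y
  induction y using MonoidAlgebra.induction_on with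
  | of x => exact ⟨1, dl x, dl_mem x, by rw [one_smul, ← rho_eq]; rfl⟩
  | add a b ha hb =>
    obtain ⟨r, z, hz, h⟩ := ha
    obtain ⟨r', z', hz', h'⟩ := hb
    exact ⟨r + r', z + z', Submodule.add_mem _ hz hz', by rw [map_add, h, h', add_smul]; abel⟩
  | smul c a ha =>
    obtain ⟨r, z, hz, h⟩ := ha
    exact ⟨c * r, c • z, Submodule.smul_mem _ _ hz, by
      rw [map_smul, h, smul_add, smul_smul]⟩

/-- algebra maps which respect the augmentation ideals respect the powers -/
theorem map_pow_mem {B : Type*} [Ring B] [Algebra K B] {f : RN K G n →ₐ[K] B}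
    {J : Submodule K B} (h : ∀ x, f (dl x) ∈ J) {m : ℕ} {y : RN K G n}
    (hy : y ∈ JJ K G n ^ m) : f y ∈ J ^ m := by
  have h1 : (JJ K G n).map f.toLinearMap ≤ J := by
    rw [JJ, Submodule.map_span, Submodule.span_le]
    rintro _ ⟨_, ⟨x, rfl⟩, rfl⟩
    exact h x
  have h2 : (JJ K G n ^ m).map f.toLinearMap ≤ J ^ m := by
    rw [Submodule.map_pow]
    exact pow_le_pow_left' h1 m
  exact h2 ⟨y, hy, rfl⟩

theorem algHom_ext' {B : Type*} [Ring B] [Algebra K B] {f f' : RN K G n →ₐ[K] B}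
    (h : ∀ x, f (rho x) = f' (rho x)) : f = f' := by
  apply AlgHom.ext
  intro y
  obtain ⟨y, rfl⟩ := prj_surj y
  induction y using MonoidAlgebra.induction_on with
  | of x => exact h x
  | add a b ha hb => rw [map_add, map_add, map_add, ha, hb]
  | smul c a ha => rw [map_smul, map_smul, map_smul, ha]

/-- the action of an automorphism of the group -/
noncomputable def autHom (F : MulAut G) : RN K G n →ₐ[K] RN K G n :=
  liftR ((prj K G n).comp (hatA F)) (fun y hy => by
    have h1 := pow_mem_of_le (f := (prj K G n).comp (hatA F)) (J := JJ K G n) (fun x => by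
      rw [AlgHom.comp_apply, hatA_dA, ← dl_eq]; exact dl_mem _) hy
    rwa [JJ_top, Submodule.mem_bot] at h1)

theorem autHom_rho (F : MulAut G) (x : G) : autHom F (rho x : RN K G n) = rho (F x) := by
  rw [rho_apply, autHom, liftR_prj, AlgHom.comp_apply, hatA_of, rho_apply]

/-- the action of the automorphisms of the group -/
noncomputable def aut : MulAut G →* (RN K G n ≃ₐ[K] RN K G n) where
  toFun F := AlgEquiv.ofAlgHom (autHom F) (autHom F⁻¹)
    (algHom_ext' fun x => by
      rw [AlgHom.comp_apply, autHom_rho, autHom_rho, AlgHom.id_apply, MulAut.apply_inv_self])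
    (algHom_ext' fun x => by
      rw [AlgHom.comp_apply, autHom_rho, autHom_rho, AlgHom.id_apply, MulAut.inv_apply_self])
  map_one' := by
    apply AlgEquiv.ext
    intro y
    have h : autHom (1 : MulAut G) = AlgHom.id K (RN K G n) := algHom_ext' fun x => by
      rw [autHom_rho]; rfl
    change autHom (1 : MulAut G) y = y
    rw [h]; rfl
  map_mul' F F' := by
    apply AlgEquiv.ext
    intro y
    have h : autHom (F * F') = (autHom F).comp (autHom F' : RN K G n →ₐ[K] RN K G n) :=
      algHom_ext' fun x => by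
        rw [autHom_rho, AlgHom.comp_apply, autHom_rho, autHom_rho]; rfl
    change autHom (F * F') y = autHom F (autHom F' y)
    rw [h]; rfl

theorem aut_rho (F : MulAut G) (x : G) : aut F (rho x : RN K G n) = rho (F x) := autHom_rho F x

theorem aut_dl (F : MulAut G) (x : G) : aut F (dl x : RN K G n) = dl (F x) := by
  unfold dl
  rw [map_sub, aut_rho, map_one]

/-- conjugation by a unit -/
def inn {R : Type*} [Ring R] [Algebra K R] : Rˣ →* (R ≃ₐ[K] R) where
  toFun u :=
    { toFun := fun y => u * y * ((u⁻¹ : Rˣ) : R)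
      invFun := fun y => ((u⁻¹ : Rˣ) : R) * y * u
      left_inv := fun y => by simp [mul_assoc]
      right_inv := fun y => by simp [mul_assoc]
      map_mul' := fun y z => by simp [mul_assoc]
      map_add' := fun y z => by rw [mul_add, add_mul]
      commutes' := fun r => by
        rw [← Algebra.commutes r (u : R), mul_assoc, Units.mul_inv, mul_one] }
  map_one' := by
    apply AlgEquiv.ext
    intro y
    change ((1 : Rˣ) : R) * y * (((1 : Rˣ)⁻¹ : Rˣ) : R) = y
    simp
  map_mul' u v := by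
    apply AlgEquiv.ext
    intro y
    change ((u * v : Rˣ) : R) * y * (((u * v)⁻¹ : Rˣ) : R) =
      u * (v * y * ((v⁻¹ : Rˣ) : R)) * ((u⁻¹ : Rˣ) : R)
    simp [mul_assoc]

theorem inn_apply {R : Type*} [Ring R] [Algebra K R] (u : Rˣ) (y : R) :
    inn (K := K) u y = u * y * ((u⁻¹ : Rˣ) : R) := rfl

/-- the unit of a group element -/
noncomputable def rhoU (x : G) : (RN K G n)ˣ where
  val := rho x
  inv := rho x⁻¹
  val_inv := by rw [← map_mul, mul_inv_cancel, map_one]
  inv_val := by rw [← map_mul, inv_mul_cancel, map_one]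

theorem aut_conj (x : G) : (aut (MulAut.conj x) : RN K G n ≃ₐ[K] RN K G n) = inn (rhoU x) := by
  apply AlgEquiv.ext
  intro y
  have h : ((aut (MulAut.conj x) : RN K G n ≃ₐ[K] RN K G n) : RN K G n →ₐ[K] RN K G n) =
      ((inn (rhoU x) : RN K G n ≃ₐ[K] RN K G n) : RN K G n →ₐ[K] RN K G n) :=
    algHom_ext' fun z => by
      change aut (MulAut.conj x) (rho z) = inn (rhoU x) (rho z)
      rw [aut_rho, inn_apply, MulAut.conj_apply, map_mul, map_mul]
      rfl
  exact DFunLike.congr_fun h y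

/-- elements of the augmentation ideal are nilpotent -/
theorem pow_eq_zero_of_mem {y : RN K G n} (hy : y ∈ JJ K G n) : y ^ (n + 2) = 0 := by
  have h := Submodule.pow_mem_pow (JJ K G n) hy (n + 2)
  rwa [JJ_top, Submodule.mem_bot] at h

theorem exists_unit {y : RN K G n} (hy : y ∈ JJ K G n) : ∃ u : (RN K G n)ˣ, (u : RN K G n) = 1 + y := by
  obtain ⟨u, hu⟩ := (IsNilpotent.isUnit_one_add ⟨n + 2, pow_eq_zero_of_mem hy⟩ : IsUnit (1 + y))
  exact ⟨u, hu⟩

/-- the inverse of a unit congruent to one -/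
theorem inv_sub_one_mem {u : (RN K G n)ˣ} (hu : (u : RN K G n) - 1 ∈ JJ K G n) :
    ((u⁻¹ : (RN K G n)ˣ) : RN K G n) - 1 ∈ JJ K G n := by
  obtain ⟨r, z, hz, h⟩ := exists_decomp ((u⁻¹ : (RN K G n)ˣ) : RN K G n)
  have h1 : ((u⁻¹ : (RN K G n)ˣ) : RN K G n) - 1 =
      -(((u : RN K G n) - 1) * ((u⁻¹ : (RN K G n)ˣ) : RN K G n)) := by
    rw [sub_mul, Units.mul_inv, one_mul]; abel
  rw [h1, h, mul_add, mul_smul_comm, mul_one]
  refine Submodule.neg_mem _ (Submodule.add_mem _ (Submodule.smul_mem _ _ hu) ?_)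
  have h2 := JJ_mul (m := 1) (k := 1) (by rwa [pow_one]) (by rwa [pow_one] : z ∈ JJ K G n ^ 1)
    (y := (u : RN K G n) - 1)
  have h3 := JJ_anti (K := K) (G := G) (n := n) le_rfl (by norm_num : 1 ≤ 1 + 1) h2
  rwa [pow_one] at h3

theorem mul_sub_one_mem {a b : RN K G n} (ha : a - 1 ∈ JJ K G n) (hb : b - 1 ∈ JJ K G n) :
    a * b - 1 ∈ JJ K G n := by
  have h1 : a * b - 1 = (a - 1) + (b - 1) + (a - 1) * (b - 1) := by noncomm_ring
  rw [h1]
  refine Submodule.add_mem _ (Submodule.add_mem _ ha hb) ?_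
  have h2 := JJ_mul (m := 1) (k := 1) (by rwa [pow_one]) (by rwa [pow_one] : b - 1 ∈ JJ K G n ^ 1)
    (y := a - 1)
  have h3 := JJ_anti (K := K) (G := G) (n := n) le_rfl (by norm_num : 1 ≤ 1 + 1) h2
  rwa [pow_one] at h3

theorem aut_mem (F : MulAut G) {m : ℕ} {y : RN K G n} (hy : y ∈ JJ K G n ^ m) :
    aut F y ∈ JJ K G n ^ m :=
  map_pow_mem (f := ((aut F : RN K G n ≃ₐ[K] RN K G n) : RN K G n →ₐ[K] RN K G n))
    (J := JJ K G n) (fun x => by
      change aut F (dl x) ∈ _
      rw [aut_dl]; exact dl_mem _) hy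

/-! ### Representations -/

/-- the matrices of degree at least `m`, as a subspace -/
def DegS (K : Type*) [Field K] (n m : ℕ) : Submodule K (Mt K n) where
  carrier := {M | Deg m M}
  add_mem' := fun h h' => Deg.add h h'
  zero_mem' := Deg.zero
  smul_mem' := fun r _ h => Deg.smul h r

theorem DegS_pow (m : ℕ) : DegS K n 1 ^ m ≤ DegS K n m := by
  induction m with
  | zero =>
    rw [pow_zero]
    intro y hy
    rw [Submodule.mem_one] at hy
    obtain ⟨r, rfl⟩ := hy
    rw [Algebra.algebraMap_eq_smul_one]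
    exact Deg.smul Deg.one r
  | succ m ih =>
    rw [pow_succ, Submodule.mul_le]
    intro a ha b hb
    exact Deg.mul (ih ha) hb

/-- linear extension of a unipotent representation -/
noncomputable def ext (Ψ : G →* Mt K n) (h : ∀ x, Deg 1 (Ψ x - 1)) : RN K G n →ₐ[K] Mt K n :=
  liftR (MonoidAlgebra.lift K _ G Ψ) (fun y hy => by
    have h1 := pow_mem_of_le (f := MonoidAlgebra.lift K (Mt K n) G Ψ) (J := DegS K n 1) (fun x => by
      unfold dA
      rw [map_sub, MonoidAlgebra.lift_of, map_one]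
      exact h x) hy
    exact Deg.eq_zero (DegS_pow _ h1) le_rfl)

theorem ext_rho (Ψ : G →* Mt K n) (h : ∀ x, Deg 1 (Ψ x - 1)) (x : G) :
    ext Ψ h (rho x) = Ψ x := by
  rw [rho_apply, ext, liftR_prj, MonoidAlgebra.lift_of]

theorem ext_dl (Ψ : G →* Mt K n) (h : ∀ x, Deg 1 (Ψ x - 1)) (x : G) :
    ext Ψ h (dl x) = Ψ x - 1 := by
  unfold dl
  rw [map_sub, ext_rho, map_one]

theorem ext_deg (Ψ : G →* Mt K n) (h : ∀ x, Deg 1 (Ψ x - 1)) {m : ℕ} {y : RN K G n}
    (hy : y ∈ JJ K G n ^ m) : Deg m (ext Ψ h y) :=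
  DegS_pow _ (map_pow_mem (f := ext Ψ h) (J := DegS K n 1) (fun x => by
    rw [ext_dl]; exact h x) hy)

end Alg

end GZ
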