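import Pool.Agent.H40.GZ.Plane2

/-!
# The special pair of forms
-/

namespace GZ

open TG (Gen Surf Hq)

/-! ### Decomposable-by-form 3-forms -/

/-- the form `λ ∧ B` -/
def wedge {V : Type*} [AddCommGroup V] [Module ℚ V] (l : V →ₗ[ℚ] ℚ) (B : V →ₗ[ℚ] V →ₗ[ℚ] ℚ)
    (hB : ∀ u, B u u = 0) : V [⋀^Fin 3]→ₗ[ℚ] ℚ where
  toFun v := l (v 0) * B (v 1) (v 2) - l (v 1) * B (v 0) (v 2) + l (v 2) * B (v 0) (v 1)
  map_update_add' := by
    intro inst v i x y
    obtain rfl : inst = instDecidableEqFin 3 := Subsingleton.elim _ _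
    fin_cases i
    · simp [Function.update]; ring
    · simp [Function.update]; ring
    · simp [Function.update]; ring
  map_update_smul' := by
    intro inst v i c x
    obtain rfl : inst = instDecidableEqFin 3 := Subsingleton.elim _ _
    fin_cases i
    · simp [Function.update]; ring
    · simp [Function.update]; ring
    · simp [Function.update]; ring
  map_eq_zero_of_eq' := by
    have hsw : ∀ u v, B u v = -B v u := by
      intro u v
      have h := hB (u + v)
      simp only [map_add, LinearMap.add_apply, hB] at h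
      linarith
    intro v i j hij hne
    fin_cases i <;> fin_cases j
    · exact absurd rfl hne
    · change v 0 = v 1 at hij
      simp only [hij, hB]; ring
    · change v 0 = v 2 at hij
      simp only [hij, hB]; rw [hsw (v 1) (v 2)]; ring
    · change v 1 = v 0 at hij
      simp only [hij, hB]; ring
    · exact absurd rfl hne
    · change v 1 = v 2 at hij
      simp only [hij, hB]; ring
    · change v 2 = v 0 at hij
      simp only [hij, hB]; rw [hsw (v 1) (v 0)]; ring
    · change v 2 = v 1 at hij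
      simp only [hij, hB]; ring
    · exact absurd rfl hne

theorem wedge_apply {V : Type*} [AddCommGroup V] [Module ℚ V] (l : V →ₗ[ℚ] ℚ)
    (B : V →ₗ[ℚ] V →ₗ[ℚ] ℚ) (hB : ∀ u, B u u = 0) (u v w : V) :
    wedge l B hB ![u, v, w] = l u * B v w - l v * B u w + l w * B u v := rfl

section Ring

variable {R : Type*} [CommRing R] {g m : ℕ}

theorem hk_sumR' (h : HK R g) : h = ∑ j, h j • e R j := by
  rw [Fintype.sum_sum_type]
  have h2 := hk_decomp h
  rw [Finset.sum_add_distrib] at h2
  exact h2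

theorem lin_expand (l : HK R g →ₗ[R] R) (u : HK R g) : l u = ∑ i, u i * l (e R i) := by
  conv_lhs => rw [hk_sumR' u]
  rw [map_sum]
  exact Finset.sum_congr rfl fun i _ => by rw [map_smul, smul_eq_mul]

theorem bil_expand (B : HK R g →ₗ[R] HK R g →ₗ[R] R) (v w : HK R g) :
    B v w = ∑ i, ∑ j, v i * w j * B (e R i) (e R j) := by
  conv_lhs => rw [hk_sumR' v]
  rw [map_sum, LinearMap.sum_apply]
  refine Finset.sum_congr rfl fun i _ => ?_
  rw [map_smul, LinearMap.smul_apply, smul_eq_mul, lin_expand, Finset.mul_sum]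
  exact Finset.sum_congr rfl fun j _ => by ring

theorem ev_prod (l : HK R g →ₗ[R] R) (B : HK R g →ₗ[R] HK R g →ₗ[R] R) (u v w : HK R g) :
    ev (fun i j k => l (e R i) * B (e R j) (e R k)) u v w = l u * B v w := by
  rw [lin_expand l u, bil_expand B v w, Finset.sum_mul]
  unfold ev
  refine Finset.sum_congr rfl fun i _ => ?_
  rw [Finset.mul_sum]
  refine Finset.sum_congr rfl fun j _ => ?_
  rw [Finset.mul_sum]
  exact Finset.sum_congr rfl fun k _ => by ring

theorem ev_wedge (l : HK R g →ₗ[R] R) (B : HK R g →ₗ[R] HK R g →ₗ[R] R) (u v w : HK R g) :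
    ev (fun i j k => l (e R i) * B (e R j) (e R k) - l (e R j) * B (e R i) (e R k) +
      l (e R k) * B (e R i) (e R j)) u v w = l u * B v w - l v * B u w + l w * B u v := by
  rw [← ev_prod l B u v w, ← ev_prod l B v u w, ← ev_prod l B w u v]
  unfold ev
  have h2 : ∑ i, ∑ j, ∑ k, l (e R i) * B (e R j) (e R k) * v i * u j * w k =
      ∑ i, ∑ j, ∑ k, l (e R j) * B (e R i) (e R k) * u i * v j * w k := by
    rw [Finset.sum_comm]
    exact Finset.sum_congr rfl fun i _ => Finset.sum_congr rfl fun j _ =>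
      Finset.sum_congr rfl fun k _ => by ring
  have h3 : ∑ i, ∑ j, ∑ k, l (e R i) * B (e R j) (e R k) * w i * u j * v k =
      ∑ i, ∑ j, ∑ k, l (e R k) * B (e R i) (e R j) * u i * v j * w k := by
    rw [Finset.sum_comm]
    refine Finset.sum_congr rfl fun i _ => ?_
    rw [Finset.sum_comm]
    exact Finset.sum_congr rfl fun j _ => Finset.sum_congr rfl fun k _ => by ring
  rw [h2, h3]
  simp only [← Finset.sum_sub_distrib, ← Finset.sum_add_distrib]
  exact Finset.sum_congr rfl fun i _ => Finset.sum_congr rfl fun j _ =>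
    Finset.sum_congr rfl fun k _ => by ring

/-- the index of the handle -/
def ix (m : ℕ) (k : Fin 2) : Fin (m + 2) := if k = 0 then 0 else Fin.succ 0

variable (R m) in
/-- the functionals `λ_k` -/
def lam (k : Fin 2) : HK R (m + 2) →ₗ[R] R := LinearMap.proj (Sum.inl (ix m k))

variable (R m) in
/-- restriction to the other handles -/
def res : HK R (m + 2) →ₗ[R] HK R m where
  toFun u := Sum.elim (fun i => u (Sum.inl i.succ.succ)) (fun i => u (Sum.inr i.succ.succ))
  map_add' u v := by funext j; rcases j with j | j <;> rfl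
  map_smul' c u := by funext j; rcases j with j | j <;> rfl

variable (R m) in
/-- the form `ω_V` -/
def omV : HK R (m + 2) →ₗ[R] HK R (m + 2) →ₗ[R] R := om.compl₁₂ (res R m) (res R m)

theorem omV_apply (u v : HK R (m + 2)) : omV R m u v = om (res R m u) (res R m v) := rfl

theorem res_mk4 (p q r s : R) (a : HK R m) : res R m (mk4 p q r s a) = a := by
  funext j
  rcases j with j | j
  · rfl
  · rfl

theorem lam_mk4_0 (p q r s : R) (a : HK R m) : lam R m 0 (mk4 p q r s a) = p := rfl

theorem lam_mk4_1 (p q r s : R) (a : HK R m) : lam R m 1 (mk4 p q r s a) = q := rfl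

end Ring

/-! ### The special forms -/

section Sp

variable {m : ℕ}

/-- rational functionals -/
def lq (m : ℕ) (k : Fin 2) : Hq (m + 2) →ₗ[ℚ] ℚ :=
  (LinearMap.proj (ix m k)).comp (LinearMap.fst ℚ (Fin (m + 2) → ℚ) (Fin (m + 2) → ℚ))

/-- rational restriction -/
def rq (m : ℕ) : Hq (m + 2) →ₗ[ℚ] HK ℚ m where
  toFun u := Sum.elim (fun i => u.1 i.succ.succ) (fun i => u.2 i.succ.succ)
  map_add' u v := by funext j; rcases j with j | j <;> rfl
  map_smul' c u := by funext j; rcases j with j | j <;> rfl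

/-- the special forms `λ_k ∧ ω_V` -/
def sp (m : ℕ) (k : Fin 2) : A3 (m + 2) :=
  wedge (lq m k) (om.compl₁₂ (rq m) (rq m)) (fun _ => om_alt _)

theorem lq_bq {R : Type*} [CommRing R] [Algebra ℚ R] (k : Fin 2) (i : Gen (m + 2)) :
    algebraMap ℚ R (lq m k (bq i)) = lam R m k (e R i) := by
  rcases i with i | i
  · change algebraMap ℚ R ((Pi.single i 1 : Fin (m + 2) → ℚ) (ix m k)) =
      (Pi.single (Sum.inl i) 1 : Gen (m + 2) → R) (Sum.inl (ix m k))
    by_cases h : ix m k = i
    · rw [h]; simp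
    · rw [Pi.single_eq_of_ne h, Pi.single_eq_of_ne (by simpa using h), map_zero]
  · change algebraMap ℚ R 0 = (Pi.single (Sum.inr i) 1 : Gen (m + 2) → R) (Sum.inl (ix m k))
    simp

theorem rq_bq {R : Type*} [CommRing R] [Algebra ℚ R] (i : Gen (m + 2)) :
    hm (algebraMap ℚ R) (rq m (bq i)) = res R m (e R i) := by
  funext j
  rcases i with i | i <;> rcases j with j | j
  · change algebraMap ℚ R ((Pi.single i 1 : Fin (m + 2) → ℚ) j.succ.succ) =
      (Pi.single (Sum.inl i) 1 : Gen (m + 2) → R) (Sum.inl j.succ.succ)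
    by_cases h : j.succ.succ = i
    · rw [h]; simp
    · rw [Pi.single_eq_of_ne h, Pi.single_eq_of_ne (by simpa using h), map_zero]
  · change algebraMap ℚ R 0 =
      (Pi.single (Sum.inl i) 1 : Gen (m + 2) → R) (Sum.inr j.succ.succ)
    simp
  · change algebraMap ℚ R 0 =
      (Pi.single (Sum.inr i) 1 : Gen (m + 2) → R) (Sum.inl j.succ.succ)
    simp
  · change algebraMap ℚ R ((Pi.single i 1 : Fin (m + 2) → ℚ) j.succ.succ) =
      (Pi.single (Sum.inr i) 1 : Gen (m + 2) → R) (Sum.inr j.succ.succ)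
    by_cases h : j.succ.succ = i
    · rw [h]; simp
    · rw [Pi.single_eq_of_ne h, Pi.single_eq_of_ne (by simpa using h), map_zero]

variable {R : Type*} [CommRing R] [Algebra ℚ R]

/-- coefficients of rational forms in a ring -/
def XR (R : Type*) [CommRing R] [Algebra ℚ R] {g : ℕ} (x : A3 g) : Gen g → Gen g → Gen g → R :=
  fun i j k => algebraMap ℚ R (x ![bq i, bq j, bq k])

theorem ev_sp (k : Fin 2) (u v w : HK R (m + 2)) : ev (XR R (sp m k)) u v w =
    lam R m k u * omV R m v w - lam R m k v * omV R m u w + lam R m k w * omV R m u v := by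
  rw [← ev_wedge]
  congr 1
  funext i j l
  unfold XR sp
  rw [wedge_apply]
  have hB : ∀ i j : Gen (m + 2), algebraMap ℚ R
      ((om.compl₁₂ (rq m) (rq m)) (bq i) (bq j)) = omV R m (e R i) (e R j) := by
    intro i j
    rw [omV_apply, ← rq_bq, ← rq_bq, ← hm_om]
    rfl
  rw [map_add, map_sub, map_mul, map_mul, map_mul, hB, hB, hB, lq_bq, lq_bq, lq_bq]

variable (s : Fin 2 × Gen m → R)

omit [Algebra ℚ R] in
theorem lam_ww (k : Fin 2) (j : Gen m) : lam R m k (ww s j) = 0 := by
  fin_cases k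
  · rfl
  · rfl

omit [Algebra ℚ R] in
theorem res_ww (j : Gen m) : res R m (ww s j) = e R j := res_mk4 _ _ _ _ _

omit [Algebra ℚ R] in
theorem res_zz0 : res R m (zz s 0) = sa s := by
  rw [zz, if_pos rfl]; exact res_mk4 _ _ _ _ _

omit [Algebra ℚ R] in
theorem res_zz1 : res R m (zz s 1) = sb s := by
  rw [zz, if_neg (by decide)]; exact res_mk4 _ _ _ _ _

omit [Algebra ℚ R] in
theorem lam_zz (k i : Fin 2) : lam R m k (zz s i) = if k = i then 1 else 0 := by
  fin_cases k <;> fin_cases i
  · rfl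
  · rfl
  · rfl
  · rfl

theorem EE_sp0 (j : Gen m) : EE s (fun k => XR R (sp m k)) (0, j) = om (sb s) (e R j) := by
  unfold EE
  rw [ev_sp, lam_ww, lam_zz, lam_zz, omV_apply, res_zz1, res_ww]
  simp

theorem EE_sp1 (j : Gen m) : EE s (fun k => XR R (sp m k)) (1, j) = -om (sa s) (e R j) := by
  unfold EE
  rw [ev_sp, lam_ww, lam_zz, lam_zz, omV_apply, omV_apply, res_zz0, res_ww]
  simp

theorem cc_sp (k : Fin 2) : cc s (fun k => XR R (sp m k)) k = 0 := by
  have h0 : lam R m k (f0 R m) = 0 := by fin_cases k <;> rfl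
  have h1 : lam R m k (f1 R m) = 0 := by fin_cases k <;> rfl
  have h2 : res R m (f0 R m) = 0 := res_mk4 _ _ _ _ _
  have h3 : res R m (f1 R m) = 0 := res_mk4 _ _ _ _ _
  unfold cc
  rw [ev_sp, ev_sp]
  simp only [omV_apply, h0, h1, h2, h3, map_zero, mul_zero, zero_mul, sub_zero, add_zero,
    neg_zero, zero_smul]

theorem MM_sp (i k : Fin 2) (j l : Gen m) : MM s (fun k => XR R (sp m k)) (i, l) (k, j) =
    if k = i then om (e R j) (e R l) else 0 := by
  change ev (XR R (sp m k)) (zz s i) (ww s j) (ww s l) +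
    om (zz s i) (cc s (fun k => XR R (sp m k)) k) * om (ww s j) (ww s l) = _
  rw [cc_sp, map_zero, zero_mul, add_zero, ev_sp, lam_ww, lam_ww, lam_zz, omV_apply, res_ww,
    res_ww]
  simp

end Sp

/-! ### Nondegeneracy -/

section Nd

variable {m : ℕ}

theorem om_e_zero {v : HK ℚ m} (h : ∀ j, om v (e ℚ j) = 0) : v = 0 :=
  om_nondeg fun y => by
    rw [lin_expand (om v) y]
    exact Finset.sum_eq_zero fun i _ => by rw [h, mul_zero]

/-- the linear part of the equations at the special point -/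
def Mat0 (m : ℕ) : Matrix (Fin 2 × Gen m) (Fin 2 × Gen m) ℚ := Matrix.of fun t t' =>
  if t.1 = 0 then (if t'.1 = 1 then om (e ℚ t'.2) (e ℚ t.2) else 0)
  else (if t'.1 = 0 then -om (e ℚ t'.2) (e ℚ t.2) else 0)

theorem Mat0_mulVec0 (v : Fin 2 × Gen m → ℚ) (j : Gen m) :
    (Mat0 m).mulVec v (0, j) = om (sb v) (e ℚ j) := by
  change ∑ t', Mat0 m (0, j) t' * v t' = _
  rw [Fintype.sum_prod_type, Fin.sum_univ_two, om_leftR]
  have h0 : ∀ y, Mat0 m (0, j) (0, y) = 0 := fun y => by simp [Mat0]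
  have h1 : ∀ y, Mat0 m (0, j) (1, y) = om (e ℚ y) (e ℚ j) := fun y => by simp [Mat0]
  simp only [h0, h1, zero_mul, Finset.sum_const_zero, zero_add]
  exact Finset.sum_congr rfl fun i _ => by rw [sb]; ring

theorem Mat0_mulVec1 (v : Fin 2 × Gen m → ℚ) (j : Gen m) :
    (Mat0 m).mulVec v (1, j) = -om (sa v) (e ℚ j) := by
  change ∑ t', Mat0 m (1, j) t' * v t' = _
  rw [Fintype.sum_prod_type, Fin.sum_univ_two, om_leftR]
  have h0 : ∀ y, Mat0 m (1, j) (1, y) = 0 := fun y => by simp [Mat0]
  have h1 : ∀ y, Mat0 m (1, j) (0, y) = -om (e ℚ y) (e ℚ j) := fun y => by simp [Mat0]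
  simp only [h0, h1, zero_mul, Finset.sum_const_zero, add_zero, ← Finset.sum_neg_distrib]
  exact Finset.sum_congr rfl fun i _ => by rw [sa]; ring

theorem Mat0_det : (Mat0 m).det ≠ 0 := by
  intro h
  obtain ⟨v, hv, hv0⟩ := Matrix.exists_mulVec_eq_zero_iff.2 h
  apply hv
  have h0 : sb v = 0 := om_e_zero fun j => by rw [← Mat0_mulVec0, hv0]; rfl
  have h1 : sa v = 0 := om_e_zero fun j => by
    have := Mat0_mulVec1 v j
    rw [hv0, Pi.zero_apply] at this
    linarith
  funext t
  obtain ⟨k, j⟩ := t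
  fin_cases k
  · exact congrFun h1 j
  · exact congrFun h0 j

theorem MM_sp_det (s : Fin 2 × Gen m → ℚ) : (MM s (fun k => XR ℚ (sp m k))).det ≠ 0 := by
  intro h
  obtain ⟨v, hv, hv0⟩ := Matrix.exists_mulVec_eq_zero_iff.2 h
  apply hv
  have h1 : ∀ i, (fun j => v (i, j)) = (0 : HK ℚ m) := by
    intro i
    apply om_e_zero
    intro l
    have h2 := congrFun hv0 (i, l)
    rw [Pi.zero_apply] at h2
    change ∑ t', MM s (fun k => XR ℚ (sp m k)) (i, l) t' * v t' = 0 at h2
    rw [Fintype.sum_prod_type, Finset.sum_eq_single i] at h2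
    · rw [om_leftR, ← h2]
      refine Finset.sum_congr rfl fun j _ => ?_
      rw [MM_sp, if_pos rfl]; ring
    · intro k _ hk
      exact Finset.sum_eq_zero fun j _ => by rw [MM_sp, if_neg hk, zero_mul]
    · intro h; exact absurd (Finset.mem_univ i) h
  funext t
  exact congrFun (h1 t.1) t.2

end Nd

end GZ
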