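import Pool.Agent.H40.GZ.Ring
import Pool.Agent.H40.TG.Magnus
import Pool.Agent.H40.TG.Flag

/-!
# Symbols of functionals on the truncated group algebra
-/

open scoped commutatorElement

namespace GZ

open TG (Surf al be Gen cls surf_hom_ext surf_induction)

section Filt

variable {K : Type*} [Field K] {G : Type*} [Group G] {n : ℕ}

theorem mem_pow_one {y : RN K G n} : y ∈ JJ K G n ^ 1 ↔ y ∈ JJ K G n := by rw [pow_one]

/-- acting trivially on the quotient of the augmentation ideal by its square -/
def TrivR (E : RN K G n ≃ₐ[K] RN K G n) : Prop := ∀ y ∈ JJ K G n, E y - y ∈ JJ K G n ^ 2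

theorem TrivR.mem {E : RN K G n ≃ₐ[K] RN K G n} (h : TrivR E) {m : ℕ} {y : RN K G n}
    (hy : y ∈ JJ K G n ^ m) : E y ∈ JJ K G n ^ m := by
  refine map_pow_mem (f := (E : RN K G n →ₐ[K] RN K G n)) (J := JJ K G n) (fun x => ?_) hy
  have h1 := JJ_anti le_rfl (by norm_num : 1 ≤ 2) (h _ (dl_mem x))
  rw [mem_pow_one] at h1
  have h2 := Submodule.add_mem _ h1 (dl_mem x)
  rwa [sub_add_cancel] at h2

theorem TrivR.pow {E : RN K G n ≃ₐ[K] RN K G n} (h : TrivR E) {m : ℕ} {y : RN K G n}
    (hy : y ∈ JJ K G n ^ (m + 1)) : E y - y ∈ JJ K G n ^ (m + 2) := by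
  induction m generalizing y with
  | zero => rw [zero_add, pow_one] at hy; exact h _ hy
  | succ m ih =>
    rw [pow_succ] at hy
    refine Submodule.mul_induction_on hy ?_ ?_
    · intro a ha b hb
      have h1 : E (a * b) - a * b = (E a - a) * E b + a * (E b - b) := by
        rw [map_mul]; noncomm_ring
      rw [h1]
      refine Submodule.add_mem _ ?_ ?_
      · exact JJ_mul (k := 1) (ih ha) (h.mem (mem_pow_one.2 hb))
      · exact JJ_mul (k := 2) ha (h _ hb)
    · intro a b ha hb
      rw [map_add, add_sub_add_comm]; exact Submodule.add_mem _ ha hb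

/-- the difference operator -/
noncomputable def Df (E : RN K G n ≃ₐ[K] RN K G n) : Module.End K (RN K G n) :=
  (E : RN K G n →ₐ[K] RN K G n).toLinearMap - 1

theorem Df_apply (E : RN K G n ≃ₐ[K] RN K G n) (y : RN K G n) : Df E y = E y - y := rfl

theorem Df_one (E : RN K G n ≃ₐ[K] RN K G n) : Df E 1 = 0 := by
  rw [Df_apply, map_one, sub_self]

theorem Df_prod_mem {α : Type*} {E : α → (RN K G n ≃ₐ[K] RN K G n)} (hE : ∀ i, TrivR (E i))
    (l : List α) {m : ℕ} {y : RN K G n} (hy : y ∈ JJ K G n ^ (m + 1)) :
    (l.map fun i => Df (E i)).prod y ∈ JJ K G n ^ (m + 1 + l.length) := by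
  induction l with
  | nil => simpa using hy
  | cons i l ih =>
    rw [List.map_cons, List.prod_cons, Module.End.mul_apply, Df_apply, List.length_cons]
    have h1 := ih
    have h2 : m + 1 + l.length = m + l.length + 1 := by omega
    rw [h2] at h1
    have h3 := (hE i).pow h1
    have h4 : m + 1 + (l.length + 1) = m + l.length + 2 := by omega
    rw [h4]
    exact h3

theorem Df_prod_one {α : Type*} {E : α → (RN K G n ≃ₐ[K] RN K G n)} (l : List α) (hl : l ≠ []) :
    (l.map fun i => Df (E i)).prod (1 : RN K G n) = 0 := by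
  induction l with
  | nil => exact absurd rfl hl
  | cons i l ih =>
    rw [List.map_cons, List.prod_cons, Module.End.mul_apply]
    by_cases h : l = []
    · subst h; simpa using Df_one (E i)
    · rw [ih h, map_zero]

theorem Df_prod_mem' {α : Type*} {E : α → (RN K G n ≃ₐ[K] RN K G n)} (hE : ∀ i, TrivR (E i))
    (l : List α) (hl : l ≠ []) (y : RN K G n) :
    (l.map fun i => Df (E i)).prod y ∈ JJ K G n ^ (1 + l.length) := by
  obtain ⟨r, z, hz, rfl⟩ := exists_decomp y
  rw [map_add, map_smul, Df_prod_one l hl, smul_zero, zero_add]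
  exact Df_prod_mem hE l (m := 0) (by rw [zero_add, pow_one]; exact hz)

end Filt

section Surf

variable {K : Type*} [Field K] {g n : ℕ}

/-- the generators of the surface group -/
def gn (j : Gen g) : Surf g := Sum.elim al be j

/-- the linear lift of homology classes to the augmentation ideal -/
noncomputable def nv : HK K g →ₗ[K] RN K (Surf g) n where
  toFun h := ∑ j, h j • dl (gn j)
  map_add' h h' := by
    rw [← Finset.sum_add_distrib]
    exact Finset.sum_congr rfl fun j _ => by rw [Pi.add_apply, add_smul]
  map_smul' r h := by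
    rw [RingHom.id_apply, Finset.smul_sum]
    exact Finset.sum_congr rfl fun j _ => by rw [Pi.smul_apply, smul_eq_mul, mul_smul]

theorem nv_apply (h : HK K g) : (nv h : RN K (Surf g) n) = ∑ j, h j • dl (gn j) := rfl

theorem nv_mem (h : HK K g) : (nv h : RN K (Surf g) n) ∈ JJ K (Surf g) n := by
  rw [nv_apply]
  exact Submodule.sum_mem _ fun _ _ => Submodule.smul_mem _ _ (dl_mem _)

theorem nv_mem1 (h : HK K g) : (nv h : RN K (Surf g) n) ∈ JJ K (Surf g) n ^ 1 :=
  mem_pow_one.2 (nv_mem h)

theorem nv_e (j : Gen g) : (nv (e K j) : RN K (Surf g) n) = dl (gn j) := by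
  rw [nv_apply, Finset.sum_eq_single j]
  · simp [e]
  · intro i _ hi
    simp [e, Pi.single_eq_of_ne hi]
  · intro h; exact absurd (Finset.mem_univ j) h

/-! ### Symbols -/

/-- product of the values of the letters -/
def zp : List (HK K g) → List (HK K g) → K
  | [], _ => 1
  | _ :: _, [] => 0
  | v :: vs, h :: hs => om v h * zp vs hs

/-- `f` has symbol `κ v₁ ⊗ ⋯ ⊗ v_m` -/
def Sy (vs : List (HK K g)) (f : RN K (Surf g) n →ₗ[K] K) (κ : K) : Prop :=
  (∀ y ∈ JJ K (Surf g) n ^ (vs.length + 1), f y = 0) ∧
    ∀ hs : List (HK K g), hs.length = vs.length → f ((hs.map nv).prod) = κ * zp vs hs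

theorem prod_nv_mem (hs : List (HK K g)) :
    ((hs.map nv).prod : RN K (Surf g) n) ∈ JJ K (Surf g) n ^ hs.length := by
  induction hs with
  | nil =>
    rw [List.map_nil, List.prod_nil, List.length_nil, pow_zero]
    exact Submodule.one_le.1 le_rfl
  | cons h hs ih =>
    rw [List.map_cons, List.prod_cons, List.length_cons, add_comm]
    exact JJ_mul (nv_mem1 h) ih

theorem Sy.cons {v : HK K g} {vs : List (HK K g)} {f : RN K (Surf g) n →ₗ[K] K} {κ : K}
    (h : Sy (v :: vs) f κ) (x : HK K g) :
    Sy vs (f ∘ₗ LinearMap.mulLeft K (nv x)) (κ * om v x) := by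
  constructor
  · intro y hy
    rw [LinearMap.comp_apply, LinearMap.mulLeft_apply]
    apply h.1
    rw [List.length_cons, add_comm (vs.length + 1) 1]
    exact JJ_mul (nv_mem1 x) hy
  · intro hs hhs
    have h1 := h.2 (x :: hs) (by simp [hhs])
    rw [List.map_cons, List.prod_cons] at h1
    rw [LinearMap.comp_apply, LinearMap.mulLeft_apply, h1, zp, mul_assoc]

/-- `E` acts on functionals with symbol `v ⊗ w` by adding `t` -/
def TauR (E : RN K (Surf g) n ≃ₐ[K] RN K (Surf g) n) (v w t : HK K g) : Prop :=
  ∀ (κ : K) (f : RN K (Surf g) n →ₗ[K] K), Sy [v, w] f κ →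
    ∀ h, f (E (nv h) - nv h) = κ * om t h

/-- **the symbol of a difference** -/
theorem step {E : RN K (Surf g) n ≃ₐ[K] RN K (Surf g) n} (hE : TrivR E) {v w t : HK K g}
    (ht : TauR E v w t) (vs : List (HK K g))
    (hadj : ∀ a ∈ vs ++ [v], ∀ b ∈ vs ++ [v], TauR E a b 0)
    {f : RN K (Surf g) n →ₗ[K] K} {κ : K} (hf : Sy (vs ++ [v, w]) f κ) :
    Sy (vs ++ [t]) (f ∘ₗ Df E) κ := by
  have hvan : ∀ y ∈ JJ K (Surf g) n ^ ((vs ++ [t]).length + 1), (f ∘ₗ Df E) y = 0 := by
    intro y hy
    rw [LinearMap.comp_apply, Df_apply]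
    apply hf.1
    rw [List.length_append, List.length_singleton] at hy
    have h1 := hE.pow hy
    have h2 : (vs ++ [v, w]).length + 1 = vs.length + 1 + 2 := by simp
    rwa [h2]
  refine ⟨hvan, ?_⟩
  clear hvan
  induction vs generalizing f κ with
  | nil =>
    intro hs hhs
    obtain ⟨x, rfl⟩ : ∃ x, hs = [x] := List.length_eq_one_iff.1 (by simpa using hhs)
    have h := ht κ f hf x
    simp only [List.map_cons, List.map_nil, List.prod_cons, List.prod_nil, mul_one,
      LinearMap.comp_apply, Df_apply, List.nil_append, zp]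
    exact h
  | cons u vs ih =>
    intro hs hhs
    cases hs with
    | nil => simp at hhs
    | cons x xs =>
      have h1 := ih (fun a ha b hb => hadj a (by simp at ha ⊢; tauto) b (by simp at hb ⊢; tauto))
        (Sy.cons hf x) xs (by simpa using hhs)
      obtain ⟨u', rest, hrest, hu'⟩ : ∃ u' rest, vs ++ [v, w] = u' :: rest ∧
          u' ∈ u :: vs ++ [v] := by
        cases vs with
        | nil => exact ⟨v, [w], rfl, by simp⟩
        | cons u' vs => exact ⟨u', vs ++ [v, w], rfl, by simp⟩
      have hlen : rest.length = vs.length + 1 := by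
        have := congrArg List.length hrest
        simp at this
        omega
      have hxs' : xs.length = vs.length + 1 := by simpa using hhs
      rw [List.map_cons, List.prod_cons]
      set b := ((xs.map nv).prod : RN K (Surf g) n) with hb
      have hbm : b ∈ JJ K (Surf g) n ^ (vs.length + 1) := by
        rw [← hxs']; exact prod_nv_mem xs
      -- the extra terms vanish
      have h2 : f ((E (nv x) - nv x) * b) = 0 := by
        have h3 := hadj u (by simp) u' hu' (κ * zp rest xs) (f ∘ₗ LinearMap.mulRight K b) ⟨?_, ?_⟩ x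
        · rw [LinearMap.comp_apply, LinearMap.mulRight_apply, map_zero, LinearMap.zero_apply,
            mul_zero] at h3
          exact h3
        · intro y hy
          rw [LinearMap.comp_apply, LinearMap.mulRight_apply]
          apply hf.1
          have h4 := JJ_mul hy hbm
          have h5 : (u :: vs ++ [v, w]).length + 1 = [u, u'].length + 1 + (vs.length + 1) := by
            simp; omega
          rwa [h5]
        · intro ys hys
          obtain ⟨y, z, rfl⟩ : ∃ y z, ys = [y, z] := List.length_eq_two.1 hys
          have h4 := hf.2 (y :: z :: xs) (by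
            rw [List.cons_append, hrest]; simp [hlen, hxs'])
          rw [List.cons_append, hrest] at h4
          simp only [List.map_cons, List.prod_cons, zp] at h4
          rw [LinearMap.comp_apply, LinearMap.mulRight_apply]
          simp only [List.map_cons, List.map_nil, List.prod_cons, List.prod_nil, mul_one, zp]
          rw [mul_assoc, h4]
          ring
      have h3 : f ((E (nv x) - nv x) * (E b - b)) = 0 := by
        apply hf.1
        have h4 := JJ_mul (hE _ (nv_mem x)) (hE.pow hbm)
        have h5 : (u :: vs ++ [v, w]).length + 1 = 2 + (vs.length + 2) := by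
          simp; omega
        rwa [h5]
      have h4 : E (nv x * b) - nv x * b = nv x * (E b - b) + (E (nv x) - nv x) * b +
          (E (nv x) - nv x) * (E b - b) := by
        rw [map_mul]; noncomm_ring
      rw [LinearMap.comp_apply, Df_apply, h4, map_add, map_add, h2, h3, add_zero, add_zero]
      rw [LinearMap.comp_apply, LinearMap.comp_apply, LinearMap.mulLeft_apply, Df_apply] at h1
      rw [h1, List.cons_append, zp, mul_assoc]

/-! ### The block operators -/

/-- iterating the block operators -/
def BB (T : Fin 2 → Fin 2 → HK K g →ₗ[K] HK K g) :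
    List (Fin 2) → (List (Fin 2) → HK K g) →ₗ[K] HK K g
  | [] => LinearMap.proj []
  | i :: us => BB T us ∘ₗ LinearMap.pi fun w => ∑ k, T k i ∘ₗ LinearMap.proj (k :: w)

variable [Algebra ℚ K]

noncomputable instance instModRN : Module ℚ (RN K (Surf g) n) :=
  Module.compHom (RN K (Surf g) n) (algebraMap ℚ K)

instance instTowRN : IsScalarTower ℚ K (RN K (Surf g) n) :=
  IsScalarTower.of_compHom ℚ K (RN K (Surf g) n)

theorem rat_smul (c : ℚ) (y : RN K (Surf g) n) : c • y = algebraMap ℚ K c • y := rfl

/-- the difference operators over the rational numbers -/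
noncomputable def DQ (E : Fin 2 → (RN K (Surf g) n ≃ₐ[K] RN K (Surf g) n)) (k : Fin 2) :
    Module.End ℚ (RN K (Surf g) n) := (Df (E k)).restrictScalars ℚ

theorem DQ_apply (E : Fin 2 → (RN K (Surf g) n ≃ₐ[K] RN K (Surf g) n)) (k : Fin 2)
    (y : RN K (Surf g) n) : DQ E k y = Df (E k) y := rfl

/-- **values of the functionals on the homogeneous part of the Magnus expansion** -/
theorem S_symb {E : Fin 2 → (RN K (Surf g) n ≃ₐ[K] RN K (Surf g) n)}
    {ζ : Fin 2 → HK K g} {T : Fin 2 → Fin 2 → HK K g →ₗ[K] HK K g} (hE : ∀ k, TrivR (E k))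
    (h1 : ∀ k i j, TauR (E k) (ζ i) (ζ j) 0)
    (h2 : ∀ k i w, TauR (E k) (ζ i) w (T k i w))
    (us : List (Fin 2)) (y : HK K g) {f : RN K (Surf g) n →ₗ[K] K}
    (hf : Sy (us.map ζ ++ [y]) f 1) (c : List (Fin 2) → ℚ) (x : HK K g) :
    f (TG.Mag.S (DQ E) us.length c (nv x)) =
      om (BB T us.reverse (fun w => algebraMap ℚ K (c w) • y)) x := by
  induction us using List.reverseRecOn generalizing y f c with
  | nil =>
    have h := hf.2 [x] rfl
    simp only [List.map_cons, List.map_nil, List.prod_cons, List.prod_nil, mul_one,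
      List.nil_append, zp, one_mul] at h
    simp only [List.length_nil, TG.Mag.S, List.reverse_nil, BB, LinearMap.smul_apply,
      Module.End.one_apply, rat_smul, map_smul, h, smul_eq_mul, LinearMap.proj_apply]
  | append_singleton us i ih =>
    have hstep : ∀ k, Sy (us.map ζ ++ [T k i y]) (f ∘ₗ Df (E k)) 1 := by
      intro k
      refine step (hE k) (h2 k i y) (us.map ζ) ?_ ?_
      · intro a ha b hb
        have : ∀ a ∈ us.map ζ ++ [ζ i], ∃ j, a = ζ j := by
          intro a ha
          rw [List.mem_append, List.mem_map, List.mem_singleton] at ha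
          rcases ha with ⟨j, _, rfl⟩ | rfl
          · exact ⟨j, rfl⟩
          · exact ⟨i, rfl⟩
        obtain ⟨j, rfl⟩ := this a ha
        obtain ⟨j', rfl⟩ := this b hb
        exact h1 k j j'
      · simpa using hf
    rw [List.length_append, List.length_singleton, List.reverse_append, List.reverse_singleton,
      List.singleton_append]
    simp only [TG.Mag.S, LinearMap.sum_apply, map_sum, Module.End.mul_apply, BB]
    have h4 : ∀ k, f (DQ E k (TG.Mag.S (DQ E) us.length (fun w => c (k :: w)) (nv x))) =
        om (BB T us.reverse (fun w => algebraMap ℚ K (c (k :: w)) • T k i y)) x := by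
      intro k
      have h5 := ih (T k i y) (hstep k) (fun w => c (k :: w))
      rw [LinearMap.comp_apply] at h5
      exact h5
    rw [Finset.sum_congr rfl fun k _ => h4 k]
    rw [← LinearMap.sum_apply, ← map_sum, ← map_sum, LinearMap.comp_apply]
    congr 3
    funext w
    simp only [LinearMap.pi_apply, LinearMap.sum_apply, LinearMap.comp_apply,
      LinearMap.proj_apply, map_smul, Finset.sum_apply]

end Surf

end GZ
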