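import Pool.Agent.H40.GZ.NotInner
import Pool.Agent.H40.GZ.Defs

/-!
# Symbols of automorphisms acting trivially on homology
-/

open scoped commutatorElement

namespace GZ

open TG (Surf al be Gen cls surf_hom_ext surf_induction Hq inter gam3 cprod cprod_al_be)

variable {K : Type*} [Field K] [Algebra ℚ K] {g n : ℕ}

/-- the standard basis of the rational homology -/
def bq (j : Gen g) : Hq g := Sum.elim TG.ea TG.eb j

theorem cls_gn (j : Gen g) : cls (gn j : Surf g) = bq j := by
  rcases j with i | i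
  · exact TG.cls_al i
  · exact TG.cls_be i

theorem clk_gn (j : Gen g) : clk K (gn j : Surf g) = e K j := by
  rcases j with i | i
  · exact clk_al i
  · exact clk_be i

theorem toK_bq (j : Gen g) : toK K (bq j) = e K j := by
  rw [← cls_gn, ← clk_gn]; rfl

/-- the coefficients of a rational form -/
def XX (K : Type*) [Field K] [Algebra ℚ K] {g : ℕ} (x : A3 g) : Gen g → Gen g → Gen g → K :=
  fun i j k => algebraMap ℚ K (x ![bq i, bq j, bq k])

/-- evaluation of a form given by its coefficients -/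
def ev {R : Type*} [CommRing R] {g : ℕ} (X : Gen g → Gen g → Gen g → R) (u v w : HK R g) : R :=
  ∑ i, ∑ j, ∑ k, X i j k * u i * v j * w k

/-! ### Commutators -/

omit [Algebra ℚ K] in
theorem rho_inv_mem {m : ℕ} (hm : 1 ≤ m) {y : RN K (Surf g) n} (hy : y ∈ JJ K (Surf g) n ^ m)
    (x : Surf g) : y * rho x ∈ JJ K (Surf g) n ^ m := by
  rw [rho_eq, mul_add, mul_one]
  exact Submodule.add_mem _ hy (JJ_anti hm (Nat.le_succ m) (JJ_mul hy (dl_mem_one x)))

omit [Algebra ℚ K] in
theorem dl_comm (x y : Surf g) : (dl ⁅x, y⁆ : RN K (Surf g) n) =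
    (dl x * dl y - dl y * dl x) * rho (x⁻¹ * y⁻¹) := by
  have h1 : (dl x * dl y - dl y * dl x : RN K (Surf g) n) = rho (x * y) - rho (y * x) := by
    unfold dl
    rw [map_mul, map_mul]
    noncomm_ring
  rw [h1, sub_mul, ← map_mul, ← map_mul]
  have h2 : y * x * (x⁻¹ * y⁻¹) = 1 := by group
  have h3 : x * y * (x⁻¹ * y⁻¹) = ⁅x, y⁆ := by rw [commutatorElement_def]; group
  rw [h2, h3, map_one]
  rfl

omit [Algebra ℚ K] in
theorem dl_comm_mem {a b : ℕ} {x y : Surf g} (hx : (dl x : RN K (Surf g) n) ∈ JJ K (Surf g) n ^ a)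
    (hy : (dl y : RN K (Surf g) n) ∈ JJ K (Surf g) n ^ b) (hab : 1 ≤ a + b) :
    (dl ⁅x, y⁆ : RN K (Surf g) n) ∈ JJ K (Surf g) n ^ (a + b) := by
  rw [dl_comm]
  refine rho_inv_mem hab (Submodule.sub_mem _ (JJ_mul hx hy) ?_) _
  have := JJ_mul hy hx
  rwa [add_comm b a] at this

omit [Algebra ℚ K] in
theorem dl_inv_mem {m : ℕ} (hm : 1 ≤ m) {x : Surf g}
    (hx : (dl x : RN K (Surf g) n) ∈ JJ K (Surf g) n ^ m) :
    (dl x⁻¹ : RN K (Surf g) n) ∈ JJ K (Surf g) n ^ m := by
  have h : (dl x⁻¹ : RN K (Surf g) n) = -(dl x * rho x⁻¹) := by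
    have h1 : (rho x : RN K (Surf g) n) * rho x⁻¹ = 1 := by
      rw [← map_mul, mul_inv_cancel, map_one]
    unfold dl
    rw [sub_mul, h1, one_mul]
    abel
  rw [h]
  exact Submodule.neg_mem _ (rho_inv_mem hm hx _)

omit [Algebra ℚ K] in
variable (K g n) in
/-- dimension subgroups -/
def dimR (m : ℕ) : Subgroup (Surf g) where
  carrier := {x | (dl x : RN K (Surf g) n) ∈ JJ K (Surf g) n ^ (m + 1)}
  mul_mem' := by
    intro x y hx hy
    change (dl (x * y) : RN K (Surf g) n) ∈ JJ K (Surf g) n ^ (m + 1)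
    rw [dl_mul]
    refine Submodule.add_mem _ (Submodule.add_mem _ hx hy) ?_
    exact JJ_anti (by omega) (by omega : m + 1 ≤ m + 1 + (m + 1)) (JJ_mul hx hy)
  one_mem' := by
    change (dl 1 : RN K (Surf g) n) ∈ JJ K (Surf g) n ^ (m + 1)
    rw [dl_one]; exact Submodule.zero_mem _
  inv_mem' := fun {x} hx => dl_inv_mem (m := m + 1) (by omega) hx

omit [Algebra ℚ K] in
theorem gam2_le : ⁅(⊤ : Subgroup (Surf g)), (⊤ : Subgroup (Surf g))⁆ ≤ dimR K g n 1 := by
  rw [Subgroup.commutator_le]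
  intro x _ y _
  exact dl_comm_mem (dl_mem_one x) (dl_mem_one y) (by norm_num)

omit [Algebra ℚ K] in
theorem gam3_le : gam3 g ≤ dimR K g n 2 := by
  unfold gam3
  rw [Subgroup.commutator_le]
  intro x hx y _
  exact dl_comm_mem (a := 2) (b := 1) (gam2_le hx) (dl_mem_one y) (by norm_num)

section Fun

variable {v w : HK K g} {f : RN K (Surf g) n →ₗ[K] K} {κ : K} (hf : Sy [v, w] f κ)

include hf

omit [Algebra ℚ K] in
theorem f_cube {y : RN K (Surf g) n} (hy : y ∈ JJ K (Surf g) n ^ 3) : f y = 0 := hf.1 y hy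

omit [Algebra ℚ K] in
theorem f_nv (h h' : HK K g) : f (nv h * nv h') = κ * (om v h * om w h') := by
  have := hf.2 [h, h'] rfl
  simpa [zp] using this

theorem f_dl (x y : Surf g) : f (dl x * dl y) = κ * (om v (clk K x) * om w (clk K y)) := by
  rw [← f_nv hf]
  have h : (dl x * dl y : RN K (Surf g) n) = nv (clk K x) * nv (clk K y) +
      ((dl x - nv (clk K x)) * dl y + nv (clk K x) * (dl y - nv (clk K y))) := by
    noncomm_ring
  rw [h, map_add, f_cube hf (Submodule.add_mem _ (JJ_mul (m := 2) (k := 1) (dl_sub_nv x)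
    (dl_mem_one y)) (JJ_mul (m := 1) (k := 2) (nv_mem1 _) (dl_sub_nv y))), add_zero]

theorem f_comm (x y : Surf g) : f (dl ⁅x, y⁆) =
    κ * (om v (clk K x) * om w (clk K y) - om v (clk K y) * om w (clk K x)) := by
  have h1 : (dl ⁅x, y⁆ : RN K (Surf g) n) = (dl x * dl y - dl y * dl x) +
      (dl x * dl y - dl y * dl x) * dl (x⁻¹ * y⁻¹) := by
    rw [dl_comm, rho_eq, mul_add, mul_one]
  have h2 : (dl x * dl y - dl y * dl x : RN K (Surf g) n) ∈ JJ K (Surf g) n ^ 2 :=
    Submodule.sub_mem _ (JJ_mul (dl_mem_one x) (dl_mem_one y))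
      (JJ_mul (dl_mem_one y) (dl_mem_one x))
  rw [h1, map_add, f_cube hf (JJ_mul (m := 2) (k := 1) h2 (dl_mem_one _)), add_zero, map_sub,
    f_dl hf, f_dl hf]
  ring

omit [Algebra ℚ K] in
theorem f_mul {x y : Surf g} (hx : (dl x : RN K (Surf g) n) ∈ JJ K (Surf g) n ^ 2) :
    f (dl (x * y)) = f (dl x) + f (dl y) := by
  rw [dl_mul, map_add, map_add, f_cube hf (JJ_mul (m := 2) (k := 1) hx (dl_mem_one y)), add_zero]

theorem f_prod (L : List (Surf g × Surf g)) : f (dl (L.map fun p => ⁅p.1, p.2⁆).prod) =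
    κ * (L.map fun p => om v (clk K p.1) * om w (clk K p.2) -
      om v (clk K p.2) * om w (clk K p.1)).sum := by
  induction L with
  | nil => simp [dl_one]
  | cons p L ih =>
    rw [List.map_cons, List.prod_cons, f_mul hf (dl_comm_mem (a := 1) (b := 1) (dl_mem_one _)
      (dl_mem_one _) (by norm_num)), ih, f_comm hf, List.map_cons, List.sum_cons]
    ring

/-- the relation of the surface group -/
theorem f_rel : κ * om v w = 0 := by
  have h := f_prod hf (List.ofFn fun i : Fin g => ((al i : Surf g), (be i : Surf g)))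
  have h1 : ((List.ofFn fun i : Fin g => ((al i : Surf g), (be i : Surf g))).map
      fun p => ⁅p.1, p.2⁆).prod = 1 := by
    rw [List.map_ofFn]
    exact cprod_al_be
  rw [h1, dl_one, map_zero, List.map_ofFn, List.sum_ofFn] at h
  rw [h, ← om_pair v w]
  congr 1
  refine Finset.sum_congr rfl fun i _ => ?_
  simp only [Function.comp_apply, clk_al, clk_be]

end Fun

/-! ### The action of automorphisms -/

omit [Algebra ℚ K] in
theorem ev_eq (X : Gen g → Gen g → Gen g → K) (u v : HK K g) (k : Gen g) :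
    ev X u v (e K k) = ∑ i, ∑ j, X i j k * u i * v j := by
  unfold ev
  refine Finset.sum_congr rfl fun i _ => Finset.sum_congr rfl fun j _ => ?_
  rw [Finset.sum_eq_single k]
  · simp [e]
  · intro l _ hl
    simp [e, Pi.single_eq_of_ne hl]
  · intro h; exact absurd (Finset.mem_univ k) h

omit [Algebra ℚ K] in
theorem ev_sum (X : Gen g → Gen g → Gen g → K) (u v h : HK K g) :
    ev X u v h = ∑ k, h k * ev X u v (e K k) := by
  simp only [ev_eq, Finset.mul_sum]
  unfold ev
  rw [Finset.sum_comm (s := Finset.univ) (t := Finset.univ)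
    (f := fun k i => ∑ j, h k * (X i j k * u i * v j))]
  refine Finset.sum_congr rfl fun i _ => ?_
  rw [Finset.sum_comm]
  exact Finset.sum_congr rfl fun j _ => Finset.sum_congr rfl fun k _ => by ring

omit [Algebra ℚ K] in
theorem hk_sum (h : HK K g) : h = ∑ j, h j • e K j := by
  rw [Fintype.sum_sum_type]
  have h2 := hk_decomp h
  rw [Finset.sum_add_distrib] at h2
  exact h2

omit [Algebra ℚ K] in
theorem om_left (v y : HK K g) : om v y = ∑ i, v i * om (e K i) y := by
  conv_lhs => rw [hk_sum v]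
  rw [map_sum, LinearMap.sum_apply]
  exact Finset.sum_congr rfl fun i _ => by rw [map_smul, LinearMap.smul_apply, smul_eq_mul]

omit [Algebra ℚ K] in
theorem om_right (v y : HK K g) : om v y = ∑ j, y j * om v (e K j) := by
  conv_lhs => rw [hk_sum y]
  rw [map_sum]
  exact Finset.sum_congr rfl fun i _ => by rw [map_smul, smul_eq_mul]

omit [Algebra ℚ K] in
theorem om_both (v y : HK K g) : om v y = ∑ i, ∑ j, v i * y j * om (e K i) (e K j) := by
  rw [om_left]
  refine Finset.sum_congr rfl fun i _ => ?_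
  rw [om_right, Finset.mul_sum]
  exact Finset.sum_congr rfl fun j _ => by ring

omit [Algebra ℚ K] in
theorem pair_expand (v w : HK K g) (L : List (HK K g × HK K g)) :
    (L.map fun p => om v p.1 * om w p.2 - om v p.2 * om w p.1).sum =
      ∑ i, ∑ j, v i * w j * (L.map fun p => om (e K i) p.1 * om (e K j) p.2 -
        om (e K i) p.2 * om (e K j) p.1).sum := by
  induction L with
  | nil => simp
  | cons p L ih =>
    rw [List.map_cons, List.sum_cons, ih]
    have h : om v p.1 * om w p.2 - om v p.2 * om w p.1 = ∑ i, ∑ j, v i * w j *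
        (om (e K i) p.1 * om (e K j) p.2 - om (e K i) p.2 * om (e K j) p.1) := by
      rw [om_left v p.1, om_left w p.2, om_left v p.2, om_left w p.1, Finset.sum_mul_sum,
        Finset.sum_mul_sum, ← Finset.sum_sub_distrib]
      refine Finset.sum_congr rfl fun i _ => ?_
      rw [← Finset.sum_sub_distrib]
      exact Finset.sum_congr rfl fun j _ => by ring
    rw [h, ← Finset.sum_add_distrib]
    refine Finset.sum_congr rfl fun i _ => ?_
    rw [← Finset.sum_add_distrib]
    exact Finset.sum_congr rfl fun j _ => by rw [List.map_cons, List.sum_cons]; ring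

/-- the condition on commutators, for classes over `K` -/
theorem johnson_K {x : A3 g} {L : List (Surf g × Surf g)} {c : ℚ} {k : Gen g}
    (h : ∀ u v : Hq g, (L.map fun p => inter u (cls p.1) * inter v (cls p.2) -
      inter u (cls p.2) * inter v (cls p.1)).sum = x ![u, v, bq k] + c * inter u v)
    (v w : HK K g) :
    (L.map fun p => om v (clk K p.1) * om w (clk K p.2) -
      om v (clk K p.2) * om w (clk K p.1)).sum =
      ev (XX K x) v w (e K k) + algebraMap ℚ K c * om v w := by
  have h1 := pair_expand v w (L.map fun p => (clk K p.1, clk K p.2))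
  rw [List.map_map] at h1
  have h2 : ((fun p : HK K g × HK K g => om v p.1 * om w p.2 - om v p.2 * om w p.1) ∘
      fun p : Surf g × Surf g => (clk K p.1, clk K p.2)) =
      fun p => om v (clk K p.1) * om w (clk K p.2) - om v (clk K p.2) * om w (clk K p.1) := rfl
  rw [h2] at h1
  rw [h1, ev_eq, om_both v w, Finset.mul_sum, ← Finset.sum_add_distrib]
  refine Finset.sum_congr rfl fun i _ => ?_
  rw [Finset.mul_sum, ← Finset.sum_add_distrib]
  refine Finset.sum_congr rfl fun j _ => ?_
  have h3 : ((L.map fun p => (clk K p.1, clk K p.2)).map fun p => om (e K i) p.1 *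
      om (e K j) p.2 - om (e K i) p.2 * om (e K j) p.1).sum =
      algebraMap ℚ K (x ![bq i, bq j, bq k] + c * inter (bq i) (bq j)) := by
    rw [← h (bq i) (bq j), map_list_sum, List.map_map, List.map_map]
    congr 1
    refine List.map_congr_left fun p _ => ?_
    simp only [Function.comp_apply, map_sub, map_mul, ← om_toK, toK_bq]
    rfl
  rw [h3, map_add, map_mul, ← om_toK, toK_bq, toK_bq]
  unfold XX
  ring

omit [Algebra ℚ K] in
theorem prod_comm_mem (L : List (Surf g × Surf g)) :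
    (L.map fun p => ⁅p.1, p.2⁆).prod ∈ dimR K g n 1 := by
  refine list_prod_mem fun y hy => ?_
  rw [List.mem_map] at hy
  obtain ⟨p, _, rfl⟩ := hy
  exact gam2_le (Subgroup.commutator_mem_commutator (Subgroup.mem_top _) (Subgroup.mem_top _))

theorem johnson_mem {F : MulAut (Surf g)} {x : A3 g} (hJ : Johnson F x) (a : Surf g) :
    F a * a⁻¹ ∈ dimR K g n 1 := by
  obtain ⟨L, c, h1, _⟩ := hJ a
  have h2 : F a * a⁻¹ * ((L.map fun p => ⁅p.1, p.2⁆).prod)⁻¹ ∈ dimR K g n 1 :=
    JJ_anti (m := 2) (k := 3) (by norm_num) (by norm_num) (gam3_le (K := K) (n := n) h1)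
  have h3 := (dimR K g n 1).mul_mem h2 (prod_comm_mem (K := K) (n := n) L)
  rwa [inv_mul_cancel_right] at h3

/-- the action of an automorphism on functionals -/
theorem f_aut {F : MulAut (Surf g)} {x : A3 g} (hJ : Johnson F x) {v w : HK K g}
    {f : RN K (Surf g) n →ₗ[K] K} {κ : K} (hf : Sy [v, w] f κ) (h : HK K g) :
    f (aut F (nv h) - nv h) = κ * ev (XX K x) v w h := by
  have h1 : (aut F (nv h) - nv h : RN K (Surf g) n) =
      ∑ k, h k • (dl (F (gn k)) - dl (gn k)) := by
    rw [nv_apply, map_sum, ← Finset.sum_sub_distrib]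
    refine Finset.sum_congr rfl fun k _ => ?_
    rw [map_smul, aut_dl, smul_sub]
  rw [h1, map_sum, ev_sum, Finset.mul_sum]
  refine Finset.sum_congr rfl fun k _ => ?_
  rw [map_smul, smul_eq_mul]
  obtain ⟨L, c, h2, h3⟩ := hJ (gn k)
  rw [cls_gn] at h3
  set P := (L.map fun p => ⁅p.1, p.2⁆).prod with hP
  set a : Surf g := gn k with ha
  have h4 : f (dl (F a * a⁻¹)) = κ * (ev (XX K x) v w (e K k) + algebraMap ℚ K c * om v w) := by
    have h5 : F a * a⁻¹ = (F a * a⁻¹ * P⁻¹) * P := by rw [inv_mul_cancel_right]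
    have h6 : (dl (F a * a⁻¹ * P⁻¹) : RN K (Surf g) n) ∈ JJ K (Surf g) n ^ 3 := gam3_le h2
    rw [h5, f_mul hf (JJ_anti (by norm_num) (by norm_num : 2 ≤ 3) h6), f_cube hf h6, zero_add,
      hP, f_prod hf, johnson_K h3]
  have h5 : f (dl (F a) - dl a) = f (dl (F a * a⁻¹)) := by
    have h6 : F a = (F a * a⁻¹) * a := by rw [inv_mul_cancel_right]
    rw [map_sub]
    nth_rewrite 1 [h6]
    rw [f_mul hf (johnson_mem hJ a), add_sub_cancel_right]
  have h6 := f_rel hf
  rw [h5, h4, mul_add, ← mul_assoc κ (algebraMap ℚ K c), mul_comm κ (algebraMap ℚ K c),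
    mul_assoc _ κ, h6]
  ring

theorem triv_aut {F : MulAut (Surf g)} {x : A3 g} (hJ : Johnson F x) :
    TrivR (aut F : RN K (Surf g) n ≃ₐ[K] RN K (Surf g) n) := by
  intro y hy
  unfold JJ at hy
  induction hy using Submodule.span_induction with
  | mem b hb =>
    obtain ⟨a, rfl⟩ := hb
    rw [aut_dl]
    have h6 : F a = (F a * a⁻¹) * a := by rw [inv_mul_cancel_right]
    have h7 : (dl (F a * a⁻¹) : RN K (Surf g) n) ∈ JJ K (Surf g) n ^ 2 := johnson_mem hJ a
    rw [h6, dl_mul, add_right_comm, add_sub_cancel_right]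
    exact Submodule.add_mem _ h7 (JJ_anti (by norm_num) (by norm_num : 2 ≤ 2 + 1)
      (JJ_mul h7 (dl_mem_one a)))
  | zero => rw [map_zero, sub_zero]; exact Submodule.zero_mem _
  | add b b' _ _ h h' =>
    rw [map_add, add_sub_add_comm]; exact Submodule.add_mem _ h h'
  | smul r b _ h => rw [map_smul, ← smul_sub]; exact Submodule.smul_mem _ _ h

/-- **the modified automorphisms** -/
theorem gauge_E {F : MulAut (Surf g)} {x : A3 g} (hJ : Johnson F x) (c : HK K g) (n : ℕ) :
    ∃ u : (RN K (Surf g) n)ˣ, (u : RN K (Surf g) n) - 1 ∈ JJ K (Surf g) n ∧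
      TrivR (inn u * aut F) ∧ ∀ v w t : HK K g,
        (∀ h, om t h = ev (XX K x) v w h + om v c * om w h - om w c * om v h) →
          TauR (inn u * aut F) v w t := by
  obtain ⟨u, hu⟩ := exists_unit (nv_mem (K := K) (n := n) c)
  have hu1 : (u : RN K (Surf g) n) - 1 = nv c := by rw [hu, add_sub_cancel_left]
  have hum : (u : RN K (Surf g) n) - 1 ∈ JJ K (Surf g) n := by rw [hu1]; exact nv_mem c
  have htr := triv_aut (K := K) (n := n) hJ
  have key : ∀ y ∈ JJ K (Surf g) n, (inn u * aut F : RN K (Surf g) n ≃ₐ[K] RN K (Surf g) n) y -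
      y - (aut F y - y) - (nv c * y - y * nv c) ∈ JJ K (Surf g) n ^ 3 := by
    intro y hy
    have h1 : (inn u * aut F : RN K (Surf g) n ≃ₐ[K] RN K (Surf g) n) y =
        u * aut F y * ((u⁻¹ : (RN K (Surf g) n)ˣ) : RN K (Surf g) n) := rfl
    have hz := htr y hy
    have hz1 := aut_mem F (mem_pow_one.2 hy)
    have hi := inv_sub_one_mem hum
    set z := aut F y with hzdef
    set u' := ((u⁻¹ : (RN K (Surf g) n)ˣ) : RN K (Surf g) n) with hu'
    have h2 : (u : RN K (Surf g) n) * u' = 1 := Units.mul_inv u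
    have h3 : (u : RN K (Surf g) n) * z * u' - y - (z - y) - (nv c * y - y * nv c) =
        (nv c * (z - y) - (z - y) * nv c) + (nv c * z - z * nv c) * (u' - 1) := by
      have h4 : (u : RN K (Surf g) n) * z * u' = z + (nv c * z - z * nv c) * u' := by
        have h5 : (u : RN K (Surf g) n) * z = z * (u : RN K (Surf g) n) + (nv c * z - z * nv c) := by
          rw [hu]; noncomm_ring
        rw [h5, add_mul, mul_assoc z, h2, mul_one]
      rw [h4]
      noncomm_ring
    rw [h1, h3]
    have hc := nv_mem1 (K := K) (n := n) c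
    refine Submodule.add_mem _ (Submodule.sub_mem _ (JJ_mul (k := 2) hc hz)
      (JJ_mul (m := 2) hz hc)) ?_
    exact JJ_mul (m := 2) (k := 1) (Submodule.sub_mem _ (JJ_mul (k := 1) hc hz1)
      (JJ_mul (m := 1) hz1 hc)) (mem_pow_one.2 hi)
  have key2 : ∀ y ∈ JJ K (Surf g) n, (nv c * y - y * nv c) ∈ JJ K (Surf g) n ^ 2 := fun y hy =>
    Submodule.sub_mem _ (JJ_mul (m := 1) (k := 1) (nv_mem1 c) (mem_pow_one.2 hy))
      (JJ_mul (m := 1) (k := 1) (mem_pow_one.2 hy) (nv_mem1 c))
  refine ⟨u, hum, ?_, ?_⟩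
  · intro y hy
    have h1 := Submodule.add_mem _ (Submodule.add_mem _ (JJ_anti (by norm_num)
      (by norm_num : 2 ≤ 3) (key y hy)) (key2 y hy)) (htr y hy)
    have h2 : (inn u * aut F : RN K (Surf g) n ≃ₐ[K] RN K (Surf g) n) y - y =
      (inn u * aut F : RN K (Surf g) n ≃ₐ[K] RN K (Surf g) n) y -
      y - (aut F y - y) - (nv c * y - y * nv c) + (nv c * y - y * nv c) + (aut F y - y) := by abel
    rw [h2]
    exact h1
  · intro v w t ht κ f hf h
    have h1 := f_cube hf (key (nv h) (nv_mem h))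
    rw [map_sub, map_sub, f_aut hJ hf, map_sub f (nv c * nv h), f_nv hf, f_nv hf] at h1
    rw [ht]
    linear_combination h1

end GZ
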